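import Pool.Agent.TPT.St

/-!
# TPT, module DPS: dp-minimality, strong form
-/

set_option autoImplicit false
set_option linter.unusedVariables false

namespace Pool.Agent.TPT

open FirstOrder.Language Set
open scoped FirstOrder
open Pool.Agent.MNO
open Pool.Agent.TPY

section

variable {L : FirstOrder.Language.{0, 0}} {U : Type} [L.Structure U]

/-- the elements of a finite subset of `E ∪ ran J` are in `E` or in finitely many terms of `J` -/
theorem DPS_idx {β κ : Type} {E : Set U} {J : κ → β → U} {B : Set U} (hB : B.Finite)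
    (h : B ⊆ E ∪ ran J) :
    ∃ Y : Set κ, Y.Finite ∧ ∀ b ∈ B, b ∈ E ∨ ∃ k ∈ Y, ∃ a, b = J k a := by
  induction B, hB using Set.Finite.induction_on with
  | empty => exact ⟨∅, finite_empty, fun b hb => absurd hb (notMem_empty b)⟩
  | @insert b B _ _ ih =>
    obtain ⟨Y, hY, hY'⟩ := ih ((subset_insert b B).trans h)
    rcases h (mem_insert b B) with h1 | ⟨k, a, hk⟩
    · refine ⟨Y, hY, ?_⟩
      rintro c (rfl | hc)
      · exact Or.inl h1
      · exact hY' c hc
    · refine ⟨insert k Y, hY.insert k, ?_⟩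
      rintro c (rfl | hc)
      · exact Or.inr ⟨k, mem_insert k Y, a, hk⟩
      · rcases hY' c hc with h2 | ⟨k', hk', a', h2⟩
        · exact Or.inl h2
        · exact Or.inr ⟨k', mem_insert_of_mem k hk', a', h2⟩

/-- the witness of a break -/
theorem DPS_wit (hINF : St_INF) {α β ι κ : Type} [LinearOrder ι] {C : Set U} {I : ι → α → U}
    {J : κ → β → U} {z : U} (h : ¬ Ind L (insert z C ∪ ran J) I) :
    ∃ (X : Set ι) (Y : Set κ), X.Finite ∧ Y.Finite ∧
      ∀ (n m : ℕ) (x : Fin n → ι) (y : Fin m → κ), StrictMono x → X ⊆ range x → Y ⊆ range y →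
      ∃ R : (Fin n × α → U) → (Fin m × β → U) → U → Prop,
        Dp L C (fun v : ((Fin n × α) ⊕ (Fin m × β)) ⊕ Unit → U =>
          R (fun i => v (Sum.inl (Sum.inl i))) (fun i => v (Sum.inl (Sum.inr i))) (v (Sum.inr ()))) ∧
        R (cp I x) (cp J y) z ∧
        ∀ (a : Fin n × α → U) (b : Fin m × β → U) (w : U) (D : Set U), C ⊆ D → w ∈ D →
          (∀ i, b i ∈ D) →
          (∀ (p : ℕ) (f g : Fin p → Fin n), StrictMono f → StrictMono g →
            Tq L D (fun v : Fin p × α => a (f v.1, v.2)) (fun v => a (g v.1, v.2))) →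
          ¬ R a b w := by
  have h1 : ∃ (p : ℕ) (f g : Fin p → ι), StrictMono f ∧ StrictMono g ∧
      ¬ Tq L (insert z C ∪ ran J) (cp I f) (cp I g) := by
    by_contra hcon
    push Not at hcon
    exact h ((hINF L U α ι _ I).2.1 fun n f g hf hg => hcon n f g hf hg)
  obtain ⟨p, f₀, g₀, hf₀, hg₀, h2⟩ := h1
  have h3 : ∃ P, Dp L (insert z C ∪ ran J) P ∧ P (cp I f₀) ∧ ¬ P (cp I g₀) := by
    by_contra hcon
    push Not at hcon
    exact h2 fun P hP h4 => hcon P hP h4
  obtain ⟨P, hP, hPf, hPg⟩ := h3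
  obtain ⟨B, hB, hB', hPB⟩ := dp_fin hP
  obtain ⟨Y, hY, hY'⟩ := DPS_idx hB hB'
  refine ⟨range f₀ ∪ range g₀, Y, (finite_range _).union (finite_range _), hY,
    fun n m x y hx hXx hYy => ?_⟩
  have h5 : ∀ i, ∃ j, x j = f₀ i := fun i => hXx (Or.inl ⟨i, rfl⟩)
  have h6 : ∀ i, ∃ j, x j = g₀ i := fun i => hXx (Or.inr ⟨i, rfl⟩)
  choose f hf using h5
  choose g hg using h6
  have hfm : StrictMono f := fun i j hij => hx.lt_iff_lt.1 (by rw [hf, hf]; exact hf₀ hij)
  have hgm : StrictMono g := fun i j hij => hx.lt_iff_lt.1 (by rw [hg, hg]; exact hg₀ hij)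
  have h4 : Dp L (C ∪ range (Sum.elim (cp J y) (fun _ : Unit => z))) P := by
    refine dp_mono ?_ hPB
    intro b hb
    rcases hY' b hb with (rfl | h5) | ⟨k, hk, a, rfl⟩
    · exact Or.inr ⟨Sum.inr (), rfl⟩
    · exact Or.inl h5
    · obtain ⟨j, rfl⟩ := hYy hk
      exact Or.inr ⟨Sum.inl (j, a), rfl⟩
  obtain ⟨Q, hQ, hPQ⟩ := dp_fam h4
  refine ⟨fun a b w => (Q (Sum.elim (fun v : Fin p × α => a (f v.1, v.2)) (Sum.elim b (fun _ => w))) ↔
     ¬ Q (Sum.elim (fun v : Fin p × α => a (g v.1, v.2)) (Sum.elim b (fun _ => w)))), ?_, ?_, ?_⟩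
  · have e : ∀ f : Fin p → Fin n, Dp L C (fun v : ((Fin n × α) ⊕ (Fin m × β)) ⊕ Unit → U =>
        Q (Sum.elim (fun w : Fin p × α => v (Sum.inl (Sum.inl (f w.1, w.2))))
          (Sum.elim (fun i => v (Sum.inl (Sum.inr i))) (fun _ => v (Sum.inr ()))))) := by
      intro f
      have h5 := dp_sub hQ (Sum.elim (fun w : Fin p × α => Sum.inl (Sum.inl (f w.1, w.2)))
        (Sum.elim (fun i => Sum.inl (Sum.inr i)) (fun _ => Sum.inr ())) :
          (Fin p × α) ⊕ ((Fin m × β) ⊕ Unit) → ((Fin n × α) ⊕ (Fin m × β)) ⊕ Unit)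
      refine dp_congr h5 fun v => iff_of_eq ?_
      congr 1
      funext i
      rcases i with i | i | i <;> rfl
    exact dp_iff (e f) (dp_not (e g))
  · have h5 : (fun v : Fin p × α => cp I x (f v.1, v.2)) = cp I f₀ := by
      funext v
      show I (x (f v.1)) v.2 = I (f₀ v.1) v.2
      rw [hf]
    have h6 : (fun v : Fin p × α => cp I x (g v.1, v.2)) = cp I g₀ := by
      funext v
      show I (x (g v.1)) v.2 = I (g₀ v.1) v.2
      rw [hg]
    show (Q _ ↔ ¬ Q _)
    rw [h5, h6, ← hPQ, ← hPQ]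
    exact ⟨fun _ => hPg, fun _ => hPf⟩
  · intro a b w D hCD hw hb hT h5
    have h6 := hT p f g hfm hgm
    have h7 : Dp L D (fun v : Fin p × α → U => Q (Sum.elim v (Sum.elim b (fun _ => w)))) :=
      dp_par (dp_mono hCD hQ) (Sum.elim b (fun _ => w)) (by
        rintro (i | i)
        · exact hb i
        · exact hw)
    have h8 := tq_iff h6 h7
    have h9 : Q (Sum.elim (fun v : Fin p × α => a (f v.1, v.2)) (Sum.elim b (fun _ => w))) ↔
      Q (Sum.elim (fun v : Fin p × α => a (g v.1, v.2)) (Sum.elim b (fun _ => w))) := h8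
    rw [h9] at h5
    by_cases h10 : Q (Sum.elim (fun v : Fin p × α => a (g v.1, v.2)) (Sum.elim b (fun _ => w)))
    · exact h5.1 h10 h10
    · exact h10 (h5.2 h10)

/-- any two pairs of increasing tuples of mutually indiscernible sequences have the same type -/
theorem DPS_mut {α β ι κ τ υ : Type} [LinearOrder ι] [LinearOrder κ] [LinearOrder τ] [LinearOrder υ]
    {C : Set U} {I : ι → α → U} {J : κ → β → U} (h : Mut L C I J) {f f' : τ → ι} {g g' : υ → κ}
    (hf : StrictMono f) (hf' : StrictMono f') (hg : StrictMono g) (hg' : StrictMono g') :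
    Tq L C (Sum.elim (cp I f) (cp J g)) (Sum.elim (cp I f') (cp J g')) := by
  have h1 : Tq L C (Sum.elim (cp I f) (cp J g)) (Sum.elim (cp I f') (cp J g)) :=
    tq_mono subset_union_left (tq_add (h.1 τ f f' hf hf') (cp J g) (fun i => Or.inr ⟨g i.1, i.2, rfl⟩))
  have h2 : Tq L C (Sum.elim (cp J g) (cp I f')) (Sum.elim (cp J g') (cp I f')) :=
    tq_mono subset_union_left (tq_add (h.2 υ g g' hg hg') (cp I f') (fun i => Or.inr ⟨f' i.1, i.2, rfl⟩))
  have h3 := tq_sub h2 (Sum.swap : (τ × α) ⊕ (υ × β) → (υ × β) ⊕ (τ × α))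
  refine tq_trans h1 (tq_congr h3 ?_ ?_)
  · funext i
    rcases i with i | i <;> rfl
  · funext i
    rcases i with i | i <;> rfl

end

/-- the finite sequence `x` followed by the sequence `s` -/
def DPS_cat {X : Type} {n : ℕ} (x : Fin n → X) (s : ℕ → X) : ℕ → X := fun k =>
  if h : k < n then x ⟨k, h⟩ else s (k - n)

theorem DPS_cat_lt {X : Type} {n : ℕ} (x : Fin n → X) (s : ℕ → X) {k : ℕ} (h : k < n) :
    DPS_cat x s k = x ⟨k, h⟩ := dif_pos h

theorem DPS_cat_ge {X : Type} {n : ℕ} (x : Fin n → X) (s : ℕ → X) {k : ℕ} (h : n ≤ k) :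
    DPS_cat x s k = s (k - n) := dif_neg (not_lt.2 h)

theorem DPS_cat_map {X Y : Type} {n : ℕ} (F : X → Y) (x : Fin n → X) (s : ℕ → X) (k : ℕ) :
    F (DPS_cat x s k) = DPS_cat (fun i => F (x i)) (fun i => F (s i)) k := by
  by_cases h : k < n
  · rw [DPS_cat_lt _ _ h, DPS_cat_lt _ _ h]
  · rw [DPS_cat_ge _ _ (not_lt.1 h), DPS_cat_ge _ _ (not_lt.1 h)]

theorem DPS_cat_mono {ι : Type} [LinearOrder ι] {n : ℕ} {x : Fin n → ι} {s : ℕ → ι} (hx : StrictMono x)
    (hs : StrictMono s) (h : ∀ i k, x i < s k) : StrictMono (DPS_cat x s) := by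
  intro k l hkl
  by_cases hl : l < n
  · rw [DPS_cat_lt _ _ (hkl.trans hl), DPS_cat_lt _ _ hl]
    exact hx hkl
  · rw [DPS_cat_ge _ _ (not_lt.1 hl)]
    by_cases hk : k < n
    · rw [DPS_cat_lt _ _ hk]
      exact h _ _
    · rw [DPS_cat_ge _ _ (not_lt.1 hk)]
      exact hs (by omega)

theorem DPS_enum {ι : Type} [LinearOrder ι] {X : Set ι} (hX : X.Finite) :
    ∃ (n : ℕ) (x : Fin n → ι), StrictMono x ∧ range x = X := by
  refine ⟨hX.toFinset.card, hX.toFinset.orderEmbOfFin rfl,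
    (hX.toFinset.orderEmbOfFin rfl).strictMono, ?_⟩
  rw [Finset.range_orderEmbOfFin]
  exact hX.coe_toFinset

theorem DPS_above {ι : Type} [LinearOrder ι] [NoMaxOrder ι] [Nonempty ι] {X : Set ι} (hX : X.Finite) :
    ∃ s : ℕ → ι, StrictMono s ∧ ∀ x ∈ X, ∀ k, x < s k := by
  obtain ⟨a, ha⟩ := hX.bddAbove
  obtain ⟨s, hs, hs0⟩ := Nat.exists_strictMono' a
  refine ⟨fun k => s (k + 1), fun i j hij => hs (by omega), fun x hx k => ?_⟩
  refine lt_of_le_of_lt (ha hx) ?_
  rw [← hs0]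
  exact hs (by omega)

section

variable {L : FirstOrder.Language.{0, 0}} {U : Type} [L.Structure U]

/-- the block number `k` of the sequence `A` of tuples -/
def DPS_blk {α : Type} (n : ℕ) (A : ℕ → α → U) (k : ℕ) : Fin n × α → U := fun v => A (k * n + v.1) v.2

theorem DPS_blk0 {α ι : Type} {n : ℕ} (I : ι → α → U) (x : Fin n → ι) (I' : ℕ → α → U) :
    DPS_blk n (DPS_cat (fun i => I (x i)) I') 0 = cp I x := by
  funext v
  show DPS_cat (fun i => I (x i)) I' (0 * n + v.1) v.2 = I (x v.1) v.2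
  have h : 0 * n + (v.1 : ℕ) < n := by
    have := v.1.2
    omega
  rw [DPS_cat_lt _ _ h]
  have e : (⟨0 * n + v.1, h⟩ : Fin n) = v.1 := Fin.ext (by simp)
  rw [e]

/-- the later blocks are blocks of an indiscernible sequence -/
theorem DPS_blkS {α ι : Type} {n : ℕ} (I : ι → α → U) (x : Fin n → ι) (I' : ℕ → α → U) {D : Set U}
    (hI : Ind L D I') {k : ℕ} (hk : 0 < k) (p : ℕ) (f g : Fin p → Fin n) (hf : StrictMono f)
    (hg : StrictMono g) :
    Tq L D (fun v : Fin p × α => DPS_blk n (DPS_cat (fun i => I (x i)) I') k (f v.1, v.2))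
      (fun v => DPS_blk n (DPS_cat (fun i => I (x i)) I') k (g v.1, v.2)) := by
  have hn : n ≤ k * n := Nat.le_mul_of_pos_left n hk
  have h1 : ∀ f : Fin p → Fin n, StrictMono f → StrictMono (fun i => k * n + (f i : ℕ) - n) := by
    intro f hf i j hij
    have h2 : (f i : ℕ) < f j := hf hij
    show k * n + (f i : ℕ) - n < k * n + (f j : ℕ) - n
    omega
  have h2 : ∀ f : Fin p → Fin n,
      (fun v : Fin p × α => DPS_blk n (DPS_cat (fun i => I (x i)) I') k (f v.1, v.2)) =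
        cp I' (fun i => k * n + (f i : ℕ) - n) := by
    intro f
    funext v
    show DPS_cat (fun i => I (x i)) I' (k * n + (f v.1 : ℕ)) v.2 = _
    rw [DPS_cat_ge _ _ (by omega)]
    rfl
  rw [h2, h2]
  exact hI (Fin p) _ _ (h1 f hf) (h1 g hg)

end

theorem thm_DPS (hMUX : St_MUX) (hTAL : St_TAL) (hINC : St_INC) (hINF : St_INF) : St_DPS := by
  intro L U _ hC α β ι κ _ _ _ _ _ _ _ _ _ _ C I J z hCc hM
  by_contra hcon
  push Not at hcon
  obtain ⟨h1, h2⟩ := hcon
  obtain ⟨X₁, Y₁, hX₁, hY₁, H1⟩ := DPS_wit hINF h1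
  obtain ⟨Y₂, X₂, hY₂, hX₂, H2⟩ := DPS_wit hINF h2
  obtain ⟨n, x, hx, hxr⟩ := DPS_enum (hX₁.union hX₂)
  obtain ⟨m, y, hy, hyr⟩ := DPS_enum (hY₁.union hY₂)
  obtain ⟨R₁, hR₁, ht₁, hn₁⟩ := H1 n m x y hx (by rw [hxr]; exact subset_union_left)
    (by rw [hyr]; exact subset_union_left)
  obtain ⟨R₂, hR₂, ht₂, hn₂⟩ := H2 m n y x hy (by rw [hyr]; exact subset_union_right)
    (by rw [hxr]; exact subset_union_right)
  obtain ⟨s, hs, hxs⟩ := DPS_above (finite_range x)
  obtain ⟨t, ht, hyt⟩ := DPS_above (finite_range y)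
  -- the base
  obtain ⟨CX, hCX⟩ : ∃ CX : Set U, CX = {w | ∃ q ∈ range x, ∃ a, w = I q a} := ⟨_, rfl⟩
  obtain ⟨CY, hCY⟩ : ∃ CY : Set U, CY = {w | ∃ q ∈ range y, ∃ a, w = J q a} := ⟨_, rfl⟩
  have hXI : CX ⊆ ran I := by
    rw [hCX]
    rintro w ⟨q, -, a, rfl⟩
    exact ⟨q, a, rfl⟩
  have hYJ : CY ⊆ ran J := by
    rw [hCY]
    rintro w ⟨q, -, a, rfl⟩
    exact ⟨q, a, rfl⟩
  have hrI : (ran I).Countable := by
    refine (countable_range (fun v : ι × α => I v.1 v.2)).mono ?_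
    rintro w ⟨q, a, rfl⟩
    exact ⟨(q, a), rfl⟩
  have hrJ : (ran J).Countable := by
    refine (countable_range (fun v : κ × β => J v.1 v.2)).mono ?_
    rintro w ⟨q, a, rfl⟩
    exact ⟨(q, a), rfl⟩
  have hsI : ran (fun k => I (s k)) ⊆ ran I := by
    rintro w ⟨k, a, rfl⟩
    exact ⟨s k, a, rfl⟩
  have htJ : ran (fun k => J (t k)) ⊆ ran J := by
    rintro w ⟨k, a, rfl⟩
    exact ⟨t k, a, rfl⟩
  obtain ⟨C', hC'⟩ : ∃ C' : Set U, C' = C ∪ CX ∪ CY := ⟨_, rfl⟩
  have hCC' : C ⊆ C' := by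
    rw [hC']
    exact subset_union_left.trans subset_union_left
  have hC'c : C'.Countable := by
    rw [hC']
    exact (hCc.union (hrI.mono hXI)).union (hrJ.mono hYJ)
  have hM' : Mut L C' (fun k => I (s k)) (fun k => J (t k)) := by
    constructor
    · have h3 := hTAL L U α ι ℕ (C ∪ ran J) I (range x) s hs hxs hM.1
      refine (hINC L U).2.2.1 α ℕ _ _ _ ?_ h3
      rw [← hCX, hC']
      rintro w (((hw | hw) | hw) | hw)
      · exact Or.inl (Or.inl hw)
      · exact Or.inr hw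
      · exact Or.inl (Or.inr (hYJ hw))
      · exact Or.inl (Or.inr (htJ hw))
    · have h3 := hTAL L U β κ ℕ (C ∪ ran I) J (range y) t ht hyt hM.2
      refine (hINC L U).2.2.1 β ℕ _ _ _ ?_ h3
      rw [← hCY, hC']
      rintro w (((hw | hw) | hw) | hw)
      · exact Or.inl (Or.inl hw)
      · exact Or.inl (Or.inr (hXI hw))
      · exact Or.inr hw
      · exact Or.inl (Or.inr (hsI hw))
  obtain ⟨I', J', hIJ, hT⟩ := hMUX L U hC α β ℕ ℕ C' (insert z C') (fun k => I (s k)) (fun k => J (t k))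
    id id (subset_insert z C') (hC'c.insert z) strictMono_id strictMono_id hM'
  obtain ⟨A, hA⟩ : ∃ A : ℕ → α → U, A = DPS_cat (fun i => I (x i)) I' := ⟨_, rfl⟩
  obtain ⟨B, hB⟩ : ∃ B : ℕ → β → U, B = DPS_cat (fun i => J (y i)) J' := ⟨_, rfl⟩
  have hxs' : StrictMono (DPS_cat x s) := DPS_cat_mono hx hs fun i k => hxs _ ⟨i, rfl⟩ k
  have hyt' : StrictMono (DPS_cat y t) := DPS_cat_mono hy ht fun i k => hyt _ ⟨i, rfl⟩ k
  -- the type of `(A, B)`
  have hAB : Tq L C (Sum.elim (cp A id) (cp B id))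
      (Sum.elim (cp I (DPS_cat x s)) (cp J (DPS_cat y t))) := by
    have h3 := tq_mono hCC' (tq_add hT (Sum.elim (cp I x) (cp J y)) (by
      rw [hC', hCX, hCY]
      rintro (i | i)
      · exact Or.inl (Or.inr ⟨x i.1, ⟨i.1, rfl⟩, i.2, rfl⟩)
      · exact Or.inr ⟨y i.1, ⟨i.1, rfl⟩, i.2, rfl⟩))
    have h4 := tq_sub h3 (Sum.elim
      (fun w : ℕ × α => if h : w.1 < n then Sum.inr (Sum.inl (⟨w.1, h⟩, w.2))
        else Sum.inl (Sum.inl (w.1 - n, w.2)))
      (fun w : ℕ × β => if h : w.1 < m then Sum.inr (Sum.inr (⟨w.1, h⟩, w.2))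
        else Sum.inl (Sum.inr (w.1 - m, w.2))) :
      (ℕ × α) ⊕ (ℕ × β) → ((ℕ × α) ⊕ (ℕ × β)) ⊕ ((Fin n × α) ⊕ (Fin m × β)))
    refine tq_symm (tq_congr h4 ?_ ?_)
    · funext w
      rcases w with ⟨k, a⟩ | ⟨k, a⟩
      · by_cases h : k < n
        · simp only [Sum.elim_inl, h, dif_pos]
          show I (DPS_cat x s k) a = I (x ⟨k, h⟩) a
          rw [DPS_cat_lt _ _ h]
        · simp only [Sum.elim_inl, h, dif_neg, not_false_eq_true]
          show I (DPS_cat x s k) a = I (s (k - n)) a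
          rw [DPS_cat_ge _ _ (not_lt.1 h)]
      · by_cases h : k < m
        · simp only [Sum.elim_inr, h, dif_pos]
          show J (DPS_cat y t k) a = J (y ⟨k, h⟩) a
          rw [DPS_cat_lt _ _ h]
        · simp only [Sum.elim_inr, h, dif_neg, not_false_eq_true]
          show J (DPS_cat y t k) a = J (t (k - m)) a
          rw [DPS_cat_ge _ _ (not_lt.1 h)]
    · rw [hA, hB]
      funext w
      rcases w with ⟨k, a⟩ | ⟨k, a⟩
      · by_cases h : k < n
        · simp only [Sum.elim_inl, h, dif_pos]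
          show DPS_cat (fun i => I (x i)) I' k a = I (x ⟨k, h⟩) a
          rw [DPS_cat_lt _ _ h]
        · simp only [Sum.elim_inl, h, dif_neg, not_false_eq_true]
          show DPS_cat (fun i => I (x i)) I' k a = I' (k - n) a
          rw [DPS_cat_ge _ _ (not_lt.1 h)]
      · by_cases h : k < m
        · simp only [Sum.elim_inr, h, dif_pos]
          show DPS_cat (fun i => J (y i)) J' k a = J (y ⟨k, h⟩) a
          rw [DPS_cat_lt _ _ h]
        · simp only [Sum.elim_inr, h, dif_neg, not_false_eq_true]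
          show DPS_cat (fun i => J (y i)) J' k a = J' (k - m) a
          rw [DPS_cat_ge _ _ (not_lt.1 h)]
  -- the codes
  have hz : ∀ i j : ℕ, ∃ w : U, Tq L C
      (Sum.elim (Sum.elim (cp A id) (cp B id)) (fun _ : Unit => z))
      (Sum.elim (Sum.elim (cp I (fun q => s (i * n + q))) (cp J (fun q => t (j * m + q))))
        (fun _ : Unit => w)) := by
    intro i j
    have h3 : Tq L C (Sum.elim (cp A id) (cp B id))
        (Sum.elim (cp I (fun q => s (i * n + q))) (cp J (fun q => t (j * m + q)))) :=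
      tq_trans hAB (DPS_mut hM hxs' (fun a b hab => hs (by omega)) hyt' (fun a b hab => ht (by omega)))
    obtain ⟨c, hc⟩ := tq_ext' hC hCc h3 (fun _ : Unit => z)
    exact ⟨c (), hc⟩
  choose c hc using hz
  -- the property
  have hP : Dp L C (fun v : ((Fin n × α) ⊕ (Fin m × β)) ⊕ Unit → U =>
      (fun (a : Fin n × α → U) (b : Fin m × β → U) (w : U) => R₁ a b w ∧ R₂ b a w)
        (fun i => v (Sum.inl (Sum.inl i))) (fun i => v (Sum.inl (Sum.inr i))) (v (Sum.inr ()))) := by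
    refine dp_and hR₁ ?_
    have h3 := dp_sub hR₂ (Sum.elim (fun w => Sum.inl (Sum.swap w)) (fun w => Sum.inr w) :
      ((Fin m × β) ⊕ (Fin n × α)) ⊕ Unit → ((Fin n × α) ⊕ (Fin m × β)) ⊕ Unit)
    exact h3
  have key : ∀ i j k l : ℕ,
      (R₁ (DPS_blk n (fun q => I (s q)) (i + k)) (DPS_blk m (fun q => J (t q)) (j + l)) (c i j) ∧
        R₂ (DPS_blk m (fun q => J (t q)) (j + l)) (DPS_blk n (fun q => I (s q)) (i + k)) (c i j)) ↔
      (R₁ (DPS_blk n A k) (DPS_blk m B l) z ∧ R₂ (DPS_blk m B l) (DPS_blk n A k) z) := by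
    intro i j k l
    have h3 := dp_sub hP (Sum.elim (Sum.elim
      (fun w : Fin n × α => Sum.inl (Sum.inl (k * n + (w.1 : ℕ), w.2)))
      (fun w : Fin m × β => Sum.inl (Sum.inr (l * m + (w.1 : ℕ), w.2)))) (fun w => Sum.inr w) :
      ((Fin n × α) ⊕ (Fin m × β)) ⊕ Unit → ((ℕ × α) ⊕ (ℕ × β)) ⊕ Unit)
    have h4 := tq_iff (hc i j) h3
    have e1 : DPS_blk n (fun q => I (s q)) (i + k) =
        fun w : Fin n × α => I (s (i * n + (k * n + (w.1 : ℕ)))) w.2 := by
      funext w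
      show I (s ((i + k) * n + (w.1 : ℕ))) w.2 = _
      rw [show (i + k) * n + (w.1 : ℕ) = i * n + (k * n + (w.1 : ℕ)) by ring]
    have e2 : DPS_blk m (fun q => J (t q)) (j + l) =
        fun w : Fin m × β => J (t (j * m + (l * m + (w.1 : ℕ)))) w.2 := by
      funext w
      show J (t ((j + l) * m + (w.1 : ℕ))) w.2 = _
      rw [show (j + l) * m + (w.1 : ℕ) = j * m + (l * m + (w.1 : ℕ)) by ring]
    rw [e1, e2]
    exact h4.symm
  have hD : C ⊆ insert z C' := hCC'.trans (subset_insert z C')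
  have hxD : ∀ i, cp I x i ∈ insert z C' := by
    intro i
    right
    rw [hC', hCX]
    exact Or.inl (Or.inr ⟨x i.1, ⟨i.1, rfl⟩, i.2, rfl⟩)
  have hyD : ∀ i, cp J y i ∈ insert z C' := by
    intro i
    right
    rw [hC', hCY]
    exact Or.inr ⟨y i.1, ⟨i.1, rfl⟩, i.2, rfl⟩
  refine arr hC (α := Fin n × α) (β := Fin m × β) (A := C)
    (P := fun (a : Fin n × α → U) (b : Fin m × β → U) (w : U) => R₁ a b w ∧ R₂ b a w) hP fun N => ⟨true, true, fun i => DPS_blk n (fun q => I (s q)) i,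
    fun j => DPS_blk m (fun q => J (t q)) j, c, fun i _ j _ => ⟨?_, fun k _ hik => ?_, fun l _ hjl => ?_⟩⟩
  · have h3 := key i j 0 0
    rw [hA, hB, DPS_blk0, DPS_blk0] at h3
    exact h3.2 ⟨ht₁, ht₂⟩
  · have hik' : i < k := hik
    obtain ⟨k', rfl⟩ := Nat.exists_eq_add_of_lt hik'
    have h3 := key i j (k' + 1) 0
    rw [hA, hB, DPS_blk0] at h3
    intro h4
    have h5 := (h3.1 h4).1
    refine hn₁ _ _ z (insert z C') hD (mem_insert z C') hyD (fun p f g hf hg => ?_) h5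
    exact tq_mono subset_union_left (DPS_blkS I x I' hIJ.1 (Nat.succ_pos k') p f g hf hg)
  · have hjl' : j < l := hjl
    obtain ⟨l', rfl⟩ := Nat.exists_eq_add_of_lt hjl'
    have h3 := key i j 0 (l' + 1)
    rw [hA, hB, DPS_blk0] at h3
    intro h4
    have h5 := (h3.1 h4).2
    refine hn₂ _ _ z (insert z C') hD (mem_insert z C') hxD (fun p f g hf hg => ?_) h5
    exact tq_mono subset_union_left (DPS_blkS J y J' hIJ.2 (Nat.succ_pos l') p f g hf hg)

end Pool.Agent.TPT
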