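import Pool.Agent.TPT.St
import Pool.Agent.TPY.ECR

/-!
# TPT, module EXT: extraction of an indiscernible sequence (helper24)
-/

set_option autoImplicit false
set_option linter.unusedVariables false

namespace Pool.Agent.TPT

open FirstOrder.Language Set
open scoped FirstOrder
open Pool.Agent.MNO
open Pool.Agent.TPY

/-- `Q` holds for all increasing copies of the finite set `K` in the sequence `J ∘ φ` -/
private def EXT_Good {U β ι : Type} [LinearOrder ι] (J : ℕ → β → U)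
    (Q : (ι × β → U) → Prop) (φ : ℕ → ℕ) : Prop :=
  ∃ K : Finset ι, ∀ h : ι → ℕ, (∀ x ∈ K, ∀ y ∈ K, x < y → h x < h y) →
    Q (fun w => J (φ (h w.1)) w.2)

private theorem EXT_inh {U β ι : Type} [LinearOrder ι] {J : ℕ → β → U}
    {Q : (ι × β → U) → Prop} {φ ψ : ℕ → ℕ} (hψ : StrictMono ψ) (h : EXT_Good J Q φ) :
    EXT_Good J Q (fun i => φ (ψ i)) := by
  obtain ⟨K, hK⟩ := h
  exact ⟨K, fun h hh => hK (fun i => ψ (h i)) fun x hx y hy hxy => hψ (hh x hx y hy hxy)⟩

private theorem EXT_enum {ι : Type} [LinearOrder ι] (K : Finset ι) :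
    ∃ h : ι → ℕ, ∀ x ∈ K, ∀ y ∈ K, x < y → h x < h y := by
  classical
  refine ⟨fun k => (K.filter (· < k)).card, fun x hx y hy hxy => ?_⟩
  refine Finset.card_lt_card ?_
  rw [Finset.ssubset_iff_of_subset]
  · exact ⟨x, Finset.mem_filter.2 ⟨hx, hxy⟩, fun h => lt_irrefl _ (Finset.mem_filter.1 h).2⟩
  · intro z hz
    obtain ⟨h1, h2⟩ := Finset.mem_filter.1 hz
    exact Finset.mem_filter.2 ⟨h1, h2.trans hxy⟩

theorem thm_EXT (hINF : St_INF) : St_EXT := by
  classical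
  intro L U _ hC β ι _ _ _ D J hD
  -- the two kinds of properties
  let F1 : Set ((ι × β → U) → Prop) := {Q | ∃ (n : ℕ) (P : (Fin n × β → U) → Prop)
    (g : Fin n → ι), Dp L D P ∧ (∀ f : Fin n → ℕ, StrictMono f → P (cp J f)) ∧ StrictMono g ∧
      Q = fun v => P (fun w => v (g w.1, w.2))}
  let F2 : Set ((ι × β → U) → Prop) := {Q | ∃ (n : ℕ) (P : (Fin n × β → U) → Prop)
    (g g' : Fin n → ι), Dp L D P ∧ StrictMono g ∧ StrictMono g' ∧
      Q = fun v => P (fun w => v (g w.1, w.2)) → P (fun w => v (g' w.1, w.2))}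
  have hF : ∀ P ∈ F1 ∪ F2, Dp L D P := by
    rintro Q (⟨n, P, g, hP, -, -, rfl⟩ | ⟨n, P, g, g', hP, -, -, rfl⟩)
    · exact dp_sub hP (fun w : Fin n × β => (g w.1, w.2))
    · exact dp_imp (dp_sub hP (fun w : Fin n × β => (g w.1, w.2)))
        (dp_sub hP (fun w : Fin n × β => (g' w.1, w.2)))
  -- one property
  have hone : ∀ Q ∈ F1 ∪ F2, ∀ φ : ℕ → ℕ, StrictMono φ → ∃ ψ : ℕ → ℕ, StrictMono ψ ∧
      EXT_Good J Q (fun i => φ (ψ i)) := by
    rintro Q (⟨n, P, g, hP, hJ, hg, rfl⟩ | ⟨n, P, g, g', hP, hg, hg', rfl⟩) φ hφ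
    · refine ⟨id, strictMono_id, Finset.univ.image g, fun h hh => ?_⟩
      refine hJ (fun i => φ (h (g i))) fun i j hij => hφ ?_
      exact hh _ (Finset.mem_image_of_mem g (Finset.mem_univ i)) _
        (Finset.mem_image_of_mem g (Finset.mem_univ j)) (hg hij)
    · obtain ⟨ψ, κ, hψ, hκ⟩ := ecr_ramsey (C := Prop) n fun f => P (cp J fun i => φ (f i))
      refine ⟨ψ, hψ, Finset.univ.image g ∪ Finset.univ.image g', fun h hh => ?_⟩
      have h1 := hκ (fun i => h (g i)) fun i j hij => hh _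
        (Finset.mem_union_left _ (Finset.mem_image_of_mem g (Finset.mem_univ i))) _
        (Finset.mem_union_left _ (Finset.mem_image_of_mem g (Finset.mem_univ j))) (hg hij)
      have h2 := hκ (fun i => h (g' i)) fun i j hij => hh _
        (Finset.mem_union_right _ (Finset.mem_image_of_mem g' (Finset.mem_univ i))) _
        (Finset.mem_union_right _ (Finset.mem_image_of_mem g' (Finset.mem_univ j))) (hg' hij)
      intro h3
      have h4 : P (cp J fun i => φ (ψ (h (g i)))) := h3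
      have h5 : P (cp J fun i => φ (ψ (h (g' i)))) := by
        have h6 : P (cp J fun i => φ (ψ (h (g i)))) = P (cp J fun i => φ (ψ (h (g' i)))) :=
          h1.trans h2.symm
        rw [← h6]
        exact h4
      exact h5
  -- finitely many properties
  have hfin : ∀ G : Set ((ι × β → U) → Prop), G.Finite → G ⊆ F1 ∪ F2 →
      ∃ φ : ℕ → ℕ, StrictMono φ ∧ ∀ Q ∈ G, EXT_Good J Q φ := by
    intro G hG
    induction G, hG using Set.Finite.induction_on with
    | empty => exact fun _ => ⟨id, strictMono_id, fun Q hQ => absurd hQ (notMem_empty Q)⟩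
    | @insert Q G _ _ ih =>
      intro hG
      obtain ⟨φ, hφ, h1⟩ := ih fun x hx => hG (mem_insert_of_mem Q hx)
      obtain ⟨ψ, hψ, h2⟩ := hone Q (hG (mem_insert Q G)) φ hφ
      refine ⟨fun i => φ (ψ i), hφ.comp hψ, ?_⟩
      rintro Q' (rfl | hQ')
      · exact h2
      · exact EXT_inh hψ (h1 Q' hQ')
  have hsat : ∀ G ⊆ F1 ∪ F2, G.Finite → ∃ v : ι × β → U, ∀ P ∈ G, P v := by
    intro G hG hGf
    obtain ⟨φ, hφ, h1⟩ := hfin G hGf hG
    have h2 : ∀ Q : (ι × β → U) → Prop, ∃ K : Finset ι, Q ∈ G → ∀ h : ι → ℕ,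
        (∀ x ∈ K, ∀ y ∈ K, x < y → h x < h y) → Q (fun w => J (φ (h w.1)) w.2) := by
      intro Q
      by_cases hQ : Q ∈ G
      · obtain ⟨K, hK⟩ := h1 Q hQ
        exact ⟨K, fun _ => hK⟩
      · exact ⟨∅, fun h => absurd h hQ⟩
    choose K hK using h2
    obtain ⟨h, hh⟩ := EXT_enum (hGf.toFinset.biUnion K)
    refine ⟨fun w => J (φ (h w.1)) w.2, fun Q hQ => hK Q hQ h fun x hx y hy hxy => ?_⟩
    have h3 : K Q ⊆ hGf.toFinset.biUnion K :=
      Finset.subset_biUnion_of_mem K (hGf.mem_toFinset.2 hQ)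
    exact hh x (h3 hx) y (h3 hy) hxy
  obtain ⟨v, hv⟩ := sat_dp hC hD hF hsat
  refine ⟨fun j b => v (j, b), ?_, ?_⟩
  · refine (hINF L U β ι D (fun j b => v (j, b))).2.1 fun n f g hf hg P hP hx => ?_
    have h1 := hv _ (Or.inr ⟨n, P, f, g, hP, hf, hg, rfl⟩)
    exact h1 hx
  · intro n P hP hJ g hg
    exact hv _ (Or.inl ⟨n, P, g, hP, hJ, hg, rfl⟩)

end Pool.Agent.TPT
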