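import Pool.Agent.TPT.St

/-!
# TPT [TAL]: the terms on the right of given terms
-/

set_option autoImplicit false

namespace Pool.Agent.TPT

open FirstOrder.Language Set
open scoped FirstOrder
open Pool.Agent.MNO
open Pool.Agent.TPY

/-- two strictly monotone maps, the first one below the second one -/
theorem TAL_mono {ι μ ν : Type} [LinearOrder ι] [LinearOrder μ] [LinearOrder ν] (p : μ → ι)
    (q : ν → ι) (hp : StrictMono p) (hq : StrictMono q) (h : ∀ x y, p x < q y) :
    StrictMono (fun z : μ ⊕ₗ ν => Sum.elim p q (ofLex z)) := by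
  intro a b hab
  induction a using Lex.rec with
  | _ a =>
  induction b using Lex.rec with
  | _ b =>
  rcases a with a | a <;> rcases b with b | b
  · exact hp (Sum.Lex.inl_lt_inl_iff.1 hab)
  · exact h a b
  · exact absurd hab Sum.Lex.not_inr_lt_inl
  · exact hq (Sum.Lex.inr_lt_inr_iff.1 hab)

theorem thm_TAL : St_TAL := by
  intro L U _ α ι κ _ _ C I X s hs hX hI μ _ f g hf hg
  have hY : {y | ∃ x ∈ X, ∃ a, y = I x a} = range (cp I (Subtype.val : X → ι)) := by
    ext y
    constructor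
    · rintro ⟨x, hx, a, rfl⟩
      exact ⟨(⟨x, hx⟩, a), rfl⟩
    · rintro ⟨⟨⟨x, hx⟩, a⟩, rfl⟩
      exact ⟨x, hx, a, rfl⟩
  rw [hY, tq_fam]
  have h1 : ∀ f : μ → κ, StrictMono f →
      StrictMono (fun z : X ⊕ₗ μ => Sum.elim (Subtype.val : X → ι) (fun k => s (f k)) (ofLex z)) :=
    fun f hf => TAL_mono _ _ (Subtype.strictMono_coe _) (hs.comp hf) fun x k => hX x x.2 _
  have h2 := tq_sub (hI (X ⊕ₗ μ) _ _ (h1 f hf) (h1 g hg))
    (Sum.elim (fun w : μ × α => (toLex (Sum.inr w.1), w.2)) fun w : X × α => (toLex (Sum.inl w.1), w.2))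
  refine tq_congr h2 ?_ ?_
  · funext w
    rcases w with w | w <;> rfl
  · funext w
    rcases w with w | w <;> rfl

end Pool.Agent.TPT
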