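import Pool.Agent.TPT.ALLa
import Pool.Agent.TPT.EXT
import Pool.Agent.TPT.DPS
import Pool.Agent.TPT.TAL

/-!
# TPT/ALL: triviality of indiscernible sequences (TR) and dp-minimality over `Cz`, without hypotheses
-/

set_option autoImplicit false

namespace Pool.Agent.TPT

theorem all_DPS : St_DPS := thm_DPS (thm_MUX (thm_EXT thm_INF) thm_INC thm_INF) thm_TAL thm_INC thm_INF

/-- **TR** -/
theorem all_TRR : St_TRR := all_TRRa (thm_EXT thm_INF) all_DPS

/-- **TR**, the form of `TPY/StI.lean` -/
theorem all_TRI : TPY.St_TRI := all_TRIa (thm_EXT thm_INF) all_DPS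

/-- dp-minimality, the form of `TPY/StI.lean` -/
theorem all_DPM : TPY.St_DPM := all_DPMa all_DPS

end Pool.Agent.TPT
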