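import Pool.Agent.TPT.St

/-!
# TPT: BLK, a break can be moved to one place of a sequence of blocks (helper47)
-/

set_option autoImplicit false
set_option linter.unusedVariables false

namespace Pool.Agent.TPT

open FirstOrder.Language Set
open scoped FirstOrder
open Pool.Agent.MNO
open Pool.Agent.TPY

/-- blocks of an increasing sequence -/
private theorem BLK_mono {n : ℕ} {θ : ℚ → Fin n → ℚ} (h1 : ∀ j, StrictMono (θ j))
    (h2 : ∀ j j' i i', j < j' → θ j i < θ j' i') {κ : Type} [LinearOrder κ] {f : κ → ℚ} (hf : StrictMono f) :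
    StrictMono (fun r : κ ×ₗ Fin n => θ (f (ofLex r).1) (ofLex r).2) := by
  intro r s hrs
  rcases (Prod.Lex.lt_iff' (x := r) (y := s)).1 hrs with ⟨h3, h4⟩
  rcases h3.lt_or_eq with h5 | h5
  · exact h2 _ _ _ _ (hf h5)
  · have h6 := h4 h5
    show θ (f (ofLex r).1) (ofLex r).2 < θ (f (ofLex s).1) (ofLex s).2
    rw [h5]
    exact h1 _ h6

private theorem BLK_ind {L : FirstOrder.Language.{0, 0}} {U : Type} [L.Structure U] {α : Type} {n : ℕ}
    {θ : ℚ → Fin n → ℚ} (h1 : ∀ j, StrictMono (θ j))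
    (h2 : ∀ j j' i i', j < j' → θ j i < θ j' i') {C : Set U} {u : ℚ → α → U} (S T : Set ℚ)
    (hST : ∀ j ∈ T, ∀ i, θ j i ∈ S) (h : IndOn L C u S) :
    IndOn L C (fun (j : ℚ) (r : Fin n × α) => u (θ j r.1) r.2) T := by
  intro κ _ f g hf hg hfg
  have h3 := h (κ ×ₗ Fin n) _ _ (BLK_mono h1 h2 hf) (BLK_mono h1 h2 hg) (by
    intro r
    rcases hfg (ofLex r).1 with h4 | ⟨h4, h5⟩
    · left
      show θ (f (ofLex r).1) (ofLex r).2 = θ (g (ofLex r).1) (ofLex r).2
      rw [h4]
    · exact Or.inr ⟨hST _ h4 _, hST _ h5 _⟩)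
  exact tq_sub h3 (fun v : κ × (Fin n × α) => (toLex (v.1, v.2.1), v.2.2))

theorem thm_BLK (hINF : St_INF) (hUNI : St_UNI) (hOVL : St_OVL) (hBLX : St_BLX) : St_BLK := by
  classical
  intro L U _ hC α _ C u x z hCc hx hz hxz
  -- the set of parameters
  obtain ⟨D, hD⟩ : ∃ D : Set U, D = insert x (insert z C) := ⟨_, rfl⟩
  rw [← hD] at hxz
  have h1 : ¬ ∀ (n : ℕ) (f g : Fin n → ℚ), StrictMono f → StrictMono g → Tq L D (cp u f) (cp u g) :=
    fun h => hxz ((hINF L U α ℚ D u).2.1 h)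
  push Not at h1
  obtain ⟨p, f, g, hf, hg, hfg⟩ := h1
  have hfg' := hfg
  unfold Tq at hfg
  push Not at hfg
  obtain ⟨P, hP, hPf, hPg⟩ := hfg
  -- the enumeration
  let s : Finset ℚ := Finset.univ.image f ∪ Finset.univ.image g
  let n : ℕ := s.card
  let y : Fin n → ℚ := s.orderEmbOfFin rfl
  have hy : StrictMono y := (s.orderEmbOfFin rfl).strictMono
  have hyr : range y = s := Finset.range_orderEmbOfFin s rfl
  have hf1 : ∀ k, ∃ i, y i = f k := by
    intro k
    have h2 : f k ∈ range y := by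
      rw [hyr]
      exact Finset.mem_coe.2 (Finset.mem_union_left _ (Finset.mem_image_of_mem f (Finset.mem_univ k)))
    exact h2
  have hg1 : ∀ k, ∃ i, y i = g k := by
    intro k
    have h2 : g k ∈ range y := by
      rw [hyr]
      exact Finset.mem_coe.2 (Finset.mem_union_right _ (Finset.mem_image_of_mem g (Finset.mem_univ k)))
    exact h2
  choose f' hf' using hf1
  choose g' hg' using hg1
  have hf'm : StrictMono f' := fun i j hij => hy.lt_iff_lt.1 (by
    rw [hf', hf']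
    exact hf hij)
  have hg'm : StrictMono g' := fun i j hij => hy.lt_iff_lt.1 (by
    rw [hg', hg']
    exact hg hij)
  have hp : 0 < p := by
    rcases Nat.eq_zero_or_pos p with rfl | hp
    · exfalso
      apply hPg
      have e : cp u g = cp u f := by
        funext r
        exact r.1.elim0
      rw [e]
      exact hPf
    · exact hp
  have hn : 0 < n := lt_of_le_of_lt (Nat.zero_le _) (f' ⟨0, hp⟩).2
  let top : Fin n := ⟨n - 1, by omega⟩
  let bot : Fin n := ⟨0, hn⟩
  have htop : ∀ i, y i ≤ y top := fun i => hy.monotone (by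
    show (i : ℕ) ≤ n - 1
    have := i.2
    omega)
  have hbot : ∀ i, y bot ≤ y i := fun i => hy.monotone (Nat.zero_le _)
  have huni : ∀ c : ℚ, IndOn L D u (Iio c) ∨ IndOn L D u (Ioi c) := by
    intro c
    rw [hD]
    exact hUNI L U hC α (insert z C) u x (hCc.insert z) hz c
  have hR : IndOn L D u (Ioi (y top)) := by
    refine (hOVL L U α D u).2.2.1 (y top) fun c hc => ?_
    rcases huni c with h2 | h2
    · exfalso
      refine hfg' (h2 (Fin p) f g hf hg fun k => Or.inr ⟨?_, ?_⟩)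
      · rw [← hf' k]
        exact lt_of_le_of_lt (htop _) hc
      · rw [← hg' k]
        exact lt_of_le_of_lt (htop _) hc
    · exact h2
  have hL : IndOn L D u (Iio (y bot)) := by
    refine (hOVL L U α D u).2.1 (y bot) fun c hc => ?_
    rcases huni c with h2 | h2
    · exact h2
    · exfalso
      refine hfg' (h2 (Fin p) f g hf hg fun k => Or.inr ⟨?_, ?_⟩)
      · rw [← hf' k]
        exact lt_of_lt_of_le hc (hbot _)
      · rw [← hg' k]
        exact lt_of_lt_of_le hc (hbot _)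
  obtain ⟨θ, hθ0, hθ1, hθ2⟩ := hBLX n y hy
  have hall : ∀ C' : Set U, Ind L C' u → Ind L C' (fun (j : ℚ) (r : Fin n × α) => u (θ j r.1) r.2) := by
    intro C' h
    exact (hINF L U (Fin n × α) ℚ C' _).2.2.2
      (BLK_ind hθ1 hθ2 univ univ (fun _ _ _ => mem_univ _) ((hINF L U α ℚ C' u).2.2.1 h))
  have hpos : ∀ j ∈ Ioi (0 : ℚ), ∀ i, θ j i ∈ Ioi (y top) := by
    intro j hj i
    have h2 := hθ2 0 j top i hj
    rw [hθ0] at h2
    exact h2
  refine ⟨n, fun j r => u (θ j r.1) r.2, hall _ hx, hall _ hz, ?_, ?_, ?_⟩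
  · rw [← hD]
    refine BLK_ind hθ1 hθ2 (Iio (y bot)) (Iio 0) (fun j hj i => ?_) hL
    have h2 := hθ2 j 0 i bot hj
    rw [hθ0] at h2
    exact h2
  · rw [← hD]
    exact BLK_ind hθ1 hθ2 (Ioi (y top)) (Ioi 0) hpos hR
  · rw [← hD]
    intro hcon
    -- the two blocks
    have h2 := hcon (Fin 1) (fun _ => (0 : ℚ)) (fun _ => 1) (Subsingleton.strictMono _) (Subsingleton.strictMono _)
    have h3 : Tq L D (fun r : Fin n × α => u (θ 0 r.1) r.2) (fun r : Fin n × α => u (θ 1 r.1) r.2) :=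
      tq_sub h2 (fun r : Fin n × α => ((0 : Fin 1), r))
    have h4 : Dp L D (fun w : Fin n × α → U => P (fun r => w (f' r.1, r.2)) ↔ P (fun r => w (g' r.1, r.2))) :=
      dp_iff (dp_sub hP (fun r : Fin p × α => (f' r.1, r.2))) (dp_sub hP (fun r : Fin p × α => (g' r.1, r.2)))
    have h5 := tq_iff h3 h4
    have h6 : Tq L D (cp u fun k => θ 1 (f' k)) (cp u fun k => θ 1 (g' k)) :=
      hR (Fin p) _ _ (fun i j hij => hθ1 1 (hf'm hij)) (fun i j hij => hθ1 1 (hg'm hij)) fun k =>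
        Or.inr ⟨hpos 1 (mem_Ioi.2 one_pos) _, hpos 1 (mem_Ioi.2 one_pos) _⟩
    have h7 := h5.2 (tq_iff h6 hP)
    have e1 : (fun r : Fin p × α => u (θ 0 (f' r.1)) r.2) = cp u f := by
      funext r
      show u (θ 0 (f' r.1)) r.2 = u (f r.1) r.2
      rw [hθ0, hf']
    have e2 : (fun r : Fin p × α => u (θ 0 (g' r.1)) r.2) = cp u g := by
      funext r
      show u (θ 0 (g' r.1)) r.2 = u (g r.1) r.2
      rw [hθ0, hg']
    have h8 : P (fun r : Fin p × α => u (θ 0 (f' r.1)) r.2) ↔ P (fun r : Fin p × α => u (θ 0 (g' r.1)) r.2) := h7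
    rw [e1, e2] at h8
    exact hPg (h8.1 hPf)

end Pool.Agent.TPT
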