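import Pool.Agent.TPT.St

/-!
# TPT: blocks of rational numbers with a given block number zero
-/

set_option autoImplicit false
set_option linter.unusedVariables false

namespace Pool.Agent.TPT

theorem thm_BLX : St_BLX := by
  intro n x hx
  rcases Nat.eq_zero_or_pos n with rfl | hn
  · exact ⟨fun _ => x, rfl, fun _ => hx, fun _ _ i => i.elim0⟩
  let i0 : Fin n := ⟨0, hn⟩
  let i1 : Fin n := ⟨n - 1, by omega⟩
  have h0 : ∀ i, x i0 ≤ x i := fun i => hx.monotone (Fin.mk_le_of_le_val (Nat.zero_le _))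
  have h1 : ∀ i, x i ≤ x i1 := fun i => hx.monotone (by
    change i.1 ≤ n - 1
    have := i.2
    omega)
  have hc : Countable (ℚ ×ₗ Fin n) := inferInstanceAs (Countable (ℚ × Fin n))
  have n1 : Nontrivial (Set.Ioi (x i1)) := by
    refine ⟨⟨⟨x i1 + 1, by simp⟩, ⟨x i1 + 2, by simp⟩, fun h => ?_⟩⟩
    have := congrArg Subtype.val h
    simp at this
  have n2 : Nontrivial (Set.Iio (x i0)) := by
    refine ⟨⟨⟨x i0 - 1, by simp⟩, ⟨x i0 - 2, by simp⟩, fun h => ?_⟩⟩
    have := congrArg Subtype.val h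
    simp at this
  obtain ⟨φ⟩ := Order.embedding_from_countable_to_dense (ℚ ×ₗ Fin n) (Set.Ioi (x i1))
  obtain ⟨ψ⟩ := Order.embedding_from_countable_to_dense (ℚ ×ₗ Fin n) (Set.Iio (x i0))
  let θ : ℚ → Fin n → ℚ := fun j i =>
    if 0 < j then (φ (toLex (j, i)) : ℚ) else if j < 0 then (ψ (toLex (j, i)) : ℚ) else x i
  have tp : ∀ j i, 0 < j → θ j i = (φ (toLex (j, i)) : ℚ) := fun j i hj => if_pos hj
  have tn : ∀ j i, j < 0 → θ j i = (ψ (toLex (j, i)) : ℚ) := fun j i hj => by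
    change (if 0 < j then (φ (toLex (j, i)) : ℚ) else if j < 0 then (ψ (toLex (j, i)) : ℚ) else x i) = _
    rw [if_neg (not_lt.2 hj.le), if_pos hj]
  have tz : ∀ i, θ 0 i = x i := fun i => by
    change (if (0 : ℚ) < 0 then (φ (toLex (0, i)) : ℚ) else if (0 : ℚ) < 0 then (ψ (toLex (0, i)) : ℚ) else x i) = _
    rw [if_neg (lt_irrefl _), if_neg (lt_irrefl _)]
  have hφ : ∀ a b, a < b → (φ a : ℚ) < φ b := fun a b h => φ.strictMono h
  have hψ : ∀ a b, a < b → (ψ a : ℚ) < ψ b := fun a b h => ψ.strictMono h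
  have bφ : ∀ a, x i1 < (φ a : ℚ) := fun a => (φ a).2
  have bψ : ∀ a, (ψ a : ℚ) < x i0 := fun a => (ψ a).2
  refine ⟨θ, funext tz, ?_, ?_⟩
  · intro j i i' hi
    rcases lt_trichotomy j 0 with hj | rfl | hj
    · rw [tn j i hj, tn j i' hj]
      exact hψ _ _ (Prod.Lex.right _ hi)
    · rw [tz, tz]
      exact hx hi
    · rw [tp j i hj, tp j i' hj]
      exact hφ _ _ (Prod.Lex.right _ hi)
  · intro j j' i i' hj
    rcases lt_trichotomy j' 0 with hj' | rfl | hj'
    · rw [tn j i (hj.trans hj'), tn j' i' hj']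
      exact hψ _ _ (Prod.Lex.left _ _ hj)
    · rw [tn j i hj, tz]
      exact (bψ _).trans_le (h0 _)
    · rw [tp j' i' hj']
      rcases lt_trichotomy j 0 with hk | rfl | hk
      · rw [tn j i hk]
        exact (bψ _).trans ((h0 i1).trans_lt (bφ _))
      · rw [tz]
        exact (h1 i).trans_lt (bφ _)
      · rw [tp j i hk]
        exact hφ _ _ (Prod.Lex.left _ _ hj)

end Pool.Agent.TPT
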