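import Pool.Agent.TPT.St

/-!
# TPT: conjugation by automorphisms of the rational numbers
-/

set_option autoImplicit false
set_option linter.unusedVariables false

namespace Pool.Agent.TPT

open FirstOrder.Language Set
open scoped FirstOrder
open Pool.Agent.MNO
open Pool.Agent.TPY

theorem CJK_rng {U : Type} (e : ℚ → U) (K : Set ℚ) : range (fun k : K => e k) = e '' K := by
  ext x
  constructor
  · rintro ⟨k, rfl⟩
    exact ⟨k, k.2, rfl⟩
  · rintro ⟨k, hk, rfl⟩
    exact ⟨⟨k, hk⟩, rfl⟩

theorem CJK_rng' {U : Type} (e : ℚ → U) (K : Set ℚ) (σ : ℚ ≃o ℚ) :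
    range (fun k : K => e (σ k)) = e '' (σ '' K) := by
  rw [← image_comp]
  exact CJK_rng (fun k => e (σ k)) K

theorem thm_CJK (hINC : St_INC) : St_CJK := by
  intro L U _ α C e u hI σ K S
  obtain ⟨-, -, -, -, i5, i6, i7, i8⟩ := hINC L U
  have h1 : Tq L C (cp (eu e u) id) (cp (eu e u) σ) := hI ℚ id σ strictMono_id σ.strictMono
  have h2 : Tq L C (Sum.elim (cp u id) (fun k : K => e k))
      (Sum.elim (cp (fun k => u (σ k)) id) (fun k : K => e (σ k))) := by
    refine tq_congr (tq_sub h1 (Sum.elim (fun v : ℚ × α => (v.1, Sum.inr v.2))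
      (fun k : K => ((k : ℚ), Sum.inl ())))) ?_ ?_
    · funext i
      rcases i with i | i <;> rfl
    · funext i
      rcases i with i | i <;> rfl
  constructor
  · intro h
    have h3 := i7 α ℚ K C u (fun k => u (σ k)) (fun k : K => e k) (fun k : K => e (σ k)) S h2 (by
      rw [CJK_rng]
      exact h)
    rw [CJK_rng'] at h3
    exact (i5 α _ u σ S).1 h3
  · intro h
    have h3 := i8 α ℚ K C u (fun k => u (σ k)) (fun k : K => e k) (fun k : K => e (σ k)) h2 (by
      rw [CJK_rng]
      exact h)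
    rw [CJK_rng'] at h3
    exact (i6 α _ u σ).1 h3

end Pool.Agent.TPT
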