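import Pool.Agent.TPT.St

/-!
# TPT [CNV]: indiscernible on a convex set
-/

set_option autoImplicit false
set_option linter.unusedVariables false

namespace Pool.Agent.TPT

open FirstOrder.Language Set
open scoped FirstOrder
open Pool.Agent.MNO
open Pool.Agent.TPY

theorem CNV_ord {ι κ : Type} [LinearOrder ι] [LinearOrder κ] {S : Set ι} (hS : S.OrdConnected)
    (f g : κ → S) (hf : StrictMono f) (hg : StrictMono g) :
    ∃ (K : Type) (_ : LinearOrder K) (F G : K → ι) (i : κ → K) (j : {x : ι // x ∉ S} → K),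
      StrictMono F ∧ StrictMono G ∧ (∀ k, F k = G k ∨ (F k ∈ S ∧ G k ∈ S)) ∧
      (∀ k, F (i k) = f k) ∧ (∀ k, G (i k) = g k) ∧ (∀ k, F (j k) = k) ∧ ∀ k, G (j k) = k := by
  obtain ⟨F, hF⟩ : ∃ F : κ ⊕ {x : ι // x ∉ S} → ι,
    F = Sum.elim (fun k => (f k : ι)) (fun j => j.1) := ⟨_, rfl⟩
  obtain ⟨G, hG⟩ : ∃ G : κ ⊕ {x : ι // x ∉ S} → ι,
    G = Sum.elim (fun k => (g k : ι)) (fun j => j.1) := ⟨_, rfl⟩
  have hFl : ∀ k, F (Sum.inl k) = f k := fun k => by rw [hF]; rfl
  have hFr : ∀ j, F (Sum.inr j) = j.1 := fun k => by rw [hF]; rfl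
  have hGl : ∀ k, G (Sum.inl k) = g k := fun k => by rw [hG]; rfl
  have hGr : ∀ j, G (Sum.inr j) = j.1 := fun k => by rw [hG]; rfl
  have hinj : Function.Injective F := by
    rintro (a | a) (b | b) hab
    · rw [hFl, hFl] at hab
      rw [hf.injective (Subtype.ext hab)]
    · rw [hFl, hFr] at hab
      exact absurd (hab ▸ (f a).2) b.2
    · rw [hFl, hFr] at hab
      exact absurd (hab.symm ▸ (f b).2) a.2
    · rw [hFr, hFr] at hab
      rw [Subtype.ext hab]
  have hlt : ∀ (x : ι) (s t : ι), x ∉ S → s ∈ S → t ∈ S → x < s → x < t := by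
    intro x s t hx hs ht hxs
    by_contra h
    exact hx (hS.out ht hs ⟨not_lt.1 h, hxs.le⟩)
  have hgt : ∀ (x : ι) (s t : ι), x ∉ S → s ∈ S → t ∈ S → s < x → t < x := by
    intro x s t hx hs ht hxs
    by_contra h
    exact hx (hS.out hs ht ⟨hxs.le, not_lt.1 h⟩)
  have hmono : ∀ a b, F a < F b → G a < G b := by
    rintro (a | a) (b | b) hab
    · rw [hFl, hFl] at hab
      rw [hGl, hGl]
      have : a < b := hf.lt_iff_lt.1 hab
      exact hg this
    · rw [hFl, hFr] at hab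
      rw [hGl, hGr]
      exact hgt _ _ _ b.2 (f a).2 (g a).2 hab
    · rw [hFr, hFl] at hab
      rw [hGr, hGl]
      exact hlt _ _ _ a.2 (f b).2 (g b).2 hab
    · rw [hFr, hFr] at hab
      rw [hGr, hGr]
      exact hab
  refine ⟨κ ⊕ {x : ι // x ∉ S}, LinearOrder.lift' F hinj, F, G, Sum.inl, Sum.inr,
    fun a b hab => hab, fun a b hab => hmono a b hab, ?_, hFl, hGl, hFr, hGr⟩
  rintro (a | a)
  · rw [hFl, hGl]
    exact Or.inr ⟨(f a).2, (g a).2⟩
  · rw [hFr, hGr]
    exact Or.inl rfl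

/-- [CNV] indiscernible on a convex set -/
theorem thm_CNV : St_CNV := by
  classical
  intro L U _ α ι _ C I S hS
  have hD : {x | ∃ j ∉ S, ∃ a, x = I j a} =
      range (fun v : {x : ι // x ∉ S} × α => I v.1.1 v.2) := by
    ext x
    constructor
    · rintro ⟨j, hj, a, rfl⟩
      exact ⟨(⟨j, hj⟩, a), rfl⟩
    · rintro ⟨⟨j, a⟩, rfl⟩
      exact ⟨j.1, j.2, a, rfl⟩
  rw [hD]
  constructor
  · intro h κ _ f g hf hg
    rw [tq_fam]
    obtain ⟨K, instK, F, G, i, j, hFm, hGm, hFG, hFi, hGi, hFj, hGj⟩ := CNV_ord hS f g hf hg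
    have h1 := h K F G hFm hGm hFG
    have h2 := tq_sub h1 (Sum.elim (fun v : κ × α => (i v.1, v.2))
      (fun v : {x : ι // x ∉ S} × α => (j v.1, v.2)))
    refine tq_congr h2 ?_ ?_
    · funext v
      rcases v with v | v
      · change I (f v.1) v.2 = I (F (i v.1)) v.2
        rw [hFi]
      · change I v.1.1 v.2 = I (F (j v.1)) v.2
        rw [hFj]
    · funext v
      rcases v with v | v
      · change I (g v.1) v.2 = I (G (i v.1)) v.2
        rw [hGi]
      · change I v.1.1 v.2 = I (G (j v.1)) v.2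
        rw [hGj]
  · intro h κ _ f g hf hg hfg
    have hg' : ∀ k, f k ∈ S → g k ∈ S := by
      intro k hk
      rcases hfg k with h1 | h1
      · rwa [← h1]
      · exact h1.2
    have hfm : StrictMono (fun k : {k : κ // f k ∈ S} => (⟨f k.1, k.2⟩ : S)) :=
      fun a b hab => hf hab
    have hgm : StrictMono (fun k : {k : κ // f k ∈ S} => (⟨g k.1, hg' k.1 k.2⟩ : S)) :=
      fun a b hab => hg hab
    have h1 := h {k : κ // f k ∈ S} _ _ hfm hgm
    rw [tq_fam] at h1
    have h2 := tq_sub h1 (fun v : κ × α => if hv : f v.1 ∈ S then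
      Sum.inl ((⟨v.1, hv⟩ : {k : κ // f k ∈ S}), v.2)
      else Sum.inr ((⟨f v.1, hv⟩ : {x : ι // x ∉ S}), v.2))
    refine tq_congr h2 ?_ ?_
    · funext v
      by_cases hv : f v.1 ∈ S
      · simp only [hv, dif_pos, Sum.elim_inl]
        rfl
      · simp only [hv, dif_neg, not_false_eq_true, Sum.elim_inr]
        rfl
    · funext v
      by_cases hv : f v.1 ∈ S
      · simp only [hv, dif_pos, Sum.elim_inl]
        rfl
      · simp only [hv, dif_neg, not_false_eq_true, Sum.elim_inr]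
        rcases hfg v.1 with h3 | h3
        · change I (g v.1) v.2 = I (f v.1) v.2
          rw [h3]
        · exact absurd h3.1 hv

end Pool.Agent.TPT
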