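import Pool.Agent.TPT.St

/-!
# TPT: CSA, the mutually indiscernible case (helper47)
-/

set_option autoImplicit false
set_option linter.unusedVariables false

namespace Pool.Agent.TPT

open FirstOrder.Language Set
open scoped FirstOrder
open Pool.Agent.MNO
open Pool.Agent.TPY

theorem thm_CSA (hINF : St_INF) : St_CSA := by
  intro L U _ hC α _ C e u z hCc hI hP hcon
  -- the formula which sees the break
  have h0 : ¬ Ind L (insert (e 0) (insert z C)) u := (hP 0).2.2
  have h1 : ¬ ∀ (n : ℕ) (f g : Fin n → ℚ), StrictMono f → StrictMono g →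
      Tq L (insert (e 0) (insert z C)) (cp u f) (cp u g) :=
    fun h => h0 ((hINF L U α ℚ (insert (e 0) (insert z C)) u).2.1 h)
  push Not at h1
  obtain ⟨p, f, g, hf, hg, hfg⟩ := h1
  unfold Tq at hfg
  push Not at hfg
  obtain ⟨P, hPd, hPf, hPg⟩ := hfg
  have hset : ∀ x : U, insert x (insert z C) = C ∪ range (![x, z] : Fin 2 → U) := by
    intro x
    ext y
    constructor
    · rintro (rfl | rfl | h)
      · exact Or.inr ⟨0, rfl⟩
      · exact Or.inr ⟨1, rfl⟩
      · exact Or.inl h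
    · rintro (h | ⟨k, rfl⟩)
      · exact Or.inr (Or.inr h)
      · fin_cases k
        · exact Or.inl rfl
        · exact Or.inr (Or.inl rfl)
  rw [hset] at hPd
  obtain ⟨Q, hQ, hPQ⟩ := dp_fam hPd
  let Ψ : (Unit → U) → ((Fin p ⊕ Fin p) × α → U) → U → Prop := fun x y w =>
    (Q (Sum.elim (fun r : Fin p × α => y (Sum.inl r.1, r.2)) ![x (), w]) ↔
      ¬ Q (Sum.elim (fun r : Fin p × α => y (Sum.inr r.1, r.2)) ![x (), w]))
  have hΨ : Dp L C (fun v : (Unit ⊕ ((Fin p ⊕ Fin p) × α)) ⊕ Unit → U =>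
      Ψ (fun i => v (Sum.inl (Sum.inl i))) (fun i => v (Sum.inl (Sum.inr i))) (v (Sum.inr ()))) := by
    have e1 : ∀ (ι : Fin p → Fin p ⊕ Fin p), Dp L C (fun v : (Unit ⊕ ((Fin p ⊕ Fin p) × α)) ⊕ Unit → U =>
        Q (Sum.elim (fun r : Fin p × α => v (Sum.inl (Sum.inr (ι r.1, r.2))))
          ![v (Sum.inl (Sum.inl ())), v (Sum.inr ())])) := by
      intro ι
      refine dp_congr (dp_sub hQ (Sum.elim (fun r : Fin p × α => Sum.inl (Sum.inr (ι r.1, r.2)))
        ![Sum.inl (Sum.inl ()), Sum.inr ()] :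
          (Fin p × α) ⊕ Fin 2 → (Unit ⊕ ((Fin p ⊕ Fin p) × α)) ⊕ Unit)) fun v => iff_of_eq ?_
      congr 1
      funext k
      rcases k with k | k
      · rfl
      · fin_cases k <;> rfl
    exact dp_iff (e1 Sum.inl) (dp_not (e1 Sum.inr))
  -- the step
  obtain ⟨T, hT, hTf, hTg⟩ : ∃ T : ℚ, 0 < T ∧ (∀ k, 2 * |f k| < T) ∧ ∀ k, 2 * |g k| < T := by
    obtain ⟨M, hM⟩ := (finite_range fun k => 2 * |f k|).bddAbove
    obtain ⟨M', hM'⟩ := (finite_range fun k => 2 * |g k|).bddAbove
    refine ⟨max (max M M') 0 + 1, ?_, fun k => ?_, fun k => ?_⟩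
    · have := le_max_right (max M M') 0
      linarith
    · have h2 : 2 * |f k| ≤ M := hM ⟨k, rfl⟩
      have h3 := le_max_left (max M M') 0
      have h4 := le_max_left M M'
      linarith
    · have h2 : 2 * |g k| ≤ M' := hM' ⟨k, rfl⟩
      have h3 := le_max_left (max M M') 0
      have h4 := le_max_right M M'
      linarith
  let b : ℕ → (Fin p ⊕ Fin p) × α → U := fun l r => u (Sum.elim f g r.1 + l * T) r.2
  let a : ℕ → Unit → U := fun k _ => e (k * T)
  -- the rows and columns for `z`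
  have htrue : Ψ (a 0) (b 0) z := by
    have e1 : ∀ x : U, (![a 0 (), x] : Fin 2 → U) = ![e 0, x] := by
      intro x
      show (![e ((0 : ℕ) * T), x] : Fin 2 → U) = _
      rw [Nat.cast_zero, zero_mul]
    have e2 : (fun r : Fin p × α => b 0 (Sum.inl r.1, r.2)) = cp u f := by
      funext r
      show u (f r.1 + ((0 : ℕ) : ℚ) * T) r.2 = u (f r.1) r.2
      rw [Nat.cast_zero, zero_mul, add_zero]
    have e3 : (fun r : Fin p × α => b 0 (Sum.inr r.1, r.2)) = cp u g := by
      funext r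
      show u (g r.1 + ((0 : ℕ) : ℚ) * T) r.2 = u (g r.1) r.2
      rw [Nat.cast_zero, zero_mul, add_zero]
    show Q (Sum.elim (fun r : Fin p × α => b 0 (Sum.inl r.1, r.2)) ![a 0 (), z]) ↔
      ¬ Q (Sum.elim (fun r : Fin p × α => b 0 (Sum.inr r.1, r.2)) ![a 0 (), z])
    rw [e1, e2, e3]
    exact ⟨fun _ h => hPg ((hPQ _).2 h), fun _ => (hPQ _).1 hPf⟩
  have hfalse : ∀ k l : ℕ, k ≠ l → ¬ Ψ (a k) (b l) z := by
    intro k l hkl h
    obtain ⟨hL, hR, -⟩ := hP (k * T)
    have hcmp : ∀ h : Fin p → ℚ, (∀ i, 2 * |h i| < T) → k < l → ∀ i, (k : ℚ) * T < h i + l * T := by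
      intro h hh hkl i
      have h2 := hh i
      have h3 := neg_abs_le (h i)
      have h4 : (k : ℚ) + 1 ≤ l := by exact_mod_cast hkl
      have h5 : ((k : ℚ) + 1) * T ≤ l * T := mul_le_mul_of_nonneg_right h4 hT.le
      nlinarith
    have hcmp' : ∀ h : Fin p → ℚ, (∀ i, 2 * |h i| < T) → l < k → ∀ i, h i + l * T < (k : ℚ) * T := by
      intro h hh hkl i
      have h2 := hh i
      have h3 := le_abs_self (h i)
      have h4 : (l : ℚ) + 1 ≤ k := by exact_mod_cast hkl
      have h5 : ((l : ℚ) + 1) * T ≤ k * T := mul_le_mul_of_nonneg_right h4 hT.le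
      nlinarith
    have hf' : StrictMono fun i => f i + l * T := fun i j hij => by
      have := hf hij
      show f i + l * T < f j + l * T
      linarith
    have hg' : StrictMono fun i => g i + l * T := fun i j hij => by
      have := hg hij
      show g i + l * T < g j + l * T
      linarith
    have h2 : Tq L (insert (e (k * T)) (insert z C)) (cp u fun i => f i + l * T) (cp u fun i => g i + l * T) := by
      rcases lt_or_gt_of_ne hkl with h3 | h3
      · exact hR _ _ _ hf' hg' fun i => Or.inr ⟨hcmp f hTf h3 i, hcmp g hTg h3 i⟩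
      · exact hL _ _ _ hf' hg' fun i => Or.inr ⟨hcmp' f hTf h3 i, hcmp' g hTg h3 i⟩
    rw [hset] at h2
    have h3 := (tq_fam.1 h2)
    have h4 := tq_iff h3 hQ
    have h5 : Q (Sum.elim (fun r : Fin p × α => b l (Sum.inl r.1, r.2)) ![a k (), z]) ↔
      Q (Sum.elim (fun r : Fin p × α => b l (Sum.inr r.1, r.2)) ![a k (), z]) := h4
    have h6 : Q (Sum.elim (fun r : Fin p × α => b l (Sum.inl r.1, r.2)) ![a k (), z]) ↔
      ¬ Q (Sum.elim (fun r : Fin p × α => b l (Sum.inr r.1, r.2)) ![a k (), z]) := h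
    tauto
  -- the codes
  have hmono : ∀ c : ℚ, StrictMono fun q : ℚ => q + c := fun c i j hij => by
    show i + c < j + c
    linarith
  have hcode : ∀ i j : ℕ, ∃ c : U, ∀ k l : ℕ, Ψ (a k) (b l) z ↔ Ψ (a (i + k)) (b (j + l)) c := by
    intro i j
    have h2 : Tq L C (cp (eu e u) id) (cp (eu e u) fun q => q + i * T) :=
      tq_mono (subset_insert z C) (hI ℚ id _ strictMono_id (hmono _))
    have h3 : Tq L C (Sum.elim e (cp u id)) (Sum.elim (fun q => e (q + i * T)) (cp u fun q => q + i * T)) := by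
      refine tq_congr (tq_sub h2 (Sum.elim (fun q => (q, Sum.inl ())) (fun r => (r.1, Sum.inr r.2)) :
        ℚ ⊕ (ℚ × α) → ℚ × (Unit ⊕ α))) ?_ ?_ <;>
      · funext k
        rcases k with k | k <;> rfl
    have h4 : Tq L (C ∪ range e) (cp u fun q => q + i * T) (cp u fun q => q + j * T) :=
      hcon ℚ _ _ (hmono _) (hmono _)
    have h5 : Tq L C (Sum.elim (fun q => e (q + i * T)) (cp u fun q => q + i * T))
        (Sum.elim (fun q => e (q + i * T)) (cp u fun q => q + j * T)) := by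
      have h6 := tq_mono (subset_union_left (s := C) (t := range e))
        (tq_add h4 (fun q => e (q + i * T)) (fun q => Or.inr ⟨_, rfl⟩))
      refine tq_congr (tq_sub h6 (Sum.swap : ℚ ⊕ (ℚ × α) → (ℚ × α) ⊕ ℚ)) ?_ ?_ <;>
      · funext k
        rcases k with k | k <;> rfl
    obtain ⟨c, hc⟩ := tq_ext' hC hCc (tq_trans h3 h5) (fun _ : Unit => z)
    refine ⟨c (), fun k l => ?_⟩
    have hD : Dp L C (fun v : (ℚ ⊕ (ℚ × α)) ⊕ Unit → U =>
        Ψ (fun _ => v (Sum.inl (Sum.inl (k * T))))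
          (fun r => v (Sum.inl (Sum.inr (Sum.elim f g r.1 + l * T, r.2)))) (v (Sum.inr ()))) :=
      dp_sub hΨ (Sum.elim (Sum.elim (fun _ => Sum.inl (Sum.inl (k * T)))
        (fun r => Sum.inl (Sum.inr (Sum.elim f g r.1 + l * T, r.2)))) (fun _ => Sum.inr ()) :
          (Unit ⊕ ((Fin p ⊕ Fin p) × α)) ⊕ Unit → (ℚ ⊕ (ℚ × α)) ⊕ Unit)
    have h6 := tq_iff hc hD
    have e1 : a (i + k) = fun _ => e (k * T + i * T) := by
      funext _
      show e (((i + k : ℕ) : ℚ) * T) = _
      congr 1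
      push_cast
      ring
    have e2 : b (j + l) = fun r => u (Sum.elim f g r.1 + l * T + j * T) r.2 := by
      funext r
      show u (Sum.elim f g r.1 + ((j + l : ℕ) : ℚ) * T) r.2 = _
      congr 1
      push_cast
      ring
    rw [e1, e2]
    exact h6
  choose c hc using hcode
  refine arr hC hΨ fun N => ⟨true, true, a, b, c, fun i _ j _ => ⟨?_, fun k _ hik => ?_, fun l _ hjl => ?_⟩⟩
  · exact (hc i j 0 0).1 htrue
  · have hik' : i < k := hik
    obtain ⟨d, rfl⟩ := Nat.exists_eq_add_of_lt hik'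
    intro h
    exact hfalse (d + 1) 0 (by omega) ((hc i j (d + 1) 0).2 h)
  · have hjl' : j < l := hjl
    obtain ⟨d, rfl⟩ := Nat.exists_eq_add_of_lt hjl'
    intro h
    exact hfalse 0 (d + 1) (by omega) ((hc i j 0 (d + 1)).2 h)

end Pool.Agent.TPT
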