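import Pool.Agent.TPT.St
import Mathlib.Order.CountableDenseLinearOrder

/-!
# TPT [CSB]: the case where the sequence of the `e k` breaks `u`
-/

set_option autoImplicit false
set_option linter.unusedVariables false

namespace Pool.Agent.TPT

open FirstOrder.Language Set
open scoped FirstOrder
open Pool.Agent.MNO
open Pool.Agent.TPY

theorem CSB_eps : ∃ ε : ℚ → ℚ, StrictMono ε ∧ ∀ q, 0 < ε q ∧ ε q < 1 := by
  have : Nonempty (Ioo (0 : ℚ) 1) := ⟨⟨1 / 2, by norm_num, by norm_num⟩⟩
  obtain ⟨ψ⟩ := Order.iso_of_countable_dense ℚ (Ioo (0 : ℚ) 1)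
  exact ⟨fun q => (ψ q : ℚ), fun a b h => ψ.strictMono h, fun q => (ψ q).2⟩

theorem CSB_move {L : FirstOrder.Language.{0, 0}} {U : Type} [L.Structure U] {α : Type} {D : Set U}
    {u : ℚ → α → U} {c : ℚ} (h1 : IndOn L D u (Iio c)) (h2 : IndOn L D u (Ioi c)) {h : ℚ → ℚ}
    (hh : StrictMono h) (hc : h c = c) {κ : Type} [LinearOrder κ] (f : κ → ℚ) (hf : StrictMono f) :
    Tq L D (cp u f) (cp u (fun k => h (f k))) := by
  have hlt : ∀ q, q < c → h q < c := fun q hq => by
    have := hh hq
    rwa [hc] at this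
  have hgt : ∀ q, c < q → c < h q := fun q hq => by
    have := hh hq
    rwa [hc] at this
  obtain ⟨f1, hf1⟩ : ∃ f1 : κ → ℚ, f1 = fun k => if f k < c then h (f k) else f k := ⟨_, rfl⟩
  have hf1m : StrictMono f1 := by
    intro a b hab
    have h3 := hf hab
    rw [hf1]
    dsimp only
    split_ifs with ha hb hb
    · exact hh h3
    · exact lt_of_lt_of_le (hlt _ ha) (not_lt.1 hb)
    · exact absurd (lt_trans h3 hb) ha
    · exact h3
  refine tq_trans (h1 κ f f1 hf hf1m ?_) (h2 κ f1 _ hf1m (fun a b hab => hh (hf hab)) ?_)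
  · intro k
    rw [hf1]
    dsimp only
    split_ifs with hk
    · exact Or.inr ⟨hk, hlt _ hk⟩
    · exact Or.inl rfl
  · intro k
    rw [hf1]
    dsimp only
    split_ifs with hk
    · exact Or.inl rfl
    · rcases (not_lt.1 hk).lt_or_eq with h3 | h3
      · exact Or.inr ⟨h3, hgt _ h3⟩
      · left
        rw [← h3, hc]

/-- the finite sets with two given elements in neighbouring positions -/
theorem CSB_pos (m a : ℕ) (ha : a + 1 < m) : ∃ K0 : Set ℚ, K0.Finite ∧ (∀ q ∈ K0, ¬ (0 < q ∧ q < 1)) ∧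
    ∀ p q : ℚ, 0 < p → p < q → q < 1 → ∃ y : Fin m → ℚ, StrictMono y ∧
      range y = insert p (insert q K0) ∧ y ⟨a, by omega⟩ = p ∧ y ⟨a + 1, ha⟩ = q := by
  refine ⟨(fun t : ℕ => if t < a then (t : ℚ) - a - 1 else (t : ℚ) + 1) ''
    {t : ℕ | t < m ∧ (t < a ∨ a + 1 < t)}, ?_, ?_, ?_⟩
  · refine Set.Finite.image _ ((Set.finite_lt_nat m).subset ?_)
    rintro t ⟨ht, -⟩
    exact ht
  · rintro _ ⟨t, ⟨ht, ht'⟩, rfl⟩ ⟨h1, h2⟩
    dsimp only at h1 h2
    by_cases h3 : t < a
    · rw [if_pos h3] at h1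
      have h4 : (t : ℚ) < a := by exact_mod_cast h3
      linarith
    · rw [if_neg h3] at h2
      have h4 : (0 : ℚ) ≤ t := Nat.cast_nonneg t
      linarith
  · intro p q hp hpq hq
    obtain ⟨Y, hY⟩ : ∃ Y : ℕ → ℚ, Y = fun t => if t < a then (t : ℚ) - a - 1 else if t = a then p
      else if t = a + 1 then q else (t : ℚ) + 1 := ⟨_, rfl⟩
    have hYm : StrictMono Y := by
      apply strictMono_nat_of_lt_succ
      intro t
      rw [hY]
      dsimp only
      rcases lt_trichotomy t a with h1 | h1 | h1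
      · rw [if_pos h1]
        have h4 : (t : ℚ) < a := by exact_mod_cast h1
        rcases Nat.lt_or_ge (t + 1) a with h2 | h2
        · rw [if_pos h2]
          push_cast
          linarith
        · rw [if_neg (by omega), if_pos (by omega)]
          linarith
      · rw [if_neg (by omega), if_pos h1, if_neg (by omega), if_neg (by omega), if_pos (by omega)]
        exact hpq
      · rw [if_neg (by omega), if_neg (by omega), if_neg (by omega : ¬ t + 1 < a),
          if_neg (by omega : ¬ t + 1 = a), if_neg (by omega : ¬ t + 1 = a + 1)]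
        push_cast
        have h4 : (0 : ℚ) ≤ t := Nat.cast_nonneg t
        split_ifs with h5
        · linarith
        · linarith
    refine ⟨fun t => Y t, fun s t hst => hYm hst, ?_, ?_, ?_⟩
    · ext z
      constructor
      · rintro ⟨t, rfl⟩
        dsimp only
        rcases lt_trichotomy (t : ℕ) a with h1 | h1 | h1
        · right; right
          refine ⟨t, ⟨t.2, Or.inl h1⟩, ?_⟩
          rw [hY]
          dsimp only
          rw [if_pos h1, if_pos h1]
        · left
          rw [hY]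
          dsimp only
          rw [if_neg (by omega), if_pos h1]
        · rcases eq_or_ne (t : ℕ) (a + 1) with h2 | h2
          · right; left
            rw [hY]
            dsimp only
            rw [if_neg (by omega), if_neg (by omega), if_pos h2]
          · right; right
            refine ⟨t, ⟨t.2, Or.inr (by omega)⟩, ?_⟩
            rw [hY]
            dsimp only
            rw [if_neg (by omega), if_neg (by omega), if_neg (by omega), if_neg (by omega)]
      · rintro (rfl | rfl | ⟨t, ⟨ht, ht'⟩, rfl⟩)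
        · refine ⟨⟨a, by omega⟩, ?_⟩
          rw [hY]
          simp
        · refine ⟨⟨a + 1, ha⟩, ?_⟩
          rw [hY]
          simp
        · refine ⟨⟨t, ht⟩, ?_⟩
          rw [hY]
          dsimp only
          rcases ht' with h1 | h1
          · rw [if_pos h1, if_pos h1]
          · rw [if_neg (by omega), if_neg (by omega), if_neg (by omega), if_neg (by omega)]
    · rw [hY]
      simp
    · rw [hY]
      simp

/-- [CSB] -/
theorem thm_CSB (hPLK : St_PLK) (hCJK : St_CJK) (hDIS : St_DIS) (hHOM : St_HOM) (hINC : St_INC)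
    (hINF : St_INF) : St_CSB := by
  classical
  intro L U _ hC α _ C e u hCc heu hone hnot
  have inc2 := (hINC L U).2.1
  have inc3 := (hINC L U).2.2.1
  have inc4 := (hINC L U).2.2.2.1
  -- a finite set
  have hfin : ∃ K : Set ℚ, K.Finite ∧ ¬ Ind L (C ∪ e '' K) u := by
    by_contra hcon
    push Not at hcon
    apply hnot
    refine (hINF L U α ℚ (C ∪ range e) u).2.1 ?_
    intro n f g hf hg P hP hPf
    obtain ⟨B, hB, hBs, hPB⟩ := dp_fin hP
    have h1 : ∀ b : U, ∃ k : ℚ, b ∈ B → b ∈ C ∨ e k = b := by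
      intro b
      by_cases hb : b ∈ B
      · rcases hBs hb with h | ⟨k, hk⟩
        · exact ⟨0, fun _ => Or.inl h⟩
        · exact ⟨k, fun _ => Or.inr hk⟩
      · exact ⟨0, fun h => absurd h hb⟩
    choose k hk using h1
    refine hcon (k '' B) (hB.image k) (Fin n) f g hf hg P (dp_mono ?_ hPB) hPf
    intro b hb
    rcases hk b hb with h | h
    · exact Or.inl h
    · exact Or.inr ⟨k b, ⟨b, hb, rfl⟩, h⟩
  have hm : ∃ m : ℕ, ∃ x : Fin m → ℚ, StrictMono x ∧ ¬ Ind L (C ∪ e '' range x) u := by
    obtain ⟨K, hK, hK'⟩ := hfin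
    refine ⟨hK.toFinset.card, hK.toFinset.orderEmbOfFin rfl, OrderEmbedding.strictMono _, ?_⟩
    rw [Finset.range_orderEmbOfFin, hK.coe_toFinset]
    exact hK'
  obtain ⟨m, ⟨x, hx, hxn⟩, hmin⟩ : ∃ m : ℕ,
      (∃ x : Fin m → ℚ, StrictMono x ∧ ¬ Ind L (C ∪ e '' range x) u) ∧
      ∀ m' < m, ∀ x : Fin m' → ℚ, StrictMono x → Ind L (C ∪ e '' range x) u :=
    ⟨Nat.find hm, Nat.find_spec hm, fun m' hm' x hx => by
      by_contra h
      exact Nat.find_min hm hm' ⟨x, hx, h⟩⟩
  have hminS : ∀ K : Set ℚ, K.Finite → K.ncard < m → Ind L (C ∪ e '' K) u := by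
    intro K hK hc
    have h1 := hmin hK.toFinset.card (by rwa [← Set.ncard_eq_toFinset_card K hK])
      (hK.toFinset.orderEmbOfFin rfl) (OrderEmbedding.strictMono _)
    rwa [Finset.range_orderEmbOfFin, hK.coe_toFinset] at h1
  have hcard : ∀ y : Fin m → ℚ, StrictMono y → (range y).ncard = m := by
    intro y hy
    rw [← image_univ, ncard_image_of_injective _ hy.injective, ncard_univ,
      Nat.card_eq_fintype_card, Fintype.card_fin]
  have himg : ∀ (y z : Fin m → ℚ) (σ : ℚ ≃o ℚ), (∀ i, σ (y i) = z i) → σ '' range y = range z := by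
    intro y z σ hσ
    rw [← range_comp]
    congr 1
    funext i
    exact hσ i
  have hall : ∀ y : Fin m → ℚ, StrictMono y → ¬ Ind L (C ∪ e '' range y) u := by
    intro y hy h1
    obtain ⟨σ, hσ⟩ := hHOM m y x hy hx
    have h2 := (hCJK L U α C e u heu σ (range y) univ).2 h1
    rw [himg y x σ hσ] at h2
    exact hxn h2
  obtain ⟨k, ⟨r, rfl⟩, hp1, hp2⟩ := hPLK L U hC α C e u (range x) hCc (finite_range x) heu hxn
    (fun k hk => hminS _ (finite_range x).sdiff (by
      have h1 := Set.ncard_sdiff_singleton_lt_of_mem hk (finite_range x)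
      rwa [hcard x hx] at h1))
  have hplace : ∀ y : Fin m → ℚ, StrictMono y → IndOn L (C ∪ e '' range y) u (Iio (y r)) ∧
      IndOn L (C ∪ e '' range y) u (Ioi (y r)) := by
    intro y hy
    obtain ⟨σ, hσ⟩ := hHOM m x y hx hy
    have h1 := (hCJK L U α C e u heu σ (range x) (Iio (x r))).1 hp1
    have h2 := (hCJK L U α C e u heu σ (range x) (Ioi (x r))).1 hp2
    rw [himg x y σ hσ, OrderIso.image_Iio, hσ] at h1
    rw [himg x y σ hσ, OrderIso.image_Ioi, hσ] at h2
    exact ⟨h1, h2⟩
  have hm2 : 2 ≤ m := by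
    by_contra hlt
    have h1 : ∃ k0, ∀ i, x i = k0 := by
      by_cases hne : Nonempty (Fin m)
      · obtain ⟨i0⟩ := hne
        refine ⟨x i0, fun i => ?_⟩
        have h2 : i = i0 := by
          apply Fin.ext
          have := i.2
          have := i0.2
          omega
        rw [h2]
      · exact ⟨0, fun i => absurd ⟨i⟩ hne⟩
    obtain ⟨k0, hk0⟩ := h1
    apply hxn
    refine inc3 α ℚ (insert (e k0) C) (C ∪ e '' range x) u ?_ (hone k0)
    rintro v (hv | ⟨_, ⟨i, rfl⟩, rfl⟩)
    · exact Or.inr hv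
    · left
      rw [hk0]
  obtain ⟨ε, hε, hε01⟩ := CSB_eps
  -- the main step
  have core : ∀ (K0 : Set ℚ), K0.Finite → (∀ q ∈ K0, ¬ (0 < q ∧ q < 1)) → ∀ l : ℚ → ℚ → ℚ,
      (∀ i j, i < j → ∃ y : Fin m → ℚ, StrictMono y ∧
        range y = insert (ε i) (insert (ε j) K0) ∧ y r = ε (l i j)) →
      (C ∪ e '' K0).Countable ∧
      Ind L (C ∪ e '' K0) (eu (fun q => e (ε q)) (fun q => u (ε q))) ∧
      (∀ k, Ind L (insert (e (ε k)) (C ∪ e '' K0)) (fun q => u (ε q))) ∧
      ∀ i j, i < j → Pl L (C ∪ e '' K0) (fun q => u (ε q)) (l i j) (e (ε i)) (e (ε j)) := by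
    intro K0 hK0 hdis l hy
    have hdj : Disjoint (Ioo (0 : ℚ) 1) K0 := by
      rw [Set.disjoint_left]
      intro q hq hq'
      exact hdis q hq' hq
    refine ⟨hCc.union (hK0.image e).countable, ?_, ?_, ?_⟩
    · exact (hDIS L U α C e u (Ioo 0 1) K0 heu ordConnected_Ioo hdj).2 ε hε (fun q => hε01 q)
    · intro k
      obtain ⟨y, hym, hyr, -⟩ := hy k (k + 1) (lt_add_one k)
      have h1 : ε (k + 1) ∈ range y := by
        rw [hyr]
        exact Or.inr (Or.inl rfl)
      have h2 := hminS (range y \ {ε (k + 1)}) (finite_range y).sdiff (by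
        have h1 := Set.ncard_sdiff_singleton_lt_of_mem h1 (finite_range y)
        rwa [hcard y hym] at h1)
      have h3 := inc4 α ℚ ℚ _ u ε hε h2
      refine inc3 α ℚ _ _ _ ?_ h3
      have hne : ε k ≠ ε (k + 1) := (hε (lt_add_one k)).ne
      rintro v (rfl | hv | ⟨q, hq, rfl⟩)
      · refine Or.inr ⟨ε k, ⟨?_, hne⟩, rfl⟩
        rw [hyr]
        exact Or.inl rfl
      · exact Or.inl hv
      · refine Or.inr ⟨q, ⟨?_, ?_⟩, rfl⟩
        · rw [hyr]
          exact Or.inr (Or.inr hq)
        · intro h4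
          rw [mem_singleton_iff] at h4
          rw [h4] at hq
          exact hdis _ hq (hε01 _)
    · intro i j hij
      obtain ⟨y, hym, hyr, hyk⟩ := hy i j hij
      have hset : insert (e (ε i)) (insert (e (ε j)) (C ∪ e '' K0)) = C ∪ e '' range y := by
        rw [hyr, image_insert_eq, image_insert_eq, union_insert, union_insert]
      obtain ⟨g1, g2⟩ := hplace y hym
      rw [hyk] at g1 g2
      unfold Pl
      rw [hset]
      refine ⟨?_, ?_, ?_⟩
      · exact inc2 α ℚ ℚ _ u _ (Iio (l i j)) ε hε (fun k hk => hε hk) g1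
      · exact inc2 α ℚ ℚ _ u _ (Ioi (l i j)) ε hε (fun k hk => hε hk) g2
      · intro hI
        apply hall y hym
        refine (hINF L U α ℚ _ u).2.1 ?_
        intro n f g hf hg
        have hh : StrictMono (fun q => ε (q - ε (l i j) + l i j)) := by
          intro a b hab
          apply hε
          linarith
        have hhc : (fun q => ε (q - ε (l i j) + l i j)) (ε (l i j)) = ε (l i j) := by
          dsimp only
          rw [sub_self, zero_add]
        have t1 := CSB_move g1 g2 hh hhc f hf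
        have t2 := CSB_move g1 g2 hh hhc g hg
        have t3 := hI (Fin n) (fun k => f k - ε (l i j) + l i j) (fun k => g k - ε (l i j) + l i j)
          (fun a b hab => by
            have := hf hab
            dsimp only
            linarith) (fun a b hab => by
            have := hg hab
            dsimp only
            linarith)
        exact tq_trans t1 (tq_trans t3 (tq_symm t2))
  obtain ⟨K0, hK0, hdis, hpos⟩ := CSB_pos m ((r : ℕ) - 1) (by have := r.2; omega)
  by_cases hr : (r : ℕ) = 0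
  · obtain ⟨c1, c2, c3, c4⟩ := core K0 hK0 hdis (fun i j => i) (by
      intro i j hij
      obtain ⟨y, h1, h2, h3, h4⟩ := hpos (ε i) (ε j) (hε01 i).1 (hε hij) (hε01 j).2
      refine ⟨y, h1, h2, ?_⟩
      rw [← h3]
      congr 1
      apply Fin.ext
      dsimp only
      omega)
    exact ⟨_, _, _, c1, c2, c3, Or.inr c4⟩
  · obtain ⟨c1, c2, c3, c4⟩ := core K0 hK0 hdis (fun i j => j) (by
      intro i j hij
      obtain ⟨y, h1, h2, h3, h4⟩ := hpos (ε i) (ε j) (hε01 i).1 (hε hij) (hε01 j).2
      refine ⟨y, h1, h2, ?_⟩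
      rw [← h4]
      congr 1
      apply Fin.ext
      dsimp only
      omega)
    exact ⟨_, _, _, c1, c2, c3, Or.inl c4⟩

end Pool.Agent.TPT
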