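import Pool.Agent.TPT.St

/-!
# TPT: parts of the sequence without indices in `K` (`DIS`)
-/

set_option autoImplicit false
set_option linter.unusedVariables false

namespace Pool.Agent.TPT

open FirstOrder.Language Set
open scoped FirstOrder
open Pool.Agent.MNO
open Pool.Agent.TPY

theorem thm_DIS (hINC : St_INC) (hINF : St_INF) (hCNV : St_CNV) : St_DIS := by
  intro L U _ α C e u S K hind hS hdisj
  have h1 : IndOn L C (eu e u) univ := (hINF L U _ ℚ C (eu e u)).2.2.1 hind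
  have h2 : IndOn L C (eu e u) S :=
    (hINC L U).1 _ _ C C (eu e u) univ S subset_rfl (subset_univ _) h1
  have h3 : Ind L (C ∪ {x | ∃ j ∉ S, ∃ a, x = eu e u j a}) (fun k : S => eu e u k) :=
    (hCNV L U _ ℚ C (eu e u) S hS).1 h2
  have hsub : C ∪ e '' K ⊆ C ∪ {x | ∃ j ∉ S, ∃ a, x = eu e u j a} := by
    rintro x (hx | ⟨j, hj, rfl⟩)
    · exact Or.inl hx
    · exact Or.inr ⟨j, fun hjS => Set.disjoint_left.1 hdisj hjS hj, Sum.inl (), rfl⟩
  constructor
  · apply (hCNV L U α ℚ _ u S hS).2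
    have hsub' : (C ∪ e '' K) ∪ {x | ∃ j ∉ S, ∃ a, x = u j a} ⊆
        C ∪ {x | ∃ j ∉ S, ∃ a, x = eu e u j a} := by
      apply Set.union_subset hsub
      rintro x ⟨j, hj, a, rfl⟩
      exact Or.inr ⟨j, hj, Sum.inr a, rfl⟩
    have h4 := (hINC L U).2.2.1 _ _ _ _ _ hsub' h3
    intro κ _ f g hf hg
    exact tq_sub (h4 κ f g hf hg) (fun v : κ × α => (v.1, Sum.inr v.2))
  · intro ε hε hεS
    have h5 := (hINC L U).2.2.1 _ _ _ _ _ hsub h3
    have hmono : StrictMono (fun q => (⟨ε q, hεS q⟩ : S)) := fun a b hab => hε hab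
    exact (hINC L U).2.2.2.1 _ _ _ _ _ (fun q => (⟨ε q, hεS q⟩ : S)) hmono h5

end Pool.Agent.TPT
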