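import Pool.Agent.TPT.St

/-!
# TPT, module DPI: dp-minimality for two disjoint parts of one sequence
-/

set_option autoImplicit false
set_option linter.unusedVariables false

namespace Pool.Agent.TPT

open FirstOrder.Language Set
open scoped FirstOrder
open Pool.Agent.MNO
open Pool.Agent.TPY

section

variable {L : FirstOrder.Language.{0, 0}} {U : Type} [L.Structure U]

private theorem DPI_empty {α ι : Type} [LinearOrder ι] (C : Set U) (u : ι → α → U) (S : Set ι)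
    (hS : ∀ x, x ∉ S) : IndOn L C u S := by
  intro κ _ f g hf hg h
  have e : f = g := by
    funext k
    rcases h k with h1 | h1
    · exact h1
    · exact absurd h1.1 (hS _)
  rw [e]
  exact tq_refl _

private theorem DPI_set {α : Type} (C : Set U) (u : ℚ → α → U) (S T : Set ℚ) (hST : Disjoint S T) :
    (C ∪ {x | ∃ j, j ∉ S ∪ T ∧ ∃ a, x = u j a}) ∪ ran (fun k : T => u k) =
      C ∪ {x | ∃ j ∉ S, ∃ a, x = u j a} := by
  ext x
  constructor
  · rintro ((hx | ⟨j, hj, a, rfl⟩) | ⟨j, a, rfl⟩)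
    · exact Or.inl hx
    · exact Or.inr ⟨j, fun h => hj (Or.inl h), a, rfl⟩
    · exact Or.inr ⟨j, fun h => disjoint_left.1 hST h j.2, a, rfl⟩
  · rintro (hx | ⟨j, hj, a, rfl⟩)
    · exact Or.inl (Or.inl hx)
    · by_cases hjT : j ∈ T
      · exact Or.inr ⟨⟨j, hjT⟩, a, rfl⟩
      · exact Or.inl (Or.inr ⟨j, fun h => h.elim hj hjT, a, rfl⟩)

end

theorem thm_DPI (hDPS : St_DPS) (hCNV : St_CNV) (hINC : St_INC) (hINF : St_INF) : St_DPI := by
  intro L U _ hC α _ C u S T z hCc hS hT hST hSm hTm hSi hTi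
  by_cases hSn : S.Nonempty
  swap
  · left
    exact DPI_empty _ _ _ fun x hx => hSn ⟨x, hx⟩
  by_cases hTn : T.Nonempty
  swap
  · right
    exact DPI_empty _ _ _ fun x hx => hTn ⟨x, hx⟩
  have i1 : Nonempty S := hSn.to_subtype
  have i2 : Nonempty T := hTn.to_subtype
  have i3 : NoMaxOrder S := ⟨fun x => by
    obtain ⟨y, hy, hxy⟩ := hSm x x.2
    exact ⟨⟨y, hy⟩, hxy⟩⟩
  have i4 : NoMaxOrder T := ⟨fun x => by
    obtain ⟨y, hy, hxy⟩ := hTm x x.2
    exact ⟨⟨y, hy⟩, hxy⟩⟩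
  have hCc' : ∀ D : Set U, D.Countable → (D ∪ {x | ∃ j, j ∉ S ∪ T ∧ ∃ a, x = u j a}).Countable := by
    intro D hD
    refine hD.union ?_
    have h1 : (range (fun p : ℚ × α => u p.1 p.2)).Countable := countable_range _
    refine h1.mono ?_
    rintro x ⟨j, -, a, rfl⟩
    exact ⟨(j, a), rfl⟩
  have e1 : ∀ D : Set U, (D ∪ {x | ∃ j, j ∉ S ∪ T ∧ ∃ a, x = u j a}) ∪ ran (fun k : T => u k) =
      D ∪ {x | ∃ j ∉ S, ∃ a, x = u j a} := fun D => DPI_set D u S T hST
  have e2 : ∀ D : Set U, (D ∪ {x | ∃ j, j ∉ S ∪ T ∧ ∃ a, x = u j a}) ∪ ran (fun k : S => u k) =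
      D ∪ {x | ∃ j ∉ T, ∃ a, x = u j a} := by
    intro D
    have h1 := DPI_set D u T S hST.symm
    rw [union_comm T S] at h1
    exact h1
  have hSi' := (hCNV L U α ℚ C u S hS).1 hSi
  have hTi' := (hCNV L U α ℚ C u T hT).1 hTi
  have hM : Mut L (C ∪ {x | ∃ j, j ∉ S ∪ T ∧ ∃ a, x = u j a}) (fun k : S => u k)
      (fun k : T => u k) := by
    constructor
    · rw [e1]
      exact hSi'
    · rw [e2]
      exact hTi'
  have e3 : insert z (C ∪ {x | ∃ j, j ∉ S ∪ T ∧ ∃ a, x = u j a}) =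
      (insert z C) ∪ {x | ∃ j, j ∉ S ∪ T ∧ ∃ a, x = u j a} := by
    rw [insert_union]
  rcases hDPS L U hC α α S T (C ∪ {x | ∃ j, j ∉ S ∪ T ∧ ∃ a, x = u j a}) (fun k : S => u k)
      (fun k : T => u k) z (hCc' C hCc) hM with h | h
  · left
    rw [e3, e1] at h
    exact (hCNV L U α ℚ (insert z C) u S hS).2 h
  · right
    rw [e3, e2] at h
    exact (hCNV L U α ℚ (insert z C) u T hT).2 h

end Pool.Agent.TPT
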