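import Pool.Agent.TPT.St

/-!
# TPT, module DSQ: a sequence of elements which break the sequence of tuples at their places
-/

set_option autoImplicit false
set_option linter.unusedVariables false

namespace Pool.Agent.TPT

open FirstOrder.Language Set
open scoped FirstOrder
open Pool.Agent.MNO
open Pool.Agent.TPY

/-- enumeration of a point and two finite tuples -/
theorem DSQ_enum {n : ℕ} (f g : Fin n → ℚ) (k : ℚ) :
    ∃ (N : ℕ) (d : Fin N → ℚ) (a : Fin N) (f' g' : Fin n → Fin N), StrictMono d ∧ d a = k ∧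
      (∀ i, d (f' i) = f i) ∧ (∀ i, d (g' i) = g i) := by
  classical
  let S : Finset ℚ := insert k (Finset.univ.image f ∪ Finset.univ.image g)
  have hr : ∀ q ∈ S, ∃ i, S.orderEmbOfFin rfl i = q := by
    intro q hq
    have h1 := Finset.range_orderEmbOfFin S rfl
    have h2 : q ∈ Set.range (S.orderEmbOfFin rfl) := by
      rw [h1]
      exact hq
    exact h2
  obtain ⟨a, ha⟩ := hr k (Finset.mem_insert_self _ _)
  have hf : ∀ i, ∃ j, S.orderEmbOfFin rfl j = f i := fun i => hr (f i)
    (Finset.mem_insert_of_mem (Finset.mem_union_left _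
      (Finset.mem_image_of_mem f (Finset.mem_univ i))))
  have hg : ∀ i, ∃ j, S.orderEmbOfFin rfl j = g i := fun i => hr (g i)
    (Finset.mem_insert_of_mem (Finset.mem_union_right _
      (Finset.mem_image_of_mem g (Finset.mem_univ i))))
  choose f' hf' using hf
  choose g' hg' using hg
  exact ⟨S.card, S.orderEmbOfFin rfl, a, f', g', (S.orderEmbOfFin rfl).strictMono, ha, hf', hg'⟩

/-- strictly monotone lifts -/
theorem DSQ_lift {n N : ℕ} {f : Fin n → ℚ} {d : Fin N → ℚ} {f' : Fin n → Fin N}
    (hf : StrictMono f) (hd : StrictMono d) (h : ∀ i, d (f' i) = f i) : StrictMono f' := by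
  intro i j hij
  rw [← hd.lt_iff_lt, h, h]
  exact hf hij

section

variable {L : FirstOrder.Language.{0, 0}} {U : Type} [L.Structure U]

/-- the substitution used for the transfer: the tuples `u (f' i)` and the element `e a` -/
theorem DSQ_dp {α : Type} {n N : ℕ} {D : Set U} {Q : ((Fin n × α) ⊕ Unit → U) → Prop}
    (hQ : Dp L D Q) (a : Fin N) (f' : Fin n → Fin N) :
    Dp L D (fun w : Fin N × (Unit ⊕ α) → U =>
      Q (Sum.elim (fun p : Fin n × α => w (f' p.1, Sum.inr p.2)) (fun _ => w (a, Sum.inl ())))) := by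
  refine dp_congr (dp_sub hQ (Sum.elim (fun p : Fin n × α => ((f' p.1, Sum.inr p.2) :
    Fin N × (Unit ⊕ α))) (fun _ => (a, Sum.inl ())))) (fun w => iff_of_eq ?_)
  congr 1
  funext i
  rcases i with i | i <;> rfl

/-- transfer of indiscernibility -/
theorem DSQ_tr (hINF : St_INF) {α : Type} {D D' : Set U} (hDD : D ⊆ D') {u : ℚ → α → U}
    {e0 : ℕ → U} {e : ℚ → U} {u' : ℚ → α → U}
    (hT : ∀ (n : ℕ) (P : (Fin n × (Unit ⊕ α) → U) → Prop), Dp L D' P →
      (∀ f : Fin n → ℕ, StrictMono f →
        P (cp (fun k : ℕ => (Sum.elim (fun _ => e0 k) (u k) : Unit ⊕ α → U)) f)) →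
      ∀ g : Fin n → ℚ, StrictMono g → P (cp (eu e u') g))
    (c : Ordering → Prop)
    (h : ∀ m : ℕ, IndOn L (insert (e0 m) D) u {q | c (cmp q (m : ℚ))}) (k : ℚ) :
    IndOn L (insert (e k) D) u' {q | c (cmp q k)} := by
  refine (hINF L U α ℚ (insert (e k) D) u').1 _ fun n f g hf hg hfg P hP hPf => ?_
  obtain ⟨N, d, a, f', g', hd, ha, hf', hg'⟩ := DSQ_enum f g k
  obtain ⟨Q, hQ, hPQ⟩ := dp_fam1 hP
  have hf1 := DSQ_lift hf hd hf'
  have hg1 := DSQ_lift hg hd hg'
  have h1 := hT N _ (dp_imp (DSQ_dp (dp_mono hDD hQ) a f') (DSQ_dp (dp_mono hDD hQ) a g')) (by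
    intro d' hd' hq
    have h2 := h (d' a) (Fin n) (fun i => ((d' (f' i) : ℕ) : ℚ)) (fun i => ((d' (g' i) : ℕ) : ℚ))
      (fun i j hij => by
        have := hd' (hf1 hij)
        show ((d' (f' i) : ℕ) : ℚ) < ((d' (f' j) : ℕ) : ℚ)
        exact_mod_cast this)
      (fun i j hij => by
        have := hd' (hg1 hij)
        show ((d' (g' i) : ℕ) : ℚ) < ((d' (g' j) : ℕ) : ℚ)
        exact_mod_cast this)
      (fun i => by
        rcases hfg i with h3 | ⟨h3, h4⟩
        · left
          have : f' i = g' i := hd.injective (by rw [hf', hg', h3])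
          show ((d' (f' i) : ℕ) : ℚ) = ((d' (g' i) : ℕ) : ℚ)
          rw [this]
        · right
          have key : ∀ (p : Fin N) (q : ℚ), d p = q → c (cmp q k) →
              c (cmp ((d' p : ℕ) : ℚ) ((d' a : ℕ) : ℚ)) := by
            intro p q hp hc
            have e1 : cmp ((d' p : ℕ) : ℚ) ((d' a : ℕ) : ℚ) = cmp p a := by
              have hcast : StrictMono (fun j : Fin N => ((d' j : ℕ) : ℚ)) := by
                intro i j hij
                have := hd' hij
                show ((d' i : ℕ) : ℚ) < ((d' j : ℕ) : ℚ)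
                exact_mod_cast this
              exact hcast.cmp_map_eq p a
            have e2 : cmp q k = cmp p a := by
              rw [← hp, ← ha]
              exact hd.cmp_map_eq p a
            rw [e1, ← e2]
            exact hc
          exact ⟨key _ _ (hf' i) h3, key _ _ (hg' i) h4⟩)
    have h3 := tq_mono (subset_refl _) h2
    have h4 := tq_add h3 (fun _ : Unit => e0 (d' a)) (fun _ => mem_insert _ _)
    exact (tq_mono (subset_insert _ _) h4) Q hQ hq) d hd
  rw [hPQ] at hPf ⊢
  have e1 : (fun p : Fin n × α => cp (eu e u') d (f' p.1, Sum.inr p.2)) = cp u' f := by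
    funext p
    show u' (d (f' p.1)) p.2 = u' (f p.1) p.2
    rw [hf']
  have e2 : (fun p : Fin n × α => cp (eu e u') d (g' p.1, Sum.inr p.2)) = cp u' g := by
    funext p
    show u' (d (g' p.1)) p.2 = u' (g p.1) p.2
    rw [hg']
  have e3 : (fun _ : Unit => cp (eu e u') d (a, Sum.inl ())) = fun _ => e k := by
    funext p
    show e (d a) = e k
    rw [ha]
  have h5 := h1
  rw [e1, e2, e3] at h5
  exact h5 hPf

/-- moving a finite tuple with fixed position with respect to `0` -/
theorem DSQ_mv {α : Type} {D : Set U} {u : ℚ → α → U} (h1 : IndOn L D u (Iio 0))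
    (h2 : IndOn L D u (Ioi 0)) {N : ℕ} {d d' : Fin N → ℚ} (hd : StrictMono d)
    (hd' : StrictMono d') (a : Fin N) (ha : d a = 0) (ha' : d' a = 0) :
    Tq L D (cp u d) (cp u d') := by
  classical
  have hneg : ∀ i < a, d i < 0 := fun i hi => by rw [← ha]; exact hd hi
  have hneg' : ∀ i < a, d' i < 0 := fun i hi => by rw [← ha']; exact hd' hi
  have hpos : ∀ i, a < i → 0 < d i := fun i hi => by rw [← ha]; exact hd hi
  have hpos' : ∀ i, a < i → 0 < d' i := fun i hi => by rw [← ha']; exact hd' hi
  let m : Fin N → ℚ := fun i => if i < a then d' i else d i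
  have hm : StrictMono m := by
    intro i j hij
    show (if i < a then d' i else d i) < (if j < a then d' j else d j)
    by_cases hi : i < a
    · rw [if_pos hi]
      by_cases hj : j < a
      · rw [if_pos hj]
        exact hd' hij
      · rw [if_neg hj]
        rcases lt_or_eq_of_le (not_lt.1 hj) with hj' | hj'
        · exact lt_trans (hneg' i hi) (hpos j hj')
        · rw [← hj', ha]
          exact hneg' i hi
    · rw [if_neg hi, if_neg (fun hj => hi (lt_trans hij hj))]
      exact hd hij
  have s1 : Tq L D (cp u d) (cp u m) := by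
    refine h1 (Fin N) d m hd hm fun i => ?_
    by_cases hi : i < a
    · right
      refine ⟨hneg i hi, ?_⟩
      show (if i < a then d' i else d i) < 0
      rw [if_pos hi]
      exact hneg' i hi
    · left
      show d i = if i < a then d' i else d i
      rw [if_neg hi]
  have s2 : Tq L D (cp u m) (cp u d') := by
    refine h2 (Fin N) m d' hm hd' fun i => ?_
    by_cases hi : i < a
    · left
      show (if i < a then d' i else d i) = d' i
      rw [if_pos hi]
    · have e : m i = d i := if_neg hi
      rcases lt_or_eq_of_le (not_lt.1 hi) with hi' | hi'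
      · right
        rw [e]
        exact ⟨hpos i hi', hpos' i hi'⟩
      · left
        rw [e, ← hi', ha, ha']
  exact tq_trans s1 s2

end

theorem thm_DSQ (hEXT : St_EXT) (hPLC : St_PLC) (hINC : St_INC) (hINF : St_INF) : St_DSQ := by
  intro L U _ hC α _ C u x z hCc hx hz hP
  have hzc : (insert z C).Countable := hCc.insert z
  -- the elements
  have hex : ∀ k : ℕ, ∃ y : U, Tq L (insert z C) (xu x u) (xu y (fun q => u (q + k))) := by
    intro k
    have h1 : Tq L (insert z C) (cp u id) (cp u (fun q : ℚ => q + k)) :=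
      hz ℚ id (fun q => q + k) strictMono_id (fun p q hpq => by simpa using hpq)
    obtain ⟨c', hc'⟩ := tq_ext' hC hzc h1 (fun _ : Unit => x)
    refine ⟨c' (), ?_⟩
    have h2 := tq_sub hc' (Sum.swap : Unit ⊕ (ℚ × α) → (ℚ × α) ⊕ Unit)
    refine tq_congr h2 ?_ ?_
    · funext i
      rcases i with i | i <;> rfl
    · funext i
      rcases i with i | i <;> rfl
  choose e0 he0 using hex
  -- the properties
  have hsh : ∀ k : ℕ, ∀ q : ℚ, OrderIso.addRight (k : ℚ) q = q + k := fun k q => rfl
  have hPl0 : ∀ k : ℕ, Pl L C u k (e0 k) z := by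
    intro k
    have h1 : Tq L C (xyu x z u) (xyu (e0 k) z (fun q => u (q + k))) := by
      have h2 := tq_mono (subset_insert z C)
        (tq_add (he0 k) (fun _ : Unit => z) (fun _ => mem_insert _ _))
      have h3 := tq_sub h2 (Sum.elim (fun _ => Sum.inl (Sum.inl ()))
        (Sum.elim (fun _ => Sum.inr ()) (fun p => Sum.inl (Sum.inr p))) :
          Unit ⊕ (Unit ⊕ (ℚ × α)) → (Unit ⊕ (ℚ × α)) ⊕ Unit)
      refine tq_congr h3 ?_ ?_
      · funext i
        rcases i with i | i | i <;> rfl
      · funext i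
        rcases i with i | i | i <;> rfl
    have h2 := (hPLC L U α C).2.2.1 u (fun q => u (q + k)) 0 x z (e0 k) z h1 hP
    have h3 := ((hPLC L U α C).2.2.2.1 u (OrderIso.addRight (k : ℚ)) 0 (e0 k) z).1 h2
    rw [hsh, zero_add] at h3
    exact h3
  have hInd0 : ∀ k : ℕ, Ind L (insert (e0 k) C) u := by
    intro k
    have h1 : Tq L C (xu x u) (xu (e0 k) (fun q => u (q + k))) :=
      tq_mono (subset_insert z C) (he0 k)
    have h2 := (hPLC L U α C).2.2.2.2 u (fun q => u (q + k)) x (e0 k) h1 hx
    exact ((hINC L U).2.2.2.2.2.1 α (insert (e0 k) C) u (OrderIso.addRight (k : ℚ))).1 h2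
  -- extraction
  obtain ⟨J', hJ', hT⟩ := hEXT L U hC (Unit ⊕ α) ℚ (insert z C)
    (fun k : ℕ => (Sum.elim (fun _ => e0 k) (u k) : Unit ⊕ α → U)) hzc
  have heu : eu (fun k => J' k (Sum.inl ())) (fun k a => J' k (Sum.inr a)) = J' := by
    funext k i
    rcases i with i | i <;> rfl
  set e : ℚ → U := fun k => J' k (Sum.inl ()) with he
  set u' : ℚ → α → U := fun k a => J' k (Sum.inr a) with hu'
  rw [← heu] at hJ' hT
  refine ⟨e, u', hJ', fun k => ?_, fun k => ⟨?_, ?_, ?_⟩⟩
  · have h1 := DSQ_tr hINF (subset_insert z C) hT (fun _ => True) (fun m => by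
      have h2 := ((hINF L U α ℚ (insert (e0 m) C) u).2.2).1 (hInd0 m)
      exact h2) k
    exact ((hINF L U α ℚ (insert (e k) C) u').2.2).2 h1
  · have h1 := DSQ_tr hINF (subset_refl _) hT (fun o => o = Ordering.lt) (fun m => by
      have h2 := (hPl0 m).1
      have e1 : {q : ℚ | cmp q (m : ℚ) = Ordering.lt} = Iio (m : ℚ) := by
        ext q
        exact cmp_eq_lt_iff _ _
      rw [e1]
      exact h2) k
    have e1 : {q : ℚ | cmp q k = Ordering.lt} = Iio k := by
      ext q
      exact cmp_eq_lt_iff _ _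
    rw [e1] at h1
    exact h1
  · have h1 := DSQ_tr hINF (subset_refl _) hT (fun o => o = Ordering.gt) (fun m => by
      have h2 := (hPl0 m).2.1
      have e1 : {q : ℚ | cmp q (m : ℚ) = Ordering.gt} = Ioi (m : ℚ) := by
        ext q
        exact cmp_eq_gt_iff _ _
      rw [e1]
      exact h2) k
    have e1 : {q : ℚ | cmp q k = Ordering.gt} = Ioi k := by
      ext q
      exact cmp_eq_gt_iff _ _
    rw [e1] at h1
    exact h1
  · intro hind
    obtain ⟨hP1, hP2, hP3⟩ := hP
    apply hP3
    refine (hINF L U α ℚ (insert x (insert z C)) u).2.1 fun n f g hf hg P hPd hPf => ?_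
    by_contra hPg
    obtain ⟨Q, hQ, hPQ⟩ := dp_fam1 hPd
    rw [hPQ] at hPf hPg
    obtain ⟨N, d, a, f', g', hd, ha, hf', hg'⟩ := DSQ_enum f g 0
    have hf1 := DSQ_lift hf hd hf'
    have hg1 := DSQ_lift hg hd hg'
    -- all positions with `d' a = 0`
    have key : ∀ d' : Fin N → ℚ, StrictMono d' → d' a = 0 →
        Q (Sum.elim (fun p : Fin n × α => u (d' (f' p.1)) p.2) (fun _ => x)) ∧
        ¬ Q (Sum.elim (fun p : Fin n × α => u (d' (g' p.1)) p.2) (fun _ => x)) := by
      intro d' hd' ha'
      have h1 := DSQ_mv hP1 hP2 hd hd' a ha ha'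
      have h2 : ∀ r : Fin n → Fin N,
          (Q (Sum.elim (fun p : Fin n × α => u (d (r p.1)) p.2) (fun _ => x)) ↔
            Q (Sum.elim (fun p : Fin n × α => u (d' (r p.1)) p.2) (fun _ => x))) := by
        intro r
        have h3 := tq_sub h1 (fun p : Fin n × α => (r p.1, p.2))
        have h4 := tq_add h3 (fun _ : Unit => x) (fun _ => mem_insert _ _)
        exact tq_iff (tq_mono (subset_insert x (insert z C)) h4) hQ
      constructor
      · rw [← h2]
        have e1 : (fun p : Fin n × α => u (d (f' p.1)) p.2) = cp u f := by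
          funext p
          show u (d (f' p.1)) p.2 = u (f p.1) p.2
          rw [hf']
        rw [e1]
        exact hPf
      · rw [← h2]
        have e1 : (fun p : Fin n × α => u (d (g' p.1)) p.2) = cp u g := by
          funext p
          show u (d (g' p.1)) p.2 = u (g p.1) p.2
          rw [hg']
        rw [e1]
        exact hPg
    have h1 := hT N _ (dp_and (DSQ_dp hQ a f') (dp_not (DSQ_dp hQ a g'))) (by
      intro d' hd'
      have hcast : StrictMono (fun j : Fin N => ((d' j : ℕ) : ℚ) - ((d' a : ℕ) : ℚ)) := by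
        intro i j hij
        have h2 := hd' hij
        have h3 : ((d' i : ℕ) : ℚ) < ((d' j : ℕ) : ℚ) := by exact_mod_cast h2
        show ((d' i : ℕ) : ℚ) - ((d' a : ℕ) : ℚ) < ((d' j : ℕ) : ℚ) - ((d' a : ℕ) : ℚ)
        linarith
      obtain ⟨k1, k2⟩ := key _ hcast (sub_self _)
      have h2 : ∀ r : Fin n → Fin N,
          (Q (Sum.elim (fun p : Fin n × α =>
              u (((d' (r p.1) : ℕ) : ℚ) - ((d' a : ℕ) : ℚ)) p.2) (fun _ => x)) ↔
            Q (Sum.elim (fun p : Fin n × α =>
              cp (fun k : ℕ => (Sum.elim (fun _ => e0 k) (u k) : Unit ⊕ α → U)) d'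
                (r p.1, Sum.inr p.2))
              (fun _ => cp (fun k : ℕ => (Sum.elim (fun _ => e0 k) (u k) : Unit ⊕ α → U)) d'
                (a, Sum.inl ())))) := by
        intro r
        have h3 := tq_sub (he0 (d' a)) (Sum.elim (fun p : Fin n × α =>
          Sum.inr (((d' (r p.1) : ℕ) : ℚ) - ((d' a : ℕ) : ℚ), p.2)) (fun _ => Sum.inl ()) :
            (Fin n × α) ⊕ Unit → Unit ⊕ (ℚ × α))
        have h4 := tq_congr h3 (x' := Sum.elim (fun p : Fin n × α =>
              u (((d' (r p.1) : ℕ) : ℚ) - ((d' a : ℕ) : ℚ)) p.2) (fun _ => x))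
            (y' := Sum.elim (fun p : Fin n × α =>
              cp (fun k : ℕ => (Sum.elim (fun _ => e0 k) (u k) : Unit ⊕ α → U)) d'
                (r p.1, Sum.inr p.2))
              (fun _ => cp (fun k : ℕ => (Sum.elim (fun _ => e0 k) (u k) : Unit ⊕ α → U)) d'
                (a, Sum.inl ()))) (by
            funext i
            rcases i with i | i <;> rfl) (by
            funext i
            rcases i with i | i
            · show u ((d' (r i.1) : ℕ) : ℚ) i.2 =
                u (((d' (r i.1) : ℕ) : ℚ) - ((d' a : ℕ) : ℚ) + ((d' a : ℕ) : ℚ)) i.2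
              rw [sub_add_cancel]
            · rfl)
        exact tq_iff h4 hQ
      exact ⟨(h2 f').1 k1, fun h3 => k2 ((h2 g').2 h3)⟩)
      (fun i => d i + k) (fun i j hij => by
        show d i + k < d j + k
        have := hd hij
        linarith)
    obtain ⟨h2, h3⟩ := h1
    apply h3
    have e3 : (fun _ : Unit => cp (eu e u') (fun i => d i + k) (a, Sum.inl ())) =
        fun _ => e k := by
      funext p
      show e (d a + k) = e k
      rw [ha, zero_add]
    rw [e3] at h2 ⊢
    have h4 := hind (Fin n) (fun i => d (f' i) + k) (fun i => d (g' i) + k)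
      (fun i j hij => by
        show d (f' i) + k < d (f' j) + k
        have := hd (hf1 hij)
        linarith)
      (fun i j hij => by
        show d (g' i) + k < d (g' j) + k
        have := hd (hg1 hij)
        linarith)
    have h5 := tq_add h4 (fun _ : Unit => e k) (fun _ => mem_insert _ _)
    exact (tq_mono (subset_insert (e k) (insert z C)) h5) Q hQ h2

end Pool.Agent.TPT
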