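import Pool.Agent.TPT.St

/-!
# TPT, module GM0: first facts on the situation `Gm`
-/

set_option autoImplicit false
set_option linter.unusedVariables false

namespace Pool.Agent.TPT

open FirstOrder.Language Set
open scoped FirstOrder
open Pool.Agent.MNO
open Pool.Agent.TPY

section

variable {L : FirstOrder.Language.{0, 0}} {U : Type} [L.Structure U] {α : Type} {C : Set U}

theorem GM0_xu {x : U} {u u' : ℚ → α → U} (h : Tq L (insert x C) (cp u id) (cp u' id)) :
    Tq L C (xu x u) (xu x u') := by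
  have h1 := tq_add h (fun _ : Unit => x) (fun _ => mem_insert x C)
  have h2 := tq_sub (tq_mono (subset_insert x C) h1)
    (Sum.elim (fun _ => Sum.inr ()) (fun v => Sum.inl v) : Unit ⊕ (ℚ × α) → (ℚ × α) ⊕ Unit)
  refine tq_congr h2 ?_ ?_
  · funext i
    rcases i with i | i <;> rfl
  · funext i
    rcases i with i | i <;> rfl

theorem GM0_xyu {x y : U} {u u' : ℚ → α → U} (h : Tq L (insert x (insert y C)) (cp u id) (cp u' id)) :
    Tq L C (xyu x y u) (xyu x y u') := by
  have h1 := tq_add h (fun b : Bool => if b = true then x else y) (fun b => by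
    cases b
    · exact mem_insert_of_mem x (mem_insert y C)
    · exact mem_insert x _)
  have h2 := tq_sub (tq_mono ((subset_insert y C).trans (subset_insert x _)) h1)
    (Sum.elim (fun _ => Sum.inr true) (Sum.elim (fun _ => Sum.inr false) (fun v => Sum.inl v)) :
      Unit ⊕ (Unit ⊕ (ℚ × α)) → (ℚ × α) ⊕ Bool)
  refine tq_congr h2 ?_ ?_
  · funext i
    rcases i with i | i | i <;> rfl
  · funext i
    rcases i with i | i | i <;> rfl

/-- scaling on the left of `l` -/
def GM0_s (l t : ℚ) (j : ℚ) : ℚ := if l ≤ j then j else l - (l - j) * t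

theorem GM0_ge {l t j : ℚ} (h : l ≤ j) : GM0_s l t j = j := if_pos h

theorem GM0_lt {l t j : ℚ} (h : j < l) : GM0_s l t j = l - (l - j) * t := if_neg (not_le.2 h)

theorem GM0_lt' {l t j : ℚ} (ht : 0 < t) (h : j < l) : GM0_s l t j < l := by
  rw [GM0_lt h]
  have := mul_pos (sub_pos.2 h) ht
  linarith

theorem GM0_mono {l t : ℚ} (ht : 0 < t) : StrictMono (GM0_s l t) := by
  intro a b hab
  rcases lt_or_ge b l with hb | hb
  · rw [GM0_lt (hab.trans hb), GM0_lt hb]
    have h1 : (l - b) * t < (l - a) * t := mul_lt_mul_of_pos_right (by linarith) ht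
    linarith
  · rcases lt_or_ge a l with ha | ha
    · rw [GM0_ge hb]
      exact (GM0_lt' ht ha).trans_le hb
    · rw [GM0_ge hb, GM0_ge ha]
      exact hab

end

theorem thm_GM0 : St_GM0 := by
  intro L U _ α C e u hG
  have key : ∀ σ : ℚ → ℚ, StrictMono σ → Tq L C (cp (eu e u) id) (cp (eu e u) σ) :=
    fun σ hσ => hG.ind ℚ id σ strictMono_id hσ
  have keyx : ∀ σ : ℚ → ℚ, StrictMono σ → ∀ k, Tq L C (xu (e k) u) (xu (e (σ k)) (fun j => u (σ j))) := by
    intro σ hσ k
    have h1 := tq_sub (key σ hσ) (Sum.elim (fun _ => (k, Sum.inl ())) (fun v => (v.1, Sum.inr v.2)) :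
      Unit ⊕ (ℚ × α) → ℚ × (Unit ⊕ α))
    refine tq_congr h1 ?_ ?_
    · funext i
      rcases i with i | i <;> rfl
    · funext i
      rcases i with i | i <;> rfl
  have keyy : ∀ σ : ℚ → ℚ, StrictMono σ → ∀ k l, Tq L C (xyu (e k) (e l) u)
      (xyu (e (σ k)) (e (σ l)) (fun j => u (σ j))) := by
    intro σ hσ k l
    have h1 := tq_sub (key σ hσ) (Sum.elim (fun _ => (k, Sum.inl ())) (Sum.elim (fun _ => (l, Sum.inl ()))
      (fun v => (v.1, Sum.inr v.2))) : Unit ⊕ (Unit ⊕ (ℚ × α)) → ℚ × (Unit ⊕ α))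
    refine tq_congr h1 ?_ ?_
    · funext i
      rcases i with i | i | i <;> rfl
    · funext i
      rcases i with i | i | i <;> rfl
  refine ⟨?_, ?_, ?_, ?_⟩
  · intro k l
    have h1 := keyx (fun j => j + (l - k)) (fun a b h => by simpa using h) k
    have h2 : k + (l - k) = l := by ring
    simp only [h2] at h1
    refine tq_trans h1 (GM0_xu ?_)
    have h3 := hG.one l ℚ (fun j => j + (l - k)) id (fun a b h => by simpa using h) strictMono_id
    exact h3
  · intro k k' l hk hk'
    have ht : 0 < (l - k') / (l - k) := div_pos (sub_pos.2 hk') (sub_pos.2 hk)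
    have h0 : l - k ≠ 0 := ne_of_gt (sub_pos.2 hk)
    have h1 := keyy (GM0_s l ((l - k') / (l - k))) (GM0_mono ht) k l
    have h2 : GM0_s l ((l - k') / (l - k)) l = l := GM0_ge le_rfl
    have h3 : GM0_s l ((l - k') / (l - k)) k = k' := by
      rw [GM0_lt hk]
      field_simp
      ring
    rw [h2, h3] at h1
    refine tq_trans h1 (GM0_xyu ?_)
    have h4 := (hG.two k' l hk').1 ℚ (GM0_s l ((l - k') / (l - k))) id (GM0_mono ht) strictMono_id (fun q => by
      rcases lt_or_ge q l with hq | hq
      · exact Or.inr ⟨GM0_lt' ht hq, hq⟩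
      · exact Or.inl (GM0_ge hq))
    exact h4
  · intro k l m
    exact keyy (fun j => j + m) (fun a b h => by simpa using h) k l
  · intro σ
    exact key σ σ.strictMono

end Pool.Agent.TPT
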