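import Pool.Agent.TPT.St

/-!
# TPT [GMA]: part (A) of the game
-/

set_option autoImplicit false
set_option linter.unusedVariables false

namespace Pool.Agent.TPT

open FirstOrder.Language Set
open scoped FirstOrder
open Pool.Agent.MNO
open Pool.Agent.TPY

section

variable {L : FirstOrder.Language.{0, 0}} {U : Type} [L.Structure U] {α : Type} {C : Set U}

theorem GMA_swap {x y x' y' : U} {u u' : ℚ → α → U} (h : Tq L C (xyu x y u) (xyu x' y' u')) :
    Tq L C (xyu y x u) (xyu y' x' u') := by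
  refine tq_congr (tq_sub h (Sum.elim (fun _ => Sum.inr (Sum.inl ())) (Sum.elim (fun _ => Sum.inl ())
    (fun q => Sum.inr (Sum.inr q))) : Unit ⊕ (Unit ⊕ (ℚ × α)) → Unit ⊕ (Unit ⊕ (ℚ × α)))) ?_ ?_
  · funext v
    rcases v with v | v | v <;> rfl
  · funext v
    rcases v with v | v | v <;> rfl

theorem GMA_second {x y x' y' : U} {u u' : ℚ → α → U} (h : Tq L C (xyu x y u) (xyu x' y' u')) :
    Tq L C (xu y u) (xu y' u') :=
  tq_sub h (Sum.inr : Unit ⊕ (ℚ × α) → Unit ⊕ (Unit ⊕ (ℚ × α)))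

/-- a property of a block of `u` and the two elements -/
theorem GMA_psi {n : ℕ} {Ψ : ((Fin n × α) ⊕ Bool → U) → Prop} (hΨ : Dp L C Ψ) {y w y' w' : U}
    {u u' : ℚ → α → U} (h : Tq L C (xyu y w u) (xyu y' w' u')) (x : Fin n → ℚ) :
    Ψ (Sum.elim (cp u x) (fun c => if c = true then y else w)) ↔
      Ψ (Sum.elim (cp u' x) (fun c => if c = true then y' else w')) := by
  have h1 := tq_sub h (Sum.elim (fun v => Sum.inr (Sum.inr (x v.1, v.2)))
    (fun c => if c = true then Sum.inl () else Sum.inr (Sum.inl ())) :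
      (Fin n × α) ⊕ Bool → Unit ⊕ (Unit ⊕ (ℚ × α)))
  have h2 := tq_congr h1 (x' := Sum.elim (cp u x) (fun c => if c = true then y else w))
    (y' := Sum.elim (cp u' x) (fun c => if c = true then y' else w')) (by
      funext v
      rcases v with v | v
      · rfl
      · cases v <;> rfl) (by
      funext v
      rcases v with v | v
      · rfl
      · cases v <;> rfl)
  exact tq_iff h2 hΨ

/-- the transport of the code by an automorphism of `ℚ` -/
theorem GMA_tr {e : ℚ → U} {u : ℚ → α → U} {w w' : U} {σ : ℚ ≃o ℚ}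
    (H : Tq L C (Sum.elim (cp (eu e u) id) (fun _ : Unit => w)) (Sum.elim (cp (eu e u) σ) (fun _ : Unit => w')))
    (m : ℚ) : Tq L C (xyu (e m) w u) (xyu (e (σ m)) w' (fun j => u (σ j))) := by
  refine tq_congr (tq_sub H (Sum.elim (fun _ => Sum.inl (m, Sum.inl ())) (Sum.elim (fun _ => Sum.inr ())
    (fun q => Sum.inl (q.1, Sum.inr q.2))) : Unit ⊕ (Unit ⊕ (ℚ × α)) → (ℚ × (Unit ⊕ α)) ⊕ Unit)) ?_ ?_
  · funext v
    rcases v with v | v | v <;> rfl
  · funext v
    rcases v with v | v | v <;> rfl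

theorem GMA_tr2 {e : ℚ → U} {u : ℚ → α → U} {σ : ℚ ≃o ℚ}
    (H : Tq L C (cp (eu e u) id) (cp (eu e u) σ)) (m m' : ℚ) :
    Tq L C (xyu (e m) (e m') u) (xyu (e (σ m)) (e (σ m')) (fun j => u (σ j))) := by
  refine tq_congr (tq_sub H (Sum.elim (fun _ => (m, Sum.inl ())) (Sum.elim (fun _ => (m', Sum.inl ()))
    (fun q => (q.1, Sum.inr q.2))) : Unit ⊕ (Unit ⊕ (ℚ × α)) → (ℚ × (Unit ⊕ α)))) ?_ ?_
  · funext v
    rcases v with v | v | v <;> rfl
  · funext v
    rcases v with v | v | v <;> rfl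

theorem GMA_back {x y x' y' : U} {u : ℚ → α → U} {σ : ℚ ≃o ℚ}
    (h : Tq L C (xyu x y (fun j => u (σ j))) (xyu x' y' (fun j => u (σ j)))) :
    Tq L C (xyu x y u) (xyu x' y' u) := by
  refine tq_congr (tq_sub h (Sum.elim (fun _ => Sum.inl ()) (Sum.elim (fun _ => Sum.inr (Sum.inl ()))
    (fun q => Sum.inr (Sum.inr (σ.symm q.1, q.2)))) : Unit ⊕ (Unit ⊕ (ℚ × α)) → Unit ⊕ (Unit ⊕ (ℚ × α)))) ?_ ?_
  · funext v
    rcases v with v | v | v
    · rfl
    · rfl
    · show u v.1 v.2 = u (σ (σ.symm v.1)) v.2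
      rw [OrderIso.apply_symm_apply]
  · funext v
    rcases v with v | v | v
    · rfl
    · rfl
    · show u v.1 v.2 = u (σ (σ.symm v.1)) v.2
      rw [OrderIso.apply_symm_apply]

/-- an automorphism of `ℚ` with four given values -/
theorem GMA_hom (hHOM : St_HOM) {x₀ x₁ x₂ x₃ y₀ y₁ y₂ y₃ : ℚ} (h₁ : x₀ < x₁) (h₂ : x₁ < x₂) (h₃ : x₂ < x₃)
    (k₁ : y₀ < y₁) (k₂ : y₁ < y₂) (k₃ : y₂ < y₃) :
    ∃ σ : ℚ ≃o ℚ, σ x₀ = y₀ ∧ σ x₁ = y₁ ∧ σ x₂ = y₂ ∧ σ x₃ = y₃ := by
  obtain ⟨σ, hσ⟩ := hHOM 4 ![x₀, x₁, x₂, x₃] ![y₀, y₁, y₂, y₃] (by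
      refine Fin.strictMono_iff_lt_succ.2 fun i => ?_
      fin_cases i
      · exact h₁
      · exact h₂
      · exact h₃) (by
      refine Fin.strictMono_iff_lt_succ.2 fun i => ?_
      fin_cases i
      · exact k₁
      · exact k₂
      · exact k₃)
  exact ⟨σ, hσ 0, hσ 1, hσ 2, hσ 3⟩

end

/-- [GMA] **(A)** -/
theorem thm_GMA (hGM0 : St_GM0) (hWIT : St_WIT) (hRUL : St_RUL) (hPLC : St_PLC) (hHOM : St_HOM)
    (hINC : St_INC) : St_GMA := by
  intro L U _ hC α _ C e u hG t i k ht hti hik w hw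
  obtain ⟨-, g2, g3, g4⟩ := hGM0 L U α C e u hG
  obtain ⟨p1, p2, p3, p4, p5⟩ := hPLC L U α C
  have hiw : Pl L C u t (e i) w := p3 u u t _ _ _ _ (tq_symm hw) (p1 _ _ _ _ (hG.two 0 t ht))
  have hwI : Ind L (insert w C) u := p5 u u _ _ (tq_symm (GMA_second hw)) (hG.one 0)
  rcases hRUL L U hC α C u (e k) w (e i) k t hG.cnt (hG.one k) hwI (p1 _ _ _ _ (hG.two i k hik))
    (p1 _ _ _ _ hiw) (hti.trans hik).ne' with h1 | h1
  swap
  · exact h1
  exfalso
  -- the place of `(e l, w)`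
  have hall : ∀ l, k ≤ l → Pl L C u l (e l) w := by
    intro l hl
    rcases hl.eq_or_lt with rfl | hl
    · exact h1
    have hil : i < l := hik.trans hl
    have htl : t < l := hti.trans hil
    rcases hRUL L U hC α C u w (e l) (e k) k l hG.cnt hwI (hG.one l) (p1 _ _ _ _ h1)
      (p1 _ _ _ _ (hG.two k l hl)) hl.ne with h2 | h2
    · rcases hRUL L U hC α C u w (e l) (e i) t l hG.cnt hwI (hG.one l) (p1 _ _ _ _ hiw)
        (p1 _ _ _ _ (hG.two i l hil)) htl.ne with h3 | h3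
      · exact absurd (p2 _ _ _ _ _ h2 h3) (hti.trans hik).ne'
      · exact p1 _ _ _ _ h3
    · exact p1 _ _ _ _ h2
  obtain ⟨n, p, x, f, g, Ψ, hx, hf, hg, hxr, hΨ, hΨ1, hΨ0⟩ := hWIT L U α C e u hG
  -- the codes
  have hcode : ∀ N a b : ℕ, ∃ w' : U, b < N →
      Tq L C (xyu (e (N + 1 + a)) w' u) (xyu (e (b + 1)) (e 0) u) ∧
      ∀ l : ℚ, (N : ℚ) + 1 + a + 1 / 2 ≤ l → Pl L C u l (e l) w' := by
    intro N a b
    by_cases hb : b < N
    swap
    · exact ⟨w, fun h => absurd h hb⟩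
    have hb' : (b : ℚ) < N := by exact_mod_cast hb
    have ha' : (0 : ℚ) ≤ a := Nat.cast_nonneg a
    have hb0 : (0 : ℚ) ≤ b := Nat.cast_nonneg b
    obtain ⟨σ, s0, s1, s2, s3⟩ := GMA_hom hHOM (x₀ := 0) (x₁ := t) (x₂ := i) (x₃ := k)
      (y₀ := 0) (y₁ := (b : ℚ) + 1) (y₂ := (N : ℚ) + 1 + a) (y₃ := (N : ℚ) + 1 + a + 1 / 2)
      ht hti hik (by linarith) (by linarith) (by linarith)
    obtain ⟨w', hw'⟩ := tq_ext' hC hG.cnt (g4 σ) (fun _ : Unit => w)
    have H : Tq L C (Sum.elim (cp (eu e u) id) (fun _ : Unit => w))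
        (Sum.elim (cp (eu e u) σ) (fun _ : Unit => w' ())) := hw'
    refine ⟨w' (), fun _ => ⟨?_, ?_⟩⟩
    · have t1 := GMA_tr H i
      have t2 := GMA_tr2 (g4 σ) t 0
      have t3 := GMA_back (tq_trans (tq_symm t1) (tq_trans hw t2))
      rw [s0, s1, s2] at t3
      exact t3
    · intro l hl
      have t1 := GMA_tr H (σ.symm l)
      have hk : k ≤ σ.symm l := by
        rw [← σ.le_iff_le, OrderIso.apply_symm_apply, s3]
        exact hl
      have t2 := p3 _ _ _ _ _ _ _ t1 (hall _ hk)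
      rw [p4, OrderIso.apply_symm_apply] at t2
      exact t2
  choose wc hwc using hcode
  -- the formula is true
  have hT : ∀ b : ℕ, Ψ (Sum.elim (cp u (fun j => x j + b)) (fun c => if c = true then e (b + 1) else e 0)) := by
    intro b
    have t1 := (GMA_psi hΨ (GMA_swap (g3 0 1 b)) x).1 hΨ1
    have t2 := (GMA_psi hΨ (GMA_swap (g2 b 0 (b + 1) (by linarith)
      (by have : (0 : ℚ) ≤ b := Nat.cast_nonneg b
          linarith))) (fun j => x j + b)).1
    apply t2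
    rw [zero_add, add_comm (1 : ℚ)] at t1
    exact t1
  -- false
  have hF : ∀ (y w' : U) (s : ℚ) (c : ℕ), Pl L C u s y w' → ((∀ j, x j + c < s) ∨ (∀ j, s < x j + c)) →
      ¬ Ψ (Sum.elim (cp u (fun j => x j + c)) (fun c => if c = true then y else w')) := by
    intro y w' s c hp hs
    refine hΨ0 (cp u (fun j => x j + c)) y w' ?_
    have m1 : StrictMono (fun j => x (f j) + (c : ℚ)) := fun j j' h => by
      have := hx (hf h)
      show x (f j) + (c : ℚ) < x (f j') + c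
      linarith
    have m2 : StrictMono (fun j => x (g j) + (c : ℚ)) := fun j j' h => by
      have := hx (hg h)
      show x (g j) + (c : ℚ) < x (g j') + c
      linarith
    rcases hs with hs | hs
    · exact hp.1 (Fin p) _ _ m1 m2 (fun j => Or.inr ⟨hs _, hs _⟩)
    · exact hp.2.1 (Fin p) _ _ m1 m2 (fun j => Or.inr ⟨hs _, hs _⟩)
  refine arr hC (α := Unit) (β := Fin n × α) (A := C)
    (P := fun y b w => Ψ (Sum.elim b (fun c => if c = true then y () else w))) ?_ ?_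
  · have h2 := dp_sub hΨ (Sum.elim (fun v => Sum.inl (Sum.inr v))
      (fun c => if c = true then Sum.inl (Sum.inl ()) else Sum.inr ()) :
        (Fin n × α) ⊕ Bool → (Unit ⊕ (Fin n × α)) ⊕ Unit)
    refine dp_congr h2 fun v => iff_of_eq ?_
    congr 1
    funext c
    rcases c with c | c
    · rfl
    · cases c <;> rfl
  · intro N
    refine ⟨true, true, fun a _ => e (N + 1 + a), fun b => cp u (fun j => x j + b), fun a b => wc N a b, ?_⟩
    intro a ha b hb
    obtain ⟨q1, q2⟩ := hwc N a b hb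
    have hb' : (b : ℚ) + 1 ≤ N := by exact_mod_cast hb
    have ha0 : (0 : ℚ) ≤ a := Nat.cast_nonneg a
    have hb0 : (0 : ℚ) ≤ b := Nat.cast_nonneg b
    refine ⟨?_, ?_, ?_⟩
    · exact (GMA_psi hΨ q1 _).2 (hT b)
    · intro a' ha' haa'
      have haa'' : a < a' := haa'
      have h3 : (a : ℚ) + 1 ≤ a' := by exact_mod_cast haa''
      refine hF _ _ ((N : ℚ) + 1 + a') b (q2 _ (by linarith)) (Or.inl fun j => ?_)
      have := (hxr j).2
      linarith
    · intro c hc hbc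
      have hbc' : b < c := hbc
      have h3 : (b : ℚ) + 1 ≤ c := by exact_mod_cast hbc'
      intro h4
      refine hF (e (b + 1)) (e 0) ((b : ℚ) + 1) c (p1 _ _ _ _ (hG.two 0 _ (by linarith)))
        (Or.inr fun j => ?_) ((GMA_psi hΨ q1 _).1 h4)
      have := (hxr j).1
      linarith

end Pool.Agent.TPT
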