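import Pool.Agent.TPT.St

/-!
# TPT [GMB]
-/

set_option autoImplicit false
set_option linter.unusedVariables false

namespace Pool.Agent.TPT

open FirstOrder.Language Set
open scoped FirstOrder
open Pool.Agent.MNO
open Pool.Agent.TPY

/-- three points can be moved -/
private theorem GMB_hom (hHOM : St_HOM) {i k s i' k' s' : ℚ} (h1 : i < k) (h2 : k < s) (h1' : i' < k')
    (h2' : k' < s') : ∃ σ : ℚ ≃o ℚ, σ i = i' ∧ σ k = k' ∧ σ s = s' := by
  obtain ⟨σ, hσ⟩ := hHOM 3 ![i, k, s] ![i', k', s'] (by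
    intro a b hab
    fin_cases a <;> fin_cases b <;> simp_all [h1.trans h2]) (by
    intro a b hab
    fin_cases a <;> fin_cases b <;> simp_all [h1'.trans h2'])
  exact ⟨σ, hσ 0, hσ 1, hσ 2⟩

theorem thm_GMB (hGM0 : St_GM0) (hWIT : St_WIT) (hRUL : St_RUL) (hPLC : St_PLC) (hHOM : St_HOM)
    (hINC : St_INC) : St_GMB := by
  intro L U _ hC α _ C e u hG i k s hik hks y hy
  obtain ⟨pl1, pl2, pl3, pl4, pl5⟩ := hPLC L U α C
  obtain ⟨g1, g2, g3, g4⟩ := hGM0 L U α C e u hG
  have hyk : Pl L C u s (e k) y := pl3 u u s (e k) (e s) (e k) y (tq_symm hy) (hG.two k s hks)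
  have hyI : Ind L (insert y C) u := pl5 u u (e s) y (tq_sub (tq_symm hy) Sum.inr) (hG.one s)
  have hA : ∀ h < k, Pl L C u k (e h) y ∨ Pl L C u s (e h) y := fun h hh =>
    hRUL L U hC α C u (e h) y (e k) k s hG.cnt (hG.one h) hyI (hG.two h k hh) (pl1 u s _ _ hyk) hks.ne
  rcases hA i hik with hi | hi
  swap
  · exact hi
  exfalso
  have hall : ∀ h ≤ i, Pl L C u k (e h) y := by
    intro h hh
    rcases hh.lt_or_eq with hh | hh
    · rcases hA h (hh.trans hik) with h1 | h1
      · exact h1
      · rcases hRUL L U hC α C u (e h) y (e i) i k hG.cnt (hG.one h) hyI (hG.two h i hh)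
          (pl1 u k _ _ hi) hik.ne with h2 | h2
        · exact absurd (pl2 u i s _ _ h2 h1) (hik.trans hks).ne
        · exact h2
    · rw [hh]
      exact hi
  obtain ⟨n, p, x, f, g, Ψ, hx, hf, hg, hxb, hΨ, hΨ1, hΨ0⟩ := hWIT L U α C e u hG
  -- blocks on one side of a place
  have hside : ∀ (q : ℚ) (v w : U) (m : ℚ), Pl L C u q v w → ((∀ r, x r + m < q) ∨ (∀ r, q < x r + m)) →
      ¬ Ψ (Sum.elim (cp u (fun r => x r + m)) (fun c => if c = true then w else v)) := by
    intro q v w m hP hs
    refine hΨ0 _ _ _ ?_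
    rw [insert_comm]
    rcases hs with hs | hs
    · exact hP.1 (Fin p) (fun r => x (f r) + m) (fun r => x (g r) + m)
        (fun a b hab => by simpa using hx (hf hab)) (fun a b hab => by simpa using hx (hg hab))
        (fun r => Or.inr ⟨hs _, hs _⟩)
    · exact hP.2.1 (Fin p) (fun r => x (f r) + m) (fun r => x (g r) + m)
        (fun a b hab => by simpa using hx (hf hab)) (fun a b hab => by simpa using hx (hg hab))
        (fun r => Or.inr ⟨hs _, hs _⟩)
  refine arr hC (α := Unit) (β := Fin n × α) (A := C)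
    (P := fun r b c => Ψ (Sum.elim b (fun d => if d = true then c else r ()))) ?_ ?_
  · refine dp_congr (dp_sub hΨ (Sum.elim (fun q => Sum.inl (Sum.inr q))
      (fun d => if d = true then Sum.inr () else Sum.inl (Sum.inl ())) :
        (Fin n × α) ⊕ Bool → (Unit ⊕ (Fin n × α)) ⊕ Unit)) fun v => iff_of_eq ?_
    congr 1
    funext q
    rcases q with q | q
    · rfl
    · cases q <;> rfl
  · intro N
    have key : ∀ a b : ℕ, a < N → b < N → ∃ c : U,
        Tq L C (xyu (e (a + 1)) c u) (xyu (e (a + 1)) (e (N + 1 + b)) u) ∧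
        ∀ h : ℚ, h ≤ a + 1 / 2 → Pl L C u (a + 1) (e h) c := by
      intro a b ha hb
      have ha' : (a : ℚ) + 1 ≤ N := by exact_mod_cast ha
      have hb' : (0 : ℚ) ≤ b := Nat.cast_nonneg b
      obtain ⟨σ, s1, s2, s3⟩ := GMB_hom hHOM hik hks (i' := (a : ℚ) + 1 / 2) (k' := (a : ℚ) + 1)
        (s' := (N : ℚ) + 1 + b) (by linarith) (by linarith)
      obtain ⟨c, hc⟩ := tq_ext' hC hG.cnt (g4 σ) (fun _ : Unit => y)
      have tr : ∀ h : ℚ, Tq L C (xyu (e h) y u) (xyu (e (σ h)) (c ()) (fun j => u (σ j))) := by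
        intro h
        refine tq_congr (tq_sub hc (Sum.elim (fun _ => Sum.inl (h, Sum.inl ()))
          (Sum.elim (fun _ => Sum.inr ()) (fun v => Sum.inl (v.1, Sum.inr v.2))) :
            Unit ⊕ (Unit ⊕ (ℚ × α)) → (ℚ × (Unit ⊕ α)) ⊕ Unit)) ?_ ?_
        · funext v
          rcases v with v | v | v <;> rfl
        · funext v
          rcases v with v | v | v <;> rfl
      have tr2 : Tq L C (xyu (e k) (e s) u) (xyu (e (σ k)) (e (σ s)) (fun j => u (σ j))) := by
        refine tq_congr (tq_sub hc (Sum.elim (fun _ => Sum.inl (k, Sum.inl ()))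
          (Sum.elim (fun _ => Sum.inl (s, Sum.inl ())) (fun v => Sum.inl (v.1, Sum.inr v.2))) :
            Unit ⊕ (Unit ⊕ (ℚ × α)) → (ℚ × (Unit ⊕ α)) ⊕ Unit)) ?_ ?_
        · funext v
          rcases v with v | v | v <;> rfl
        · funext v
          rcases v with v | v | v <;> rfl
      refine ⟨c (), ?_, ?_⟩
      · have h1 := tq_trans (tq_trans (tq_symm (tr k)) hy) tr2
        rw [s2, s3] at h1
        refine tq_congr (tq_sub h1 (Sum.elim (fun _ => Sum.inl ())
          (Sum.elim (fun _ => Sum.inr (Sum.inl ())) (fun v => Sum.inr (Sum.inr (σ.symm v.1, v.2)))) :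
            Unit ⊕ (Unit ⊕ (ℚ × α)) → Unit ⊕ (Unit ⊕ (ℚ × α)))) ?_ ?_
        · funext v
          rcases v with v | v | v
          · rfl
          · rfl
          · show u v.1 v.2 = u (σ (σ.symm v.1)) v.2
            rw [σ.apply_symm_apply]
        · funext v
          rcases v with v | v | v
          · rfl
          · rfl
          · show u v.1 v.2 = u (σ (σ.symm v.1)) v.2
            rw [σ.apply_symm_apply]
      · intro h hh
        have h1 : σ.symm h ≤ i := by
          rw [← σ.le_iff_le, σ.apply_symm_apply, s1]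
          exact hh
        have h2 := pl3 _ _ _ _ _ _ _ (tr (σ.symm h)) (hall _ h1)
        rw [pl4 u σ k, s2, σ.apply_symm_apply] at h2
        exact h2
    have : Nonempty U := ⟨y⟩
    choose! c hc1 hc2 using key
    refine ⟨false, true, fun a _ => e (a + 1), fun b => cp u (fun r => x r + ((N : ℚ) + b)), c, ?_⟩
    intro a ha b hb
    have ha' : (a : ℚ) + 1 ≤ N := by exact_mod_cast ha
    have hb' : (0 : ℚ) ≤ b := Nat.cast_nonneg b
    -- exchange of the code
    have ex : ∀ m : ℚ, Ψ (Sum.elim (cp u (fun r => x r + m))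
        (fun d => if d = true then c a b else e (a + 1))) ↔ Ψ (Sum.elim (cp u (fun r => x r + m))
        (fun d => if d = true then e (N + 1 + b) else e (a + 1))) := by
      intro m
      have h1 := tq_sub (hc1 a b ha hb) (Sum.elim (fun v => Sum.inr (Sum.inr (x v.1 + m, v.2)))
        (fun d => if d = true then Sum.inr (Sum.inl ()) else Sum.inl ()) :
          (Fin n × α) ⊕ Bool → Unit ⊕ (Unit ⊕ (ℚ × α)))
      have h2 := tq_iff h1 hΨ
      refine Iff.trans (iff_of_eq (congrArg Ψ ?_)) (h2.trans (iff_of_eq (congrArg Ψ ?_)))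
      · funext v
        rcases v with v | v
        · rfl
        · cases v <;> rfl
      · funext v
        rcases v with v | v
        · rfl
        · cases v <;> rfl
    refine ⟨?_, ?_, ?_⟩
    · refine (ex _).2 ?_
      have t1 := g3 0 1 ((N : ℚ) + b)
      have t2 := g2 (0 + ((N : ℚ) + b)) ((a : ℚ) + 1) (1 + ((N : ℚ) + b)) (by linarith) (by linarith)
      have h1 := tq_iff (tq_sub t1 (Sum.elim (fun v => Sum.inr (Sum.inr (x v.1, v.2)))
        (fun d => if d = true then Sum.inr (Sum.inl ()) else Sum.inl ()) :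
          (Fin n × α) ⊕ Bool → Unit ⊕ (Unit ⊕ (ℚ × α)))) hΨ
      have h2 := tq_iff (tq_sub t2 (Sum.elim (fun v => Sum.inr (Sum.inr (x v.1 + ((N : ℚ) + b), v.2)))
        (fun d => if d = true then Sum.inr (Sum.inl ()) else Sum.inl ()) :
          (Fin n × α) ⊕ Bool → Unit ⊕ (Unit ⊕ (ℚ × α)))) hΨ
      have e1 : (1 : ℚ) + ((N : ℚ) + b) = N + 1 + b := by ring
      have h3 := h1.1 ((iff_of_eq (congrArg Ψ (by
        funext v
        rcases v with v | v
        · rfl
        · cases v <;> rfl))).1 hΨ1)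
      have h4 := h2.1 ((iff_of_eq (congrArg Ψ (by
        funext v
        rcases v with v | v
        · rfl
        · cases v <;> rfl))).1 h3)
      rw [e1] at h4
      refine (iff_of_eq (congrArg Ψ ?_)).1 h4
      funext v
      rcases v with v | v
      · rfl
      · cases v <;> rfl
    · intro a' ha'' hlt
      have hlt' : a' < a := hlt
      have hq : (a' : ℚ) + 1 ≤ a := by exact_mod_cast hlt'
      refine hside (a + 1) _ _ _ (hc2 a b ha hb _ (by linarith)) (Or.inr fun r => ?_)
      have := (hxb r).1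
      linarith
    · intro b' hb'' hlt
      have hlt' : b < b' := hlt
      have hq : (b : ℚ) + 1 ≤ b' := by exact_mod_cast hlt'
      refine fun hn => ?_
      refine absurd ((ex _).1 hn) ?_
      refine hside (N + 1 + b) _ _ _ (hG.two _ _ (by linarith)) (Or.inr fun r => ?_)
      have := (hxb r).1
      linarith

end Pool.Agent.TPT
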