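import Pool.Agent.TPT.St

/-!
# TPT, module GMN: the situation `Gm` is impossible
-/

set_option autoImplicit false
set_option linter.unusedVariables false

namespace Pool.Agent.TPT

open FirstOrder.Language Set
open scoped FirstOrder
open Pool.Agent.MNO
open Pool.Agent.TPY

theorem thm_GMN (hGM0 : St_GM0) (hGMA : St_GMA) (hGMB : St_GMB) (hPLC : St_PLC) : St_GMN := by
  intro L U _ hC α _ C e u hG
  have hCc := hG.cnt
  obtain ⟨g1, g2, -, -⟩ := hGM0 L U α C e u hG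
  obtain ⟨p1, p2, p3, -, -⟩ := hPLC L U α C
  -- `w`
  obtain ⟨w', hw'⟩ := tq_ext' (α := Unit ⊕ (ℚ × α)) (β := Unit) hC hCc (g1 1 10) (fun _ => e 0)
  let w : U := w' ()
  have hw : Tq L C (xyu (e 10) w u) (xyu (e 1) (e 0) u) := by
    have h1 := tq_sub (tq_symm hw') (Sum.elim (fun _ => Sum.inl (Sum.inl ()))
      (Sum.elim (fun _ => Sum.inr ()) (fun v => Sum.inl (Sum.inr v))) :
        Unit ⊕ (Unit ⊕ (ℚ × α)) → (Unit ⊕ (ℚ × α)) ⊕ Unit)
    refine tq_congr h1 ?_ ?_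
    · funext i
      rcases i with i | i | i <;> rfl
    · funext i
      rcases i with i | i | i <;> rfl
  have hA := hGMA L U hC α C e u hG 1 10 11 (by norm_num) (by norm_num) (by norm_num) w hw
  -- `y₁`
  obtain ⟨y', hy'⟩ := tq_ext' (α := Unit ⊕ (Unit ⊕ (ℚ × α))) (β := Unit) hC hCc hw (fun _ => e 11)
  let y : U := y' ()
  have hy1 : Tq L C (xyu (e 10) (e 11) u) (xyu (e 1) y u) := by
    have h1 := tq_sub hy' (Sum.elim (fun _ => Sum.inl (Sum.inl ()))
      (Sum.elim (fun _ => Sum.inr ()) (fun v => Sum.inl (Sum.inr (Sum.inr v)))) :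
        Unit ⊕ (Unit ⊕ (ℚ × α)) → (Unit ⊕ (Unit ⊕ (ℚ × α))) ⊕ Unit)
    refine tq_congr h1 ?_ ?_
    · funext i
      rcases i with i | i | i <;> rfl
    · funext i
      rcases i with i | i | i <;> rfl
  have hy2 : Tq L C (xyu w (e 11) u) (xyu (e 0) y u) := by
    have h1 := tq_sub hy' (Sum.elim (fun _ => Sum.inl (Sum.inr (Sum.inl ())))
      (Sum.elim (fun _ => Sum.inr ()) (fun v => Sum.inl (Sum.inr (Sum.inr v)))) :
        Unit ⊕ (Unit ⊕ (ℚ × α)) → (Unit ⊕ (Unit ⊕ (ℚ × α))) ⊕ Unit)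
    refine tq_congr h1 ?_ ?_
    · funext i
      rcases i with i | i | i <;> rfl
    · funext i
      rcases i with i | i | i <;> rfl
  have h3 : Tq L C (xyu (e 1) y u) (xyu (e 1) (e 11) u) :=
    tq_trans (tq_symm hy1) (g2 10 1 11 (by norm_num) (by norm_num))
  have hB := hGMB L U hC α C e u hG 0 1 11 (by norm_num) (by norm_num) y h3
  have h4 := p3 u u 11 (e 0) y w (e 11) (tq_symm hy2) hB
  have h5 := p2 u 11 1 w (e 11) h4 (p1 u 1 (e 11) w hA)
  norm_num at h5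

end Pool.Agent.TPT
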