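import Pool.Agent.TPT.St

/-!
# TPT [HOM]: finite strictly monotone maps of rational numbers extend to order automorphisms
-/

set_option autoImplicit false

namespace Pool.Agent.TPT

open FirstOrder.Language Set
open scoped FirstOrder
open Pool.Agent.MNO
open Pool.Agent.TPY

/-- scaling to the right of `c` -/
def HOM_h (c r : ℚ) (j : ℚ) : ℚ := if j ≤ c then j else c + (j - c) * r

theorem HOM_mono (c r : ℚ) (hr : 0 < r) : StrictMono (HOM_h c r) := by
  intro a b hab
  unfold HOM_h
  split_ifs with h1 h2 h2
  · exact hab
  · have : 0 < (b - c) * r := mul_pos (by linarith) hr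
    linarith
  · exact absurd (hab.le.trans h2) h1
  · have : (a - c) * r < (b - c) * r := mul_lt_mul_of_pos_right (by linarith) hr
    linarith

theorem HOM_inv (c r : ℚ) (hr : 0 < r) (j : ℚ) : HOM_h c r (HOM_h c r⁻¹ j) = j := by
  unfold HOM_h
  by_cases h : j ≤ c
  · rw [if_pos h, if_pos h]
  · have h1 : 0 < (j - c) * r⁻¹ := mul_pos (by linarith) (inv_pos.2 hr)
    rw [if_neg h, if_neg (by linarith), add_sub_cancel_left, mul_assoc, inv_mul_cancel₀ hr.ne',
      mul_one, add_sub_cancel]

theorem thm_HOM : St_HOM := by
  intro n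
  induction n with
  | zero => exact fun x y _ _ => ⟨OrderIso.refl ℚ, fun i => i.elim0⟩
  | succ n ih =>
    intro x y hx hy
    obtain ⟨σ, hσ⟩ := ih (fun i => x i.castSucc) (fun i => y i.castSucc)
      (hx.comp (Fin.strictMono_castSucc)) (hy.comp (Fin.strictMono_castSucc))
    rcases n with _ | n
    · refine ⟨OrderIso.addRight (y 0 - x 0), fun i => ?_⟩
      rw [show i = 0 from Fin.ext (by have := i.isLt; simp)]
      show x 0 + (y 0 - x 0) = y 0
      ring
    · have hl : ((Fin.last n).castSucc : Fin (n + 2)) < Fin.last (n + 1) := Fin.castSucc_lt_last _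
      set c := y (Fin.last n).castSucc with hc
      have hσc : σ (x (Fin.last n).castSucc) = c := hσ (Fin.last n)
      have h1 : c < σ (x (Fin.last (n + 1))) := by
        rw [← hσc]
        exact σ.lt_iff_lt.2 (hx hl)
      have h2 : c < y (Fin.last (n + 1)) := hy hl
      set r := (y (Fin.last (n + 1)) - c) / (σ (x (Fin.last (n + 1))) - c) with hr
      have hr0 : 0 < r := div_pos (by linarith) (by linarith)
      refine ⟨σ.trans ((HOM_mono c r hr0).orderIsoOfRightInverse _ (HOM_h c r⁻¹)
        (HOM_inv c r hr0)), fun i => ?_⟩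
      show HOM_h c r (σ (x i)) = y i
      induction i using Fin.lastCases with
      | last =>
        unfold HOM_h
        rw [if_neg (not_le.2 h1), hr, mul_div_cancel₀ _ (by linarith)]
        ring
      | cast i =>
        have h3 : σ (x i.castSucc) = y i.castSucc := hσ i
        have h4 : y i.castSucc ≤ c := hy.monotone (Fin.castSucc_le_castSucc_iff.2 (Fin.le_last i))
        unfold HOM_h
        rw [h3, if_pos h4]

end Pool.Agent.TPT
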