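import Pool.Agent.TPT.St

/-!
# TPT, module INC (helper60): calculus of indiscernible sequences
-/

set_option autoImplicit false
set_option linter.unusedVariables false

namespace Pool.Agent.TPT

open FirstOrder.Language Set
open scoped FirstOrder
open Pool.Agent.MNO
open Pool.Agent.TPY

section

variable {L : FirstOrder.Language.{0, 0}} {U : Type} [L.Structure U]

theorem INC_sub {α ι κ γ : Type} {C : Set U} {u u' : ι → α → U} {c c' : γ → U}
    (h : Tq L C (Sum.elim (cp u id) c) (Sum.elim (cp u' id) c')) (f : κ → ι) :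
    Tq L C (Sum.elim (cp u f) c) (Sum.elim (cp u' f) c') := by
  have h1 := tq_sub h (Sum.elim (fun v : κ × α => Sum.inl (f v.1, v.2)) Sum.inr :
    (κ × α) ⊕ γ → (ι × α) ⊕ γ)
  refine tq_congr h1 ?_ ?_ <;>
  · funext k
    rcases k with k | k <;> rfl

theorem INC_tr {α ι κ γ : Type} {C : Set U} {u u' : ι → α → U} {c c' : γ → U}
    (h : Tq L C (Sum.elim (cp u id) c) (Sum.elim (cp u' id) c')) {f g : κ → ι}
    (h1 : Tq L (C ∪ range c) (cp u f) (cp u g)) : Tq L (C ∪ range c') (cp u' f) (cp u' g) := by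
  rw [tq_fam] at h1 ⊢
  exact tq_trans (tq_symm (INC_sub h f)) (tq_trans h1 (INC_sub h g))

theorem INC_on {α ι κ : Type} [LinearOrder ι] [LinearOrder κ] {C : Set U} {I : ι → α → U} {S : Set ι}
    {S' : Set κ} {s : κ → ι} (hs : StrictMono s) (hS : ∀ k ∈ S', s k ∈ S) (hI : IndOn L C I S) :
    IndOn L C (fun k => I (s k)) S' := by
  intro κ' _ f g hf hg h
  exact hI κ' (fun k => s (f k)) (fun k => s (g k)) (fun _ _ hk => hs (hf hk)) (fun _ _ hk => hs (hg hk))
    fun k => (h k).imp (congrArg s) fun hk => ⟨hS _ hk.1, hS _ hk.2⟩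

theorem INC_in {α ι κ : Type} [LinearOrder ι] [LinearOrder κ] {C : Set U} {I : ι → α → U}
    {s : κ → ι} (hs : StrictMono s) (hI : Ind L C I) : Ind L C (fun k => I (s k)) := by
  intro κ' _ f g hf hg
  exact hI κ' (fun k => s (f k)) (fun k => s (g k)) (fun _ _ hk => hs (hf hk)) (fun _ _ hk => hs (hg hk))

theorem INC_sym {α : Type} (u : ℚ → α → U) (σ : ℚ ≃o ℚ) :
    (fun k => (fun k' => u (σ k')) (σ.symm k)) = u := by
  funext k
  exact congrArg u (σ.apply_symm_apply k)

end

theorem thm_INC : St_INC := by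
  intro L U _
  refine ⟨?_, ?_, ?_, ?_, ?_, ?_, ?_, ?_⟩
  · intro α ι _ C C' I S S' hC hS hI κ _ f g hf hg h
    exact tq_mono hC (hI κ f g hf hg fun k => (h k).imp (fun e => e) fun hk => And.intro (hS hk.1) (hS hk.2))
  · intro α ι κ _ _ C I S S' s hs hS hI
    exact INC_on hs hS hI
  · intro α ι _ C C' I hC hI κ _ f g hf hg
    exact tq_mono hC (hI κ f g hf hg)
  · intro α ι κ _ _ C I s hs hI
    exact INC_in hs hI
  · intro α C u σ S
    constructor
    · intro h
      have h1 := INC_on (S' := σ '' S) (s := σ.symm) σ.symm.strictMono (by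
        rintro _ ⟨k, hk, rfl⟩
        rw [σ.symm_apply_apply]
        exact hk) h
      rw [INC_sym u σ] at h1
      exact h1
    · intro h
      exact INC_on σ.strictMono (fun k hk => mem_image_of_mem σ hk) h
  · intro α C u σ
    constructor
    · intro h
      have h1 := INC_in (s := σ.symm) σ.symm.strictMono h
      rw [INC_sym u σ] at h1
      exact h1
    · intro h
      exact INC_in σ.strictMono h
  · intro α ι γ _ C u u' c c' S h hI κ _ f g hf hg hfg
    exact INC_tr h (hI κ f g hf hg hfg)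
  · intro α ι γ _ C u u' c c' h hI κ _ f g hf hg
    exact INC_tr h (hI κ f g hf hg)

end Pool.Agent.TPT
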