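import Pool.Agent.TPT.St

/-!
# TPT, module INF: it is enough to look at finite increasing tuples
-/

set_option autoImplicit false
set_option linter.unusedVariables false

namespace Pool.Agent.TPT

open FirstOrder.Language Set
open scoped FirstOrder
open Pool.Agent.MNO
open Pool.Agent.TPY

private theorem INF_one {L : FirstOrder.Language.{0, 0}} {U : Type} [L.Structure U] {α ι : Type}
    [LinearOrder ι] {C : Set U} {I : ι → α → U} {S : Set ι}
    (h : ∀ (n : ℕ) (f g : Fin n → ι), StrictMono f → StrictMono g →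
      (∀ k, f k = g k ∨ (f k ∈ S ∧ g k ∈ S)) → Tq L C (cp I f) (cp I g)) : IndOn L C I S := by
  classical
  intro κ _ f g hf hg hfg
  refine tq_fin fun s hs => ?_
  let K : Finset κ := hs.toFinset.image Prod.fst
  let e : Fin K.card ↪o κ := K.orderEmbOfFin rfl
  have he : ∀ i : s, ∃ j : Fin K.card, e j = i.1.1 := by
    intro i
    have h1 : i.1.1 ∈ K := Finset.mem_image_of_mem _ (hs.mem_toFinset.2 i.2)
    have h2 : i.1.1 ∈ Set.range (K.orderEmbOfFin rfl) := by
      rw [Finset.range_orderEmbOfFin]
      exact h1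
    exact h2
  choose j hj using he
  have h1 := h K.card (fun i => f (e i)) (fun i => g (e i)) (hf.comp e.strictMono)
    (hg.comp e.strictMono) fun i => hfg (e i)
  have h2 := tq_sub h1 (fun i : s => (j i, i.1.2))
  have h3 : ∀ f : κ → ι, (fun i : s => cp I (fun i => f (e i)) (j i, i.1.2)) =
      fun i : s => cp I f i := by
    intro f
    funext i
    change I (f (e (j i))) i.1.2 = I (f i.1.1) i.1.2
    rw [hj]
  rw [h3, h3] at h2
  exact h2

theorem thm_INF : St_INF := by
  intro L U _ α ι _ C I
  have h3 : Ind L C I ↔ IndOn L C I univ :=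
    ⟨fun h κ _ f g hf hg _ => h κ f g hf hg,
      fun h κ _ f g hf hg => h κ f g hf hg fun k => Or.inr ⟨mem_univ _, mem_univ _⟩⟩
  exact ⟨fun S h => INF_one h,
    fun h => h3.2 (INF_one fun n f g hf hg _ => h n f g hf hg), h3⟩

end Pool.Agent.TPT
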