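import Pool.Agent.TPT.St

/-!
# TPT, MUX: extraction of mutually indiscernible sequences (helper14)
-/

set_option autoImplicit false
set_option linter.unusedVariables false

namespace Pool.Agent.TPT

open FirstOrder.Language Set
open scoped FirstOrder
open Pool.Agent.MNO
open Pool.Agent.TPY

/-- finitely many parameters in the terms of a sequence are in finitely many terms -/
theorem MUX_finite {U κ β : Type} (D : Set U) (J : κ → β → U) {B : Set U} (hB : B.Finite) :
    B ⊆ D ∪ ran J → ∃ K : Set κ, K.Finite ∧ B ⊆ D ∪ {x | ∃ j ∈ K, ∃ a, x = J j a} := by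
  induction B, hB using Set.Finite.induction_on with
  | empty => exact fun _ => ⟨∅, finite_empty, empty_subset _⟩
  | @insert a t _ _ ih =>
    intro h
    obtain ⟨K, hK, hK'⟩ := ih (fun x hx => h (mem_insert_of_mem a hx))
    rcases h (mem_insert a t) with h1 | ⟨j, b, h1⟩
    · refine ⟨K, hK, ?_⟩
      rintro x (rfl | hx)
      · exact Or.inl h1
      · exact hK' hx
    · refine ⟨insert j K, hK.insert j, ?_⟩
      rintro x (rfl | hx)
      · exact Or.inr ⟨j, mem_insert j K, b, h1⟩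
      · rcases hK' hx with h2 | ⟨j', hj', b', h2⟩
        · exact Or.inl h2
        · exact Or.inr ⟨j', mem_insert_of_mem j hj', b', h2⟩

section

variable {L : FirstOrder.Language.{0, 0}} {U : Type} [L.Structure U]

/-- the parameters in the terms of a sequence as an increasing tuple of terms -/
theorem MUX_rep {γ β κ : Type} [LinearOrder κ] {D : Set U} {J : κ → β → U} {P : (γ → U) → Prop}
    (hP : Dp L (D ∪ ran J) P) :
    ∃ (m : ℕ) (h : Fin m → κ) (Q : (γ ⊕ (Fin m × β) → U) → Prop), StrictMono h ∧ Dp L D Q ∧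
      ∀ v, P v ↔ Q (Sum.elim v (cp J h)) := by
  classical
  obtain ⟨B, hB, hBD, hBP⟩ := dp_fin hP
  obtain ⟨K, hK, hBK⟩ := MUX_finite D J hB hBD
  let h : Fin hK.toFinset.card → κ := hK.toFinset.orderEmbOfFin rfl
  have hh : StrictMono h := (hK.toFinset.orderEmbOfFin rfl).strictMono
  have hr : ∀ j ∈ K, ∃ i, h i = j := by
    intro j hj
    have h1 : j ∈ range (hK.toFinset.orderEmbOfFin rfl) := by
      rw [Finset.range_orderEmbOfFin]
      simpa using hj
    exact h1
  have h2 : B ⊆ D ∪ range (cp J h) := by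
    intro x hx
    rcases hBK hx with h3 | ⟨j, hj, a, h3⟩
    · exact Or.inl h3
    · obtain ⟨i, hi⟩ := hr j hj
      refine Or.inr ⟨(i, a), ?_⟩
      show J (h i) a = x
      rw [hi, h3]
  obtain ⟨Q, hQ, hPQ⟩ := dp_fam (dp_mono h2 hBP)
  exact ⟨_, h, Q, hh, hQ, hPQ⟩

/-- a tuple of terms as parameters, on the right -/
theorem MUX_par {γ β κ τ : Type} {D E : Set U} {J : κ → β → U} (hDE : D ⊆ E) (hJ : ran J ⊆ E) {Q : (γ ⊕ (τ × β) → U) → Prop}
    (hQ : Dp L D Q) (h : τ → κ) : Dp L E (fun v => Q (Sum.elim v (cp J h))) :=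
  dp_par (dp_mono hDE hQ) (cp J h) fun i => hJ ⟨h i.1, i.2, rfl⟩

/-- a tuple of terms as parameters, on the left -/
theorem MUX_par' {γ β κ τ : Type} {D E : Set U} {J : κ → β → U} (hDE : D ⊆ E) (hJ : ran J ⊆ E) {Q : ((τ × β) ⊕ γ → U) → Prop}
    (hQ : Dp L D Q) (h : τ → κ) : Dp L E (fun v => Q (Sum.elim (cp J h) v)) := by
  have h1 := dp_par (dp_sub (dp_mono hDE hQ) (Sum.swap : (τ × β) ⊕ γ → γ ⊕ (τ × β))) (cp J h)
    (fun i => hJ ⟨h i.1, i.2, rfl⟩)
  refine dp_congr h1 fun v => iff_of_eq ?_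
  congr 1
  funext i
  rcases i with i | i <;> rfl

/-- definable properties of two infinite sequences depend on initial segments -/
theorem MUX_rst {α β : Type} {C : Set U} {P : ((ℕ × α) ⊕ (ℕ × β) → U) → Prop} (hP : Dp L C P) :
    ∃ (N : ℕ) (Q : ((Fin N × α) ⊕ (Fin N × β) → U) → Prop), Dp L C Q ∧
      ∀ (x : ℕ → α → U) (y : ℕ → β → U), P (Sum.elim (cp x id) (cp y id)) ↔
        Q (Sum.elim (cp x (fun i : Fin N => (i : ℕ))) (cp y (fun i : Fin N => (i : ℕ)))) := by
  obtain ⟨s, hs, Q, hQ, hPQ⟩ := dp_ffin hP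
  let fst : (ℕ × α) ⊕ (ℕ × β) → ℕ := Sum.elim (fun w => w.1) (fun w => w.1)
  obtain ⟨N, hN⟩ := (hs.image fst).bddAbove
  have h1 : ∀ k : s, ∃ j : (Fin (N + 1) × α) ⊕ (Fin (N + 1) × β),
      Sum.map (fun w => ((w.1 : ℕ), w.2)) (fun w => ((w.1 : ℕ), w.2)) j = (k : (ℕ × α) ⊕ (ℕ × β)) := by
    rintro ⟨k, hk⟩
    have h2 : fst k ≤ N := hN (mem_image_of_mem fst hk)
    rcases k with ⟨a, b⟩ | ⟨a, b⟩
    · exact ⟨Sum.inl (⟨a, Nat.lt_succ_of_le h2⟩, b), rfl⟩
    · exact ⟨Sum.inr (⟨a, Nat.lt_succ_of_le h2⟩, b), rfl⟩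
  choose σ hσ using h1
  refine ⟨N + 1, fun w => Q (fun k => w (σ k)), dp_sub hQ σ, fun x y => ?_⟩
  rw [hPQ]
  refine iff_of_eq ?_
  congr 1
  funext k
  rw [← hσ k]
  rcases σ k with w | w <;> rfl

theorem MUX_count {κ β : Type} [Countable κ] [Countable β] (J : κ → β → U) : (ran J).Countable := by
  refine (countable_range (fun v : κ × β => J v.1 v.2)).mono ?_
  rintro x ⟨j, a, rfl⟩
  exact ⟨(j, a), rfl⟩

end

theorem thm_MUX (hEXT : St_EXT) (hINC : St_INC) (hINF : St_INF) : St_MUX := by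
  intro L U _ hC α β ι κ _ _ _ _ C D I J s t hCD hD hs ht hM
  obtain ⟨hMI, hMJ⟩ := hM
  -- the two sequences of order type `ω`
  let I0 : ℕ → α → U := fun k => I (s k)
  let J0 : ℕ → β → U := fun k => J (t k)
  have hJ0 : ran J0 ⊆ ran J := by
    rintro x ⟨j, a, rfl⟩
    exact ⟨t j, a, rfl⟩
  have hI0 : ran I0 ⊆ ran I := by
    rintro x ⟨j, a, rfl⟩
    exact ⟨s j, a, rfl⟩
  -- (1)
  obtain ⟨I', hI', hI''⟩ := hEXT L U hC α ℕ (D ∪ ran J0) I0 (hD.union (MUX_count J0))
  -- (2)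
  obtain ⟨J', hJ', hJ''⟩ := hEXT L U hC β ℕ (D ∪ ran I') J0 (hD.union (MUX_count I'))
  refine ⟨I', J', ⟨?_, hJ'⟩, ?_⟩
  · -- (3)
    refine (hINF L U α ℕ (D ∪ ran J') I').2.1 ?_
    intro n f g hf hg P hP hPf
    obtain ⟨m, h, Q, hh, hQ, hPQ⟩ := MUX_rep hP
    rw [hPQ] at hPf ⊢
    have hR : Dp L (D ∪ ran I') (fun w : Fin m × β → U =>
        Q (Sum.elim (cp I' f) w) → Q (Sum.elim (cp I' g) w)) :=
      dp_imp (MUX_par' subset_union_left subset_union_right hQ f)
        (MUX_par' subset_union_left subset_union_right hQ g)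
    refine hJ'' m _ hR ?_ h hh hPf
    intro h' hh'
    exact hI' (Fin n) f g hf hg _ (MUX_par subset_union_left subset_union_right hQ h')
  · -- (4)
    intro P hP hx
    obtain ⟨N, Q, hQ, hPQ⟩ := MUX_rst hP
    have h0 : P (Sum.elim (cp I0 id) (cp J0 id)) := hx
    rw [hPQ] at h0
    rw [hPQ]
    have hv : StrictMono (fun i : Fin N => (i : ℕ)) := fun a b hab => hab
    -- all increasing tuples of `J0`
    have h1 : ∀ h' : Fin N → ℕ, StrictMono h' →
        Q (Sum.elim (cp I0 (fun i : Fin N => (i : ℕ))) (cp J0 h')) := by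
      intro h' hh'
      exact hMJ (Fin N) (fun i => t i) (fun i => t (h' i)) (ht.comp hv) (ht.comp hh') _
        (MUX_par' (J := I0) subset_union_left (hI0.trans subset_union_right) hQ (fun i : Fin N => (i : ℕ))) h0
    -- all increasing tuples of `I'`
    have h2 : ∀ h' : Fin N → ℕ, StrictMono h' →
        Q (Sum.elim (cp I' (fun i : Fin N => (i : ℕ))) (cp J0 h')) := by
      intro h' hh'
      refine hI'' N _ (MUX_par (J := J0) (hCD.trans subset_union_left) subset_union_right hQ h') ?_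
        (fun i : Fin N => (i : ℕ)) hv
      intro f hf
      exact hMI (Fin N) (fun i => s i) (fun i => s (f i)) (hs.comp hv) (hs.comp hf) _
        (MUX_par (J := J0) subset_union_left (hJ0.trans subset_union_right) hQ h') (h1 h' hh')
    exact hJ'' N _ (MUX_par' (J := I') (hCD.trans subset_union_left) subset_union_right hQ
      (fun i : Fin N => (i : ℕ))) h2 (fun i : Fin N => (i : ℕ)) hv

end Pool.Agent.TPT
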