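import Pool.Agent.TPT.St

/-!
# TPT [PLC] calculus of places (helper90)
-/

set_option autoImplicit false
set_option linter.unusedVariables false

namespace Pool.Agent.TPT

open FirstOrder.Language Set
open scoped FirstOrder
open Pool.Agent.MNO
open Pool.Agent.TPY

section

variable {L : FirstOrder.Language.{0, 0}} {U : Type} [L.Structure U] {α : Type}

private theorem PLC_two (C : Set U) (x y : U) :
    C ∪ range (fun b : Bool => if b = true then y else x) = insert x (insert y C) := by
  ext z
  simp only [mem_union, mem_range, mem_insert_iff, Bool.exists_bool]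
  constructor
  · rintro (h | h | h)
    · exact Or.inr (Or.inr h)
    · exact Or.inl h.symm
    · exact Or.inr (Or.inl h.symm)
  · rintro (h | h | h)
    · exact Or.inr (Or.inl h.symm)
    · exact Or.inr (Or.inr h.symm)
    · exact Or.inl h

private theorem PLC_one (C : Set U) (x : U) : C ∪ range (fun _ : Unit => x) = insert x C := by
  rw [range_const, union_singleton]

private theorem PLC_tq2 (C : Set U) (u u' : ℚ → α → U) (x y x' y' : U)
    (h : Tq L C (xyu x y u) (xyu x' y' u')) :
    Tq L C (Sum.elim (cp u id) (fun b : Bool => if b = true then y else x))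
      (Sum.elim (cp u' id) (fun b : Bool => if b = true then y' else x')) := by
  have h1 := tq_sub h (fun i : (ℚ × α) ⊕ Bool => Sum.elim (fun v => Sum.inr (Sum.inr v))
    (fun b => if b = true then Sum.inr (Sum.inl ()) else Sum.inl ()) i)
  refine tq_congr h1 ?_ ?_
  · funext i
    rcases i with v | b
    · rfl
    · cases b <;> rfl
  · funext i
    rcases i with v | b
    · rfl
    · cases b <;> rfl

private theorem PLC_tq1 (C : Set U) (u u' : ℚ → α → U) (x x' : U)
    (h : Tq L C (xu x u) (xu x' u')) :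
    Tq L C (Sum.elim (cp u id) (fun _ : Unit => x)) (Sum.elim (cp u' id) (fun _ : Unit => x')) := by
  have h1 := tq_sub h (fun i : (ℚ × α) ⊕ Unit => Sum.elim (fun v => Sum.inr v)
    (fun _ => Sum.inl ()) i)
  refine tq_congr h1 ?_ ?_
  · funext i
    rcases i with v | b
    · rfl
    · rfl
  · funext i
    rcases i with v | b
    · rfl
    · rfl

private theorem PLC_ne (hOVL : St_OVL) (C : Set U) (u : ℚ → α → U) (s t : ℚ) (x y : U)
    (hst : s < t) (h1 : Pl L C u s x y) (h2 : Pl L C u t x y) : False := by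
  have h3 := (hOVL L U α (insert x (insert y C)) u).1 univ s t ordConnected_univ (mem_univ s)
    (mem_univ t) hst (by rw [univ_inter]; exact h2.1) (by rw [univ_inter]; exact h1.2.1)
  exact h1.2.2 fun κ _ f g hf hg => h3 κ f g hf hg fun k => Or.inr ⟨mem_univ _, mem_univ _⟩

end

theorem thm_PLC (hINC : St_INC) (hOVL : St_OVL) : St_PLC := by
  intro L U _ α C
  obtain ⟨-, -, -, -, i5, i6, i7, i8⟩ := hINC L U
  refine ⟨?_, ?_, ?_, ?_, ?_⟩
  · intro u s x y h
    unfold Pl at h ⊢
    rwa [insert_comm y x]
  · intro u s t x y h1 h2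
    rcases lt_trichotomy s t with h | h | h
    · exact (PLC_ne hOVL C u s t x y h h1 h2).elim
    · exact h
    · exact (PLC_ne hOVL C u t s x y h h2 h1).elim
  · intro u u' s x y x' y' h h1
    have h2 := PLC_tq2 C u u' x y x' y' h
    unfold Pl at h1 ⊢
    rw [← PLC_two] at h1 ⊢
    refine ⟨i7 α ℚ Bool C u u' _ _ _ h2 h1.1, i7 α ℚ Bool C u u' _ _ _ h2 h1.2.1, fun h3 => h1.2.2 ?_⟩
    exact i8 α ℚ Bool C u' u _ _ (tq_symm h2) h3
  · intro u σ s x y
    unfold Pl
    rw [i5, i5, i6, OrderIso.image_Iio, OrderIso.image_Ioi]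
  · intro u u' x x' h h1
    have h2 := PLC_tq1 C u u' x x' h
    rw [← PLC_one] at h1 ⊢
    exact i8 α ℚ Unit C u u' _ _ h2 h1

end Pool.Agent.TPT
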