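import Pool.Agent.TPT.St

/-!
# TPT: the place of a minimal break (`PLK`)
-/

set_option autoImplicit false
set_option linter.unusedVariables false

namespace Pool.Agent.TPT

open FirstOrder.Language Set
open scoped FirstOrder
open Pool.Agent.MNO
open Pool.Agent.TPY

theorem PLK_insert {U : Type} (C : Set U) (e : ℚ → U) (K : Set ℚ) {k : ℚ} (hk : k ∈ K) :
    insert (e k) (C ∪ e '' (K \ {k})) = C ∪ e '' K := by
  ext x
  constructor
  · rintro (rfl | hx | ⟨j, hj, rfl⟩)
    · exact Or.inr ⟨k, hk, rfl⟩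
    · exact Or.inl hx
    · exact Or.inr ⟨j, hj.1, rfl⟩
  · rintro (hx | ⟨j, hj, rfl⟩)
    · exact Or.inr (Or.inl hx)
    · by_cases hjk : j = k
      · subst hjk
        exact Or.inl rfl
      · exact Or.inr (Or.inr ⟨j, ⟨hj, hjk⟩, rfl⟩)

theorem thm_PLK (hDIS : St_DIS) (hUNI : St_UNI) (hOVL : St_OVL) (hINC : St_INC) : St_PLK := by
  intro L U _ hC α _ C e u K hCc hK hind hnot hmin
  have hdis : ∀ S : Set ℚ, S.OrdConnected → Disjoint S K → IndOn L (C ∪ e '' K) u S :=
    fun S h1 h2 => (hDIS L U α C e u S K hind h1 h2).1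
  have hne : K.Nonempty := by
    rw [Set.nonempty_iff_ne_empty]
    intro h0
    apply hnot
    have h1 := hdis univ Set.ordConnected_univ (by rw [h0]; exact Set.disjoint_empty _)
    intro κ _ f g hf hg
    exact h1 κ f g hf hg fun k => Or.inr ⟨trivial, trivial⟩
  have huni : ∀ c : ℚ, IndOn L (C ∪ e '' K) u (Iio c) ∨ IndOn L (C ∪ e '' K) u (Ioi c) := by
    intro c
    obtain ⟨k, hk⟩ := hne
    have hc : (C ∪ e '' (K \ {k})).Countable :=
      hCc.union ((hK.subset Set.sdiff_subset).image e).countable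
    have h1 := hUNI L U hC α _ u (e k) hc (hmin k hk) c
    rwa [PLK_insert C e K hk] at h1
  obtain ⟨k0, hk0, hk0m⟩ := Set.exists_min_image K id hK hne
  obtain ⟨k, hk, hkm⟩ := Set.exists_max_image {k ∈ K | IndOn L (C ∪ e '' K) u (Iio k)} id
    (hK.subset (Set.sep_subset _ _))
    ⟨k0, hk0, hdis _ Set.ordConnected_Iio (Set.disjoint_left.2 fun x hx hxK =>
      absurd (hk0m x hxK) (not_le.2 hx))⟩
  refine ⟨k, hk.1, hk.2, ?_⟩
  by_cases hex : ∃ k' ∈ K, k < k'
  · obtain ⟨k1, hk1, hkk1⟩ := hex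
    obtain ⟨k', hk', hk'm⟩ := Set.exists_min_image {k' ∈ K | k < k'} id
      (hK.subset (Set.sep_subset _ _)) ⟨k1, hk1, hkk1⟩
    have hn : ¬ IndOn L (C ∪ e '' K) u (Iio k') := fun h1 =>
      absurd (hkm k' ⟨hk'.1, h1⟩) (not_le.2 hk'.2)
    have h2 : ∃ c < k', ¬ IndOn L (C ∪ e '' K) u (Iio c) := by
      by_contra h3
      apply hn
      apply (hOVL L U α (C ∪ e '' K) u).2.1 k'
      intro c hc
      by_contra h4
      exact h3 ⟨c, hc, h4⟩
    obtain ⟨c, hc, hcn⟩ := h2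
    have hci : IndOn L (C ∪ e '' K) u (Ioi c) := (huni c).resolve_left hcn
    by_cases hck : c ≤ k
    · exact (hINC L U).1 α ℚ _ _ u (Ioi c) (Ioi k) subset_rfl (Set.Ioi_subset_Ioi hck) hci
    · have hck' : k < c := not_le.1 hck
      refine (hOVL L U α (C ∪ e '' K) u).1 (Ioi k) c k' Set.ordConnected_Ioi hck' hk'.2 hc ?_ ?_
      · rw [Set.Ioi_inter_Iio]
        apply hdis _ Set.ordConnected_Ioo
        apply Set.disjoint_left.2
        intro x hx hxK
        exact absurd (hk'm x ⟨hxK, hx.1⟩) (not_le.2 hx.2)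
      · exact (hINC L U).1 α ℚ _ _ u (Ioi c) (Ioi k ∩ Ioi c) subset_rfl Set.inter_subset_right hci
  · apply hdis _ Set.ordConnected_Ioi
    apply Set.disjoint_left.2
    intro x hx hxK
    exact hex ⟨x, hxK, hx⟩

end Pool.Agent.TPT
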