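import Pool.Agent.TPT.St

/-!
# TPT: reversing the order
-/

set_option autoImplicit false
set_option linter.unusedVariables false

namespace Pool.Agent.TPT

open FirstOrder.Language Set
open scoped FirstOrder
open Pool.Agent.MNO
open Pool.Agent.TPY

theorem REV_ind {L : FirstOrder.Language.{0, 0}} {U : Type} [L.Structure U] {α : Type} {C : Set U}
    {u : ℚ → α → U} (h : Ind L C u) : Ind L C (fun k => u (-k)) := by
  intro κ _ f g hf hg
  have h1 := h κᵒᵈ (fun k => -f (OrderDual.ofDual k)) (fun k => -g (OrderDual.ofDual k))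
    (fun k k' hk => neg_lt_neg (hf hk)) (fun k k' hk => neg_lt_neg (hg hk))
  exact tq_sub h1 (fun v : κ × α => (OrderDual.toDual v.1, v.2))

theorem REV_on {L : FirstOrder.Language.{0, 0}} {U : Type} [L.Structure U] {α : Type} {C : Set U}
    {u : ℚ → α → U} {S S' : Set ℚ} (hS : ∀ k, k ∈ S' → -k ∈ S) (h : IndOn L C u S) :
    IndOn L C (fun k => u (-k)) S' := by
  intro κ _ f g hf hg hfg
  have h1 := h κᵒᵈ (fun k => -f (OrderDual.ofDual k)) (fun k => -g (OrderDual.ofDual k))
    (fun k k' hk => neg_lt_neg (hf hk)) (fun k k' hk => neg_lt_neg (hg hk)) (fun k => by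
      rcases hfg (OrderDual.ofDual k) with h2 | ⟨h2, h3⟩
      · exact Or.inl (congrArg Neg.neg h2)
      · exact Or.inr ⟨hS _ h2, hS _ h3⟩)
  exact tq_sub h1 (fun v : κ × α => (OrderDual.toDual v.1, v.2))

theorem thm_REV : St_REV := by
  intro L U _ α C u
  refine ⟨REV_ind, ?_⟩
  rintro s x y ⟨h1, h2, h3⟩
  refine ⟨REV_on (fun k hk => ?_) h2, REV_on (fun k hk => ?_) h1, fun h => h3 ?_⟩
  · exact mem_Ioi.2 (lt_neg.2 (mem_Iio.1 hk))
  · exact mem_Iio.2 (neg_lt.2 (mem_Ioi.1 hk))
  · have h4 := REV_ind h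
    simp only [neg_neg] at h4
    exact h4

end Pool.Agent.TPT
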