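import Pool.Agent.TPT.St

/-!
# TPT, module RUL: the rule for places
-/

set_option autoImplicit false
set_option linter.unusedVariables false

namespace Pool.Agent.TPT

open FirstOrder.Language Set
open scoped FirstOrder
open Pool.Agent.MNO
open Pool.Agent.TPY

/-- the case `s < t` -/
theorem RUL_lt (hUNI : St_UNI) (hDPI : St_DPI) (hOVL : St_OVL) (hPLC : St_PLC) (hINC : St_INC)
    (L : FirstOrder.Language.{0, 0}) (U : Type) [L.Structure U] (hC : Cz L U)
    (α : Type) [Finite α] (C : Set U) (u : ℚ → α → U) (x y z : U) (s t : ℚ) (hCc : C.Countable)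
    (hx : Ind L (insert x C) u) (hy : Ind L (insert y C) u) (hxz : Pl L C u s x z) (hyz : Pl L C u t y z)
    (hst : s < t) : Pl L C u s x y ∨ Pl L C u t x y := by
  obtain ⟨i1, -⟩ := hINC L U
  have hAc : (insert x (insert y C)).Countable := (hCc.insert y).insert x
  have huni : ∀ c : ℚ, IndOn L (insert x (insert y C)) u (Iio c) ∨ IndOn L (insert x (insert y C)) u (Ioi c) :=
    fun c => hUNI L U hC α (insert y C) u x (hCc.insert y) hy c
  have mono : ∀ {S S' : Set ℚ}, S' ⊆ S → IndOn L (insert x (insert y C)) u S →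
      IndOn L (insert x (insert y C)) u S' :=
    fun {S S'} h h' => i1 α ℚ _ _ u S S' (Subset.refl _) h h'
  -- CLAIM 1
  have claim1 : ∀ (S₁ S₂ : Set ℚ) (p₁ q₁ p₂ q₂ : ℚ), S₁.OrdConnected → S₂.OrdConnected → Disjoint S₁ S₂ →
      (∀ a ∈ S₁, ∃ b ∈ S₁, a < b) → (∀ a ∈ S₂, ∃ b ∈ S₂, a < b) → p₁ < s → s < q₁ → p₂ < t → t < q₂ →
      Ioo p₁ q₁ ⊆ S₁ → Ioo p₂ q₂ ⊆ S₂ → IndOn L (insert x (insert y C)) u S₁ →
      IndOn L (insert x (insert y C)) u S₂ → False := by
    intro S₁ S₂ p₁ q₁ p₂ q₂ o1 o2 hd m1 m2 a1 a2 a3 a4 b1 b2 k1 k2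
    rcases hDPI L U hC α _ u S₁ S₂ z hAc o1 o2 hd m1 m2 k1 k2 with h | h
    · apply hxz.2.2
      refine (hOVL L U α (insert x (insert z C)) u).2.2.2 s p₁ q₁ a1 a2 hxz.1 ?_ hxz.2.1
      refine i1 α ℚ _ _ u S₁ _ ?_ b1 h
      intro w hw
      rcases hw with rfl | rfl | hw
      · exact Or.inr (Or.inl rfl)
      · exact Or.inl rfl
      · exact Or.inr (Or.inr (Or.inr hw))
    · apply hyz.2.2
      refine (hOVL L U α (insert y (insert z C)) u).2.2.2 t p₂ q₂ a3 a4 hyz.1 ?_ hyz.2.1
      refine i1 α ℚ _ _ u S₂ _ ?_ b2 h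
      intro w hw
      rcases hw with rfl | rfl | hw
      · exact Or.inr (Or.inr (Or.inl rfl))
      · exact Or.inl rfl
      · exact Or.inr (Or.inr (Or.inr hw))
  have mIio : ∀ c : ℚ, ∀ a ∈ Iio c, ∃ b ∈ Iio c, a < b := by
    intro c a ha
    obtain ⟨b, h1, h2⟩ := exists_between (show a < c from ha)
    exact ⟨b, h2, h1⟩
  have mIoi : ∀ c : ℚ, ∀ a ∈ Ioi c, ∃ b ∈ Ioi c, a < b := by
    intro c a ha
    refine ⟨a + 1, ?_, by linarith⟩
    have : c < a := ha
    show c < a + 1
    linarith
  have mIoo : ∀ c d : ℚ, ∀ a ∈ Ioo c d, ∃ b ∈ Ioo c d, a < b := by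
    intro c d a ha
    obtain ⟨b, h1, h2⟩ := exists_between ha.2
    exact ⟨b, ⟨lt_trans ha.1 h1, h2⟩, h1⟩
  obtain ⟨m, hsm, hmt⟩ := exists_between hst
  have hnot : ¬ Ind L (insert x (insert y C)) u := by
    intro h
    have h' : ∀ S : Set ℚ, IndOn L (insert x (insert y C)) u S := by
      intro S κ _ f g hf hg _
      exact h κ f g hf hg
    refine claim1 (Iio m) (Ioi m) (s - 1) m m (t + 1) ordConnected_Iio ordConnected_Ioi ?_ (mIio m) (mIoi m)
      (by linarith) hsm hmt (by linarith) ?_ ?_ (h' _) (h' _)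
    · rw [Set.disjoint_left]
      intro w h1 h2
      exact lt_asymm (show w < m from h1) h2
    · intro w hw
      exact hw.2
    · intro w hw
      exact hw.1
  by_contra hcon
  push Not at hcon
  obtain ⟨hns, hnt⟩ := hcon
  -- (a)
  have hLs : IndOn L (insert x (insert y C)) u (Iio s) := by
    by_contra hL
    have : ∃ c < s, ¬ IndOn L (insert x (insert y C)) u (Iio c) := by
      by_contra h
      push Not at h
      exact hL ((hOVL L U α (insert x (insert y C)) u).2.1 s h)
    obtain ⟨c, hcs, hc⟩ := this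
    have hR : IndOn L (insert x (insert y C)) u (Ioi c) := (huni c).resolve_left hc
    refine claim1 (Ioo c m) (Ioi m) c m m (t + 1) ordConnected_Ioo ordConnected_Ioi ?_ (mIoo c m) (mIoi m)
      hcs hsm hmt (by linarith) (Subset.refl _) (fun w hw => hw.1) (mono (fun w hw => hw.1) hR)
      (mono ?_ hR)
    · rw [Set.disjoint_left]
      intro w h1 h2
      exact lt_asymm h1.2 h2
    · intro w hw
      exact lt_trans (lt_trans hcs hsm) hw
  have hRs : ¬ IndOn L (insert x (insert y C)) u (Ioi s) := fun h => hns ⟨hLs, h, hnot⟩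
  have hc0 : ∃ c, s < c ∧ c < t ∧ ¬ IndOn L (insert x (insert y C)) u (Ioi c) := by
    by_contra h
    push Not at h
    apply hRs
    refine (hOVL L U α (insert x (insert y C)) u).2.2.1 s ?_
    intro c hc
    have hmin : s < min c m := lt_min hc hsm
    have := h (min c m) hmin (lt_of_le_of_lt (min_le_right _ _) hmt)
    exact mono (fun w (hw : c < w) => lt_of_le_of_lt (min_le_left _ _) hw) this
  obtain ⟨c, hsc, hct, hRc⟩ := hc0
  have hLc : IndOn L (insert x (insert y C)) u (Iio c) := (huni c).resolve_right hRc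
  -- (b)
  have hRt : IndOn L (insert x (insert y C)) u (Ioi t) := by
    by_contra hR
    have : ∃ c' > t, ¬ IndOn L (insert x (insert y C)) u (Ioi c') := by
      by_contra h
      push Not at h
      exact hR ((hOVL L U α (insert x (insert y C)) u).2.2.1 t h)
    obtain ⟨c', htc, hc'⟩ := this
    have hL : IndOn L (insert x (insert y C)) u (Iio c') := (huni c').resolve_right hc'
    refine claim1 (Iio m) (Ioo m c') (s - 1) m m c' ordConnected_Iio ordConnected_Ioo ?_ (mIio m) (mIoo m c')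
      (by linarith) hsm hmt htc (fun w hw => hw.2) (Subset.refl _) (mono ?_ hL) (mono (fun w hw => hw.2) hL)
    · rw [Set.disjoint_left]
      intro w h1 h2
      exact lt_asymm (show w < m from h1) h2.1
    · intro w hw
      exact lt_trans (show w < m from hw) (lt_trans hmt htc)
  have hLt : ¬ IndOn L (insert x (insert y C)) u (Iio t) := fun h => hnt ⟨h, hRt, hnot⟩
  have hc1 : ∃ c', s < c' ∧ c' < t ∧ ¬ IndOn L (insert x (insert y C)) u (Iio c') := by
    by_contra h
    push Not at h
    apply hLt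
    refine (hOVL L U α (insert x (insert y C)) u).2.1 t ?_
    intro c' hc'
    have hmax : max c' m < t := max_lt hc' hmt
    have := h (max c' m) (lt_of_lt_of_le hsm (le_max_right _ _)) hmax
    exact mono (fun w (hw : w < c') => lt_of_lt_of_le hw (le_max_left _ _)) this
  obtain ⟨c', hsc', hct', hLc'⟩ := hc1
  have hRc' : IndOn L (insert x (insert y C)) u (Ioi c') := (huni c').resolve_left hLc'
  rcases lt_or_ge c' c with hcc | hcc
  · apply hnot
    have : IndOn L (insert x (insert y C)) u univ := by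
      refine (hOVL L U α (insert x (insert y C)) u).1 univ c' c ordConnected_univ trivial trivial hcc ?_ ?_
      · rw [univ_inter]; exact hLc
      · rw [univ_inter]; exact hRc'
    intro κ _ f g hf hg
    exact this κ f g hf hg (fun k => Or.inr ⟨trivial, trivial⟩)
  · refine claim1 (Iio c) (Ioi c') (s - 1) c c' (t + 1) ordConnected_Iio ordConnected_Ioi ?_ (mIio c) (mIoi c')
      (by linarith) hsc hct' (by linarith) (fun w hw => hw.2) (fun w hw => hw.1) hLc hRc'
    rw [Set.disjoint_left]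
    intro w h1 h2
    exact absurd (lt_trans (show w < c from h1) (lt_of_le_of_lt hcc h2)) (lt_irrefl _)

/-- [RUL] -/
theorem thm_RUL (hUNI : St_UNI) (hDPI : St_DPI) (hOVL : St_OVL) (hPLC : St_PLC) (hINC : St_INC) : St_RUL := by
  intro L U _ hC α _ C u x y z s t hCc hx hy hxz hyz hst
  rcases lt_or_gt_of_ne hst with h | h
  · exact RUL_lt hUNI hDPI hOVL hPLC hINC L U hC α C u x y z s t hCc hx hy hxz hyz h
  · rcases RUL_lt hUNI hDPI hOVL hPLC hINC L U hC α C u y x z t s hCc hy hx hyz hxz h with h' | h'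
    · exact Or.inr ((hPLC L U α C).1 u t y x h')
    · exact Or.inl ((hPLC L U α C).1 u s y x h')

end Pool.Agent.TPT
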