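import Pool.Agent.TPT.St

/-!
# TPT, module STI: increasing tuples of an indiscernible sequence have the same strong type
-/

set_option autoImplicit false
set_option linter.unusedVariables false

namespace Pool.Agent.TPT

open FirstOrder.Language Set
open scoped FirstOrder
open Pool.Agent.MNO
open Pool.Agent.TPY

section

variable {L : FirstOrder.Language.{0, 0}} {U : Type} [L.Structure U]

private theorem STI_mono {n : ℕ} {ι : Type} [LinearOrder ι] {f h : Fin n → ι} (hf : StrictMono f)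
    (hh : StrictMono h) (hfh : ∀ i j, f i < h j) :
    StrictMono (fun x : Fin n ⊕ₗ Fin n => Sum.elim f h (ofLex x)) := by
  intro x y hxy
  obtain ⟨x, rfl⟩ := toLex.surjective x
  obtain ⟨y, rfl⟩ := toLex.surjective y
  rcases x with x | x <;> rcases y with y | y
  · exact hf (Sum.Lex.inl_lt_inl_iff.1 hxy)
  · exact hfh x y
  · exact absurd hxy Sum.Lex.not_inr_lt_inl
  · exact hh (Sum.Lex.inr_lt_inr_iff.1 hxy)

private theorem STI_key {n : ℕ} {α ι : Type} [LinearOrder ι] {C : Set U} {I : ι → α → U}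
    (hI : Ind L C I) {E : (Fin n × α → U) → (Fin n × α → U) → Prop} (hE : FE L C E)
    {f h f' h' : Fin n → ι} (hf : StrictMono f) (hh : StrictMono h) (hfh : ∀ i j, f i < h j)
    (hf' : StrictMono f') (hh' : StrictMono h') (hfh' : ∀ i j, f' i < h' j)
    (hEf : E (cp I f) (cp I h)) : E (cp I f') (cp I h') := by
  have h1 := hI (Fin n ⊕ₗ Fin n) _ _ (STI_mono hf hh hfh) (STI_mono hf' hh' hfh')
  have h2 := dp_sub hE.dfn (Sum.elim (fun w : Fin n × α => ((toLex (Sum.inl w.1), w.2) : (Fin n ⊕ₗ Fin n) × α))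
    (fun w : Fin n × α => ((toLex (Sum.inr w.1), w.2) : (Fin n ⊕ₗ Fin n) × α)))
  exact h1 _ h2 hEf

end

theorem thm_STI (hINC : St_INC) (hINF : St_INF) : St_STI := by
  intro L U _ α ι _ _ _ _ C hC I hI n f g hf hg E hE
  obtain ⟨N, hN⟩ := fe_num hE
  obtain ⟨a, ha⟩ := ((finite_range f).union (finite_range g)).bddAbove
  obtain ⟨s, hs, hs0⟩ := Nat.exists_strictMono' a
  let h : ℕ → Fin n → ι := fun k i => s (k * n + i + 1)
  have hh : ∀ k, StrictMono (h k) := by
    intro k i j hij
    refine hs ?_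
    have h1 : (i : ℕ) < j := hij
    omega
  have hhk : ∀ k l, k < l → ∀ i j, h k i < h l j := by
    intro k l hkl i j
    refine hs ?_
    have h1 : (i : ℕ) < n := i.2
    have h2 : (k + 1) * n ≤ l * n := Nat.mul_le_mul_right n hkl
    have h3 : (k + 1) * n = k * n + n := by ring
    omega
  have hfh : ∀ i j, f i < h 0 j := by
    intro i j
    refine lt_of_le_of_lt (ha (Or.inl ⟨i, rfl⟩)) ?_
    rw [← hs0]
    exact hs (by omega)
  have hgh : ∀ i j, g i < h 0 j := by
    intro i j
    refine lt_of_le_of_lt (ha (Or.inr ⟨i, rfl⟩)) ?_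
    rw [← hs0]
    exact hs (by omega)
  obtain ⟨i, j, hij, hE1⟩ := hN (fun k => cp I (h k))
  have h1 : ∀ i' j', h i i' < h j j' := hhk i j hij
  have h2 : E (cp I f) (cp I (h 0)) := STI_key hI hE (hh i) (hh j) h1 hf (hh 0) hfh hE1
  have h3 : E (cp I g) (cp I (h 0)) := STI_key hI hE (hh i) (hh j) h1 hg (hh 0) hgh hE1
  exact hE.eqv.trans h2 (hE.eqv.symm h3)

end Pool.Agent.TPT
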