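import Pool.Agent.TPT.St

/-!
# TPT, module STR: stretching of indiscernible sequences
-/

set_option autoImplicit false
set_option linter.unusedVariables false

namespace Pool.Agent.TPT

open FirstOrder.Language Set
open scoped FirstOrder
open Pool.Agent.MNO
open Pool.Agent.TPY

/-- [STR] stretching -/
theorem thm_STR (hEXT : St_EXT) (hINC : St_INC) (hINF : St_INF) : St_STR := by
  intro L U _ hCz β ι _ _ _ C J s hC hs hJ
  obtain ⟨J', hJ'ind, hJ'⟩ := hEXT L U hCz β ι C J hC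
  have hT : Tq L C (cp J id) (cp J' s) := by
    refine tq_fin fun S hS => ?_
    obtain ⟨n, hn⟩ : ∃ n : ℕ, ∀ x ∈ S, x.1 < n := by
      obtain ⟨n, hn⟩ := (hS.image Prod.fst).bddAbove
      exact ⟨n + 1, fun x hx => Nat.lt_succ_of_le (hn ⟨x, hx, rfl⟩)⟩
    have h1 : Tq L C (cp J (fun i : Fin n => (i : ℕ))) (cp J' (fun i : Fin n => s i)) := by
      intro P hP h2
      refine hJ' n P hP (fun f hf => ?_) _ (fun i j hij => hs (Fin.lt_def.1 hij))
      exact hJ (Fin n) (fun i => (i : ℕ)) f (fun i j hij => Fin.lt_def.1 hij) hf P hP h2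
    exact tq_sub h1 (fun x : S => (⟨x.1.1, hn x.1 x.2⟩, x.1.2))
  obtain ⟨c', hc'⟩ := tq_ext' hCz hC (tq_symm hT) (cp J' id)
  have h3 : Tq L C (cp J' id) c' := tq_sub hc' Sum.inr
  refine ⟨fun j b => c' (j, b), fun κ _ f g hf hg => ?_, fun n => ?_⟩
  · have h4 : Tq L C (cp J' f) (cp (fun j b => c' (j, b)) f) :=
      tq_sub h3 (fun v : κ × β => (f v.1, v.2))
    have h5 : Tq L C (cp J' g) (cp (fun j b => c' (j, b)) g) :=
      tq_sub h3 (fun v : κ × β => (g v.1, v.2))
    exact tq_trans (tq_symm h4) (tq_trans (hJ'ind κ f g hf hg) h5)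
  · funext b
    exact ((tq_eq hc' (Sum.inl (n, b)) (Sum.inr (s n, b))).1 rfl).symm

end Pool.Agent.TPT
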