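import Pool.Agent.TPT.St

/-!
# TPT, module TR2: TR for two elements
-/

set_option autoImplicit false
set_option linter.unusedVariables false

namespace Pool.Agent.TPT

open FirstOrder.Language Set
open scoped FirstOrder
open Pool.Agent.MNO
open Pool.Agent.TPY

theorem thm_TR2 (hBLK : St_BLK) (hDSQ : St_DSQ) (hCSA : St_CSA) (hCSB : St_CSB) (hREV : St_REV) (hGMN : St_GMN)
    (hPLC : St_PLC) (hINC : St_INC) : St_TR2 := by
  intro L U _ hC α _ C u x z hCc hx hz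
  by_contra hcon
  obtain ⟨n, u₁, h1, h2, h3⟩ := hBLK L U hC α C u x z hCc hx hz hcon
  obtain ⟨e, u₂, h4, h5, h6⟩ := hDSQ L U hC (Fin n × α) C u₁ x z hCc h1 h2 h3
  have h7 := hCSA L U hC (Fin n × α) C e u₂ z hCc h4 h6
  have h8 : Ind L C (eu e u₂) := (hINC L U).2.2.1 _ _ _ _ _ (subset_insert z C) h4
  obtain ⟨C', e', u', hC', g1, g2, g3⟩ := hCSB L U hC (Fin n × α) C e u₂ hCc h8 h5 h7
  rcases g3 with g3 | g3
  · exact hGMN L U hC (Fin n × α) C' e' u' ⟨hC', g1, g2, g3⟩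
  · refine hGMN L U hC (Fin n × α) C' (fun k => e' (-k)) (fun k => u' (-k)) ⟨hC', ?_, ?_, ?_⟩
    · exact (hREV L U (Unit ⊕ (Fin n × α)) C' (eu e' u')).1 g1
    · intro k
      exact (hREV L U (Fin n × α) (insert (e' (-k)) C') u').1 (g2 (-k))
    · intro k l hkl
      have g4 := (hREV L U (Fin n × α) C' u').2 (-l) (e' (-l)) (e' (-k)) (g3 (-l) (-k) (neg_lt_neg hkl))
      rw [neg_neg] at g4
      exact (hPLC L U (Fin n × α) C').1 _ _ _ _ g4

end Pool.Agent.TPT
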