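import Pool.Agent.TPT.St

/-!
# TPT, module TRR: TR for sets of elements
-/

set_option autoImplicit false
set_option linter.unusedVariables false

namespace Pool.Agent.TPT

open FirstOrder.Language Set
open scoped FirstOrder
open Pool.Agent.MNO
open Pool.Agent.TPY

theorem TRR_fin (hTR2 : St_TR2) {L : FirstOrder.Language.{0, 0}} {U : Type} [L.Structure U] (hC : Cz L U)
    {α : Type} [Finite α] {u : ℚ → α → U} (m : ℕ) : ∀ (C : Set U) (B : Finset U), B.card ≤ m → C.Countable →
      Ind L C u → (∀ b ∈ B, Ind L (insert b C) u) → Ind L (C ∪ (B : Set U)) u := by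
  classical
  induction m with
  | zero =>
    intro C B hB hCc h0 _
    have h1 : B = ∅ := Finset.card_eq_zero.1 (Nat.le_zero.1 hB)
    subst h1
    rw [Finset.coe_empty, union_empty]
    exact h0
  | succ m ih =>
    intro C B hB hCc h0 h1
    by_cases hm : B.card ≤ m
    · exact ih C B hm hCc h0 h1
    rcases Nat.eq_zero_or_pos m with hm0 | hm0
    · -- one element
      obtain ⟨b, hb⟩ := Finset.card_eq_one.1 (show B.card = 1 by omega)
      subst hb
      rw [Finset.coe_singleton, union_singleton]
      exact h1 b (Finset.mem_singleton_self b)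
    · obtain ⟨x, hx, z, hz, hxz⟩ := Finset.one_lt_card.1 (show 1 < B.card by omega)
      let B' : Finset U := (B.erase x).erase z
      have hzx : z ∈ B.erase x := Finset.mem_erase.2 ⟨hxz.symm, hz⟩
      have hc1 : (B.erase x).card = B.card - 1 := Finset.card_erase_of_mem hx
      have hc2 : (B.erase z).card = B.card - 1 := Finset.card_erase_of_mem hz
      have hc3 : B'.card = (B.erase x).card - 1 := Finset.card_erase_of_mem hzx
      have e1 : C ∪ ((B.erase z : Finset U) : Set U) = insert x (C ∪ (B' : Set U)) := by
        ext y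
        simp only [B', mem_union, Finset.coe_erase, mem_sdiff, mem_insert_iff, Finset.mem_coe, mem_singleton_iff]
        constructor
        · rintro (h | ⟨h, h'⟩)
          · exact Or.inr (Or.inl h)
          · by_cases hyx : y = x
            · exact Or.inl hyx
            · exact Or.inr (Or.inr ⟨⟨h, hyx⟩, h'⟩)
        · rintro (rfl | h | ⟨⟨h, h'⟩, h''⟩)
          · exact Or.inr ⟨hx, hxz⟩
          · exact Or.inl h
          · exact Or.inr ⟨h, h''⟩
      have e2 : C ∪ ((B.erase x : Finset U) : Set U) = insert z (C ∪ (B' : Set U)) := by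
        ext y
        simp only [B', mem_union, Finset.coe_erase, mem_sdiff, mem_insert_iff, Finset.mem_coe, mem_singleton_iff]
        constructor
        · rintro (h | ⟨h, h'⟩)
          · exact Or.inr (Or.inl h)
          · by_cases hyz : y = z
            · exact Or.inl hyz
            · exact Or.inr (Or.inr ⟨⟨h, h'⟩, hyz⟩)
        · rintro (rfl | h | ⟨⟨h, h'⟩, h''⟩)
          · exact Or.inr ⟨hz, hxz.symm⟩
          · exact Or.inl h
          · exact Or.inr ⟨h, h'⟩
      have e3 : C ∪ (B : Set U) = insert x (insert z (C ∪ (B' : Set U))) := by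
        ext y
        simp only [B', mem_union, Finset.coe_erase, mem_sdiff, mem_insert_iff, Finset.mem_coe, mem_singleton_iff]
        constructor
        · rintro (h | h)
          · exact Or.inr (Or.inr (Or.inl h))
          · by_cases hyx : y = x
            · exact Or.inl hyx
            · by_cases hyz : y = z
              · exact Or.inr (Or.inl hyz)
              · exact Or.inr (Or.inr (Or.inr ⟨⟨h, hyx⟩, hyz⟩))
        · rintro (rfl | rfl | h | ⟨⟨h, -⟩, -⟩)
          · exact Or.inr hx
          · exact Or.inr hz
          · exact Or.inl h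
          · exact Or.inr h
      have h2 := ih C (B.erase z) (by omega) hCc h0 fun b hb => h1 b (Finset.mem_of_mem_erase hb)
      have h3 := ih C (B.erase x) (by omega) hCc h0 fun b hb => h1 b (Finset.mem_of_mem_erase hb)
      rw [e1] at h2
      rw [e2] at h3
      rw [e3]
      exact hTR2 L U hC α (C ∪ (B' : Set U)) u x z (hCc.union B'.finite_toSet.countable) h2 h3

theorem thm_TRR (hTR2 : St_TR2) (hINC : St_INC) (hINF : St_INF) : St_TRR := by
  classical
  intro L U _ hC α _ C B u hCc h0 h1
  refine (hINF L U α ℚ (C ∪ B) u).2.1 fun n f g hf hg => ?_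
  intro P hP hx
  obtain ⟨D, hD, hDs, hP'⟩ := dp_fin hP
  have hf' : (D ∩ B).Finite := hD.subset inter_subset_left
  have h2 := TRR_fin hTR2 hC (u := u) hf'.toFinset.card C hf'.toFinset le_rfl hCc h0
    (fun b hb => h1 b ((hf'.mem_toFinset.1 hb).2))
  refine h2 (Fin n) f g hf hg P (dp_mono ?_ hP') hx
  intro y hy
  rcases hDs hy with h3 | h3
  · exact Or.inl h3
  · exact Or.inr (by rw [Finite.coe_toFinset]; exact ⟨hy, h3⟩)

end Pool.Agent.TPT
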