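import Pool.Agent.TPT.St

/-!
# TPT: one element breaks an indiscernible sequence at one place only
-/

set_option autoImplicit false
set_option linter.unusedVariables false

namespace Pool.Agent.TPT

open FirstOrder.Language Set
open scoped FirstOrder
open Pool.Agent.MNO
open Pool.Agent.TPY

theorem thm_UNI (hDPI : St_DPI) (hINC : St_INC) (hINF : St_INF) : St_UNI := by
  intro L U _ hC α _ C u z hCc hu c
  have hin : IndOn L C u univ := ((hINF L U α ℚ C u).2.2).1 hu
  have i1 := (hINC L U).1
  refine hDPI L U hC α C u (Iio c) (Ioi c) z hCc ordConnected_Iio ordConnected_Ioi ?_ ?_ ?_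
    (i1 α ℚ C C u univ (Iio c) subset_rfl (subset_univ _) hin)
    (i1 α ℚ C C u univ (Ioi c) subset_rfl (subset_univ _) hin)
  · rw [Set.disjoint_left]
    intro x hx hx'
    exact lt_asymm (mem_Iio.1 hx) (mem_Ioi.1 hx')
  · intro x hx
    obtain ⟨y, h1, h2⟩ := exists_between (mem_Iio.1 hx)
    exact ⟨y, h2, h1⟩
  · intro x hx
    obtain ⟨y, hy⟩ := exists_gt x
    exact ⟨y, lt_trans (mem_Ioi.1 hx) hy, hy⟩

end Pool.Agent.TPT
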