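import Pool.Agent.TPT.St

/-!
# TPT, module WIT: the formula which sees the break
-/

set_option autoImplicit false
set_option linter.unusedVariables false

namespace Pool.Agent.TPT

open FirstOrder.Language Set
open scoped FirstOrder
open Pool.Agent.MNO
open Pool.Agent.TPY

/-- The contraction towards `1`. -/
private def WIT_tau (j : ℚ) : ℚ := 1 + (1 / 4) * ((j - 1) / (1 + |j - 1|))

private theorem WIT_one : WIT_tau 1 = 1 := by
  unfold WIT_tau
  simp

private theorem WIT_mono : StrictMono WIT_tau := by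
  intro a b hab
  unfold WIT_tau
  have h1 : (0 : ℚ) < 1 + |a - 1| := by positivity
  have h2 : (0 : ℚ) < 1 + |b - 1| := by positivity
  have h3 : (a - 1) / (1 + |a - 1|) < (b - 1) / (1 + |b - 1|) := by
    rw [div_lt_div_iff₀ h1 h2]
    rcases abs_cases (a - 1) with ⟨h4, h5⟩ | ⟨h4, h5⟩ <;>
      rcases abs_cases (b - 1) with ⟨h6, h7⟩ | ⟨h6, h7⟩ <;> rw [h4, h6] <;> nlinarith
  linarith

private theorem WIT_rng (j : ℚ) : 3 / 4 < WIT_tau j ∧ WIT_tau j < 5 / 4 := by
  unfold WIT_tau
  have h1 : (0 : ℚ) < 1 + |j - 1| := by positivity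
  have h2 : (j - 1) / (1 + |j - 1|) < 1 := by
    rw [div_lt_one h1]
    have := le_abs_self (j - 1)
    linarith
  have h3 : -1 < (j - 1) / (1 + |j - 1|) := by
    rw [lt_div_iff₀ h1]
    have := neg_abs_le (j - 1)
    linarith
  constructor <;> linarith

private theorem WIT_lt {j : ℚ} (h : j < 1) : WIT_tau j < 1 := by
  have := WIT_mono h
  rwa [WIT_one] at this

private theorem WIT_gt {j : ℚ} (h : 1 < j) : 1 < WIT_tau j := by
  have := WIT_mono h
  rwa [WIT_one] at this

private theorem WIT_move {L : FirstOrder.Language.{0, 0}} {U : Type} [L.Structure U] {α : Type}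
    {C : Set U} {u : ℚ → α → U} (h1 : IndOn L C u (Iio 1)) (h2 : IndOn L C u (Ioi 1)) {p : ℕ}
    (f : Fin p → ℚ) (hf : StrictMono f) : Tq L C (cp u f) (cp u (fun k => WIT_tau (f k))) := by
  let s : ℚ → ℚ := fun j => if j < 1 then WIT_tau j else j
  have hs : StrictMono s := by
    intro a b hab
    show (if a < 1 then WIT_tau a else a) < (if b < 1 then WIT_tau b else b)
    by_cases ha : a < 1
    · rw [if_pos ha]
      by_cases hb : b < 1
      · rw [if_pos hb]; exact WIT_mono hab
      · rw [if_neg hb]; exact lt_of_lt_of_le (WIT_lt ha) (not_lt.1 hb)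
    · rw [if_neg ha]
      have hb : ¬ b < 1 := fun hb => ha (hab.trans hb)
      rw [if_neg hb]; exact hab
  have h3 : Tq L C (cp u f) (cp u (fun k => s (f k))) := by
    refine h1 (Fin p) f (fun k => s (f k)) hf (fun a b hab => hs (hf hab)) fun k => ?_
    by_cases hk : f k < 1
    · refine Or.inr ⟨hk, ?_⟩
      show (if f k < 1 then WIT_tau (f k) else f k) < 1
      rw [if_pos hk]; exact WIT_lt hk
    · left
      show f k = (if f k < 1 then WIT_tau (f k) else f k)
      rw [if_neg hk]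
  have h4 : Tq L C (cp u (fun k => s (f k))) (cp u (fun k => WIT_tau (f k))) := by
    refine h2 (Fin p) _ _ (fun a b hab => hs (hf hab)) (fun a b hab => WIT_mono (hf hab)) fun k => ?_
    by_cases hk : f k < 1
    · left
      show (if f k < 1 then WIT_tau (f k) else f k) = WIT_tau (f k)
      rw [if_pos hk]
    · rcases lt_or_eq_of_le (not_lt.1 hk) with h5 | h5
      · right
        refine ⟨?_, WIT_gt h5⟩
        show 1 < (if f k < 1 then WIT_tau (f k) else f k)
        rw [if_neg hk]; exact h5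
      · left
        show (if f k < 1 then WIT_tau (f k) else f k) = WIT_tau (f k)
        rw [if_neg hk, ← h5, WIT_one]
  exact tq_trans h3 h4

theorem thm_WIT (hINF : St_INF) (hINC : St_INC) : St_WIT := by
  classical
  intro L U _ α C e u hG
  obtain ⟨h1, h2, h3⟩ := hG.two 0 1 one_pos
  have h4 : ∃ (p : ℕ) (f g : Fin p → ℚ), StrictMono f ∧ StrictMono g ∧
      ¬ Tq L (insert (e 0) (insert (e 1) C)) (cp u f) (cp u g) := by
    by_contra hcon
    apply h3
    apply (hINF L U α ℚ _ u).2.1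
    intro n f g hf hg
    by_contra hn
    exact hcon ⟨n, f, g, hf, hg, hn⟩
  obtain ⟨p, f₀, g₀, hf₀, hg₀, h5⟩ := h4
  have h6 : ∃ P : (Fin p × α → U) → Prop, Dp L (insert (e 0) (insert (e 1) C)) P ∧
      P (cp u f₀) ∧ ¬ P (cp u g₀) := by
    by_contra hcon
    apply h5
    intro P hP hPf
    by_contra hn
    exact hcon ⟨P, hP, hPf, hn⟩
  obtain ⟨P, hP, hPf, hPg⟩ := h6
  have h7 : P (cp u (fun k => WIT_tau (f₀ k))) := (tq_iff (WIT_move h1 h2 f₀ hf₀) hP).1 hPf
  have h8 : ¬ P (cp u (fun k => WIT_tau (g₀ k))) := fun h =>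
    hPg ((tq_iff (WIT_move h1 h2 g₀ hg₀) hP).2 h)
  let X : Finset ℚ := Finset.univ.image (fun k => WIT_tau (f₀ k)) ∪
    Finset.univ.image (fun k => WIT_tau (g₀ k))
  have hXf : ∀ k, WIT_tau (f₀ k) ∈ X := fun k =>
    Finset.mem_union_left _ (Finset.mem_image_of_mem _ (Finset.mem_univ k))
  have hXg : ∀ k, WIT_tau (g₀ k) ∈ X := fun k =>
    Finset.mem_union_right _ (Finset.mem_image_of_mem _ (Finset.mem_univ k))
  have hX : ∀ q ∈ X, 3 / 4 < q ∧ q < 5 / 4 := by
    intro q hq
    rcases Finset.mem_union.1 hq with h | h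
    · obtain ⟨k, -, rfl⟩ := Finset.mem_image.1 h
      exact WIT_rng _
    · obtain ⟨k, -, rfl⟩ := Finset.mem_image.1 h
      exact WIT_rng _
  let x : Fin X.card ↪o ℚ := X.orderEmbOfFin rfl
  have hrg : ∀ q ∈ X, ∃ i, x i = q := by
    intro q hq
    have h9 : q ∈ Set.range (X.orderEmbOfFin rfl) := by
      rw [Finset.range_orderEmbOfFin]
      exact hq
    exact h9
  choose f hf using fun k => hrg _ (hXf k)
  choose g hg using fun k => hrg _ (hXg k)
  have hfm : StrictMono f := by
    intro a b hab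
    rw [← x.lt_iff_lt, hf, hf]
    exact WIT_mono (hf₀ hab)
  have hgm : StrictMono g := by
    intro a b hab
    rw [← x.lt_iff_lt, hg, hg]
    exact WIT_mono (hg₀ hab)
  have hP' : Dp L (C ∪ range (fun c : Bool => if c = true then e 1 else e 0)) P := by
    refine dp_mono ?_ hP
    rintro y (rfl | rfl | hy)
    · exact Or.inr ⟨false, by simp⟩
    · exact Or.inr ⟨true, by simp⟩
    · exact Or.inl hy
  obtain ⟨Q, hQ, hPQ⟩ := dp_fam hP'
  let σ : (Fin p → Fin X.card) → (Fin p × α) ⊕ Bool → (Fin X.card × α) ⊕ Bool := fun s =>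
    Sum.map (fun v => (s v.1, v.2)) id
  have hσ : ∀ (s : Fin p → Fin X.card) (b : Fin X.card × α → U) (c : Bool → U),
      (fun i => (Sum.elim b c : (Fin X.card × α) ⊕ Bool → U) (σ s i)) =
        Sum.elim (fun v : Fin p × α => b (s v.1, v.2)) c := by
    intro s b c
    funext i
    rcases i with i | i <;> rfl
  refine ⟨X.card, p, x, f, g, fun v => (Q (fun i => v (σ f i)) ↔ ¬ Q (fun i => v (σ g i))),
    x.strictMono, hfm, hgm, ?_, dp_iff (dp_sub hQ (σ f)) (dp_not (dp_sub hQ (σ g))), ?_, ?_⟩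
  · intro i
    exact hX _ (X.orderEmbOfFin_mem rfl i)
  · show (Q _ ↔ ¬ Q _)
    rw [hσ, hσ]
    have e1 : (fun v : Fin p × α => cp u x (f v.1, v.2)) = cp u (fun k => WIT_tau (f₀ k)) := by
      funext v
      show u (x (f v.1)) v.2 = u (WIT_tau (f₀ v.1)) v.2
      rw [hf]
    have e2 : (fun v : Fin p × α => cp u x (g v.1, v.2)) = cp u (fun k => WIT_tau (g₀ k)) := by
      funext v
      show u (x (g v.1)) v.2 = u (WIT_tau (g₀ v.1)) v.2
      rw [hg]
    rw [e1, e2, ← hPQ, ← hPQ]
    exact ⟨fun _ => h8, fun _ => h7⟩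
  · intro b y w hT hΨ
    have hΨ' : (Q _ ↔ ¬ Q _) := hΨ
    rw [hσ, hσ] at hΨ'
    have hD : Dp L (insert y (insert w C)) (fun v : Fin p × α → U =>
        Q (Sum.elim v (fun c : Bool => if c = true then y else w))) := by
      refine dp_par (dp_mono ?_ hQ) _ ?_
      · intro z hz
        exact Or.inr (Or.inr hz)
      · intro c
        cases c
        · exact Or.inr (Or.inl (by simp))
        · exact Or.inl (by simp)
    have h10 := tq_iff hT hD
    rw [h10] at hΨ'
    exact iff_not_self hΨ'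

end Pool.Agent.TPT
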