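import Pool.Agent.TPT.TRI
import Pool.Agent.TPT.TRR
import Pool.Agent.TPT.TR2
import Pool.Agent.TPT.GMN
import Pool.Agent.TPT.GMA
import Pool.Agent.TPT.GMB
import Pool.Agent.TPT.GM0
import Pool.Agent.TPT.BLK
import Pool.Agent.TPT.BLX
import Pool.Agent.TPT.CJK
import Pool.Agent.TPT.CNV
import Pool.Agent.TPT.CSA
import Pool.Agent.TPT.DPI
import Pool.Agent.TPT.DSQ
import Pool.Agent.TPT.HOM
import Pool.Agent.TPT.INC
import Pool.Agent.TPT.INF
import Pool.Agent.TPT.MUX
import Pool.Agent.TPT.OVL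
import Pool.Agent.TPT.PLC
import Pool.Agent.TPT.REV
import Pool.Agent.TPT.RUL
import Pool.Agent.TPT.STI
import Pool.Agent.TPT.STR
import Pool.Agent.TPT.TAL
import Pool.Agent.TPT.UNI
import Pool.Agent.TPT.CSB
import Pool.Agent.TPT.DIS
import Pool.Agent.TPT.PLK
import Pool.Agent.TPT.WIT

/-!
# TPT/ALLa: the assembly of the block TR (triviality of indiscernible sequences), conditional form
-/

set_option autoImplicit false

namespace Pool.Agent.TPT

/-- everything from the roots EXT, DPS -/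
theorem all_TRRa (hEXT : St_EXT) (hDPS : St_DPS) : St_TRR := by
  have hINC : St_INC := thm_INC
  have hINF : St_INF := thm_INF
  have hCNV : St_CNV := thm_CNV
  have hOVL : St_OVL := thm_OVL hINF hINC
  have hPLC : St_PLC := thm_PLC hINC hOVL
  have hDPI : St_DPI := thm_DPI hDPS hCNV hINC hINF
  have hUNI : St_UNI := thm_UNI hDPI hINC hINF
  have hRUL : St_RUL := thm_RUL hUNI hDPI hOVL hPLC hINC
  have hWIT : St_WIT := thm_WIT hINF hINC
  have hDIS : St_DIS := thm_DIS hINC hINF hCNV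
  have hPLK : St_PLK := thm_PLK hDIS hUNI hOVL hINC
  have hCSB : St_CSB := thm_CSB hPLK (thm_CJK hINC) hDIS thm_HOM hINC hINF
  have hBLK : St_BLK := thm_BLK hINF hUNI hOVL thm_BLX
  have hDSQ : St_DSQ := thm_DSQ hEXT hPLC hINC hINF
  have hCSA : St_CSA := thm_CSA hINF
  have hGM0 : St_GM0 := thm_GM0
  have hGMA : St_GMA := thm_GMA hGM0 hWIT hRUL hPLC thm_HOM hINC
  have hGMB : St_GMB := thm_GMB hGM0 hWIT hRUL hPLC thm_HOM hINC
  have hGMN : St_GMN := thm_GMN hGM0 hGMA hGMB hPLC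
  have hTR2 : St_TR2 := thm_TR2 hBLK hDSQ hCSA hCSB thm_REV hGMN hPLC hINC
  exact thm_TRR hTR2 hINC hINF

theorem all_TRIa (hEXT : St_EXT) (hDPS : St_DPS) : TPY.St_TRI :=
  thm_TRI thm_INF (all_TRRa hEXT hDPS)

theorem all_DPMa (hDPS : St_DPS) : TPY.St_DPM := thm_DPM thm_INF thm_INC hDPS

end Pool.Agent.TPT
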