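import Pool.Agent.TPY.Tq0

/-!
# TPT: types of infinite tuples
-/

set_option autoImplicit false
set_option linter.unusedVariables false

namespace Pool.Agent.TPT

open FirstOrder.Language Set
open scoped FirstOrder
open Pool.Agent.MNO
open Pool.Agent.TPY

variable {L : FirstOrder.Language.{0, 0}} {U : Type} [L.Structure U] {A B : Set U}

/-- infinite tuples have the same type if all their finite subtuples do -/
theorem tq_fin {α : Type} {x y : α → U}
    (h : ∀ s : Set α, s.Finite → Tq L A (fun i : s => x i) (fun i : s => y i)) : Tq L A x y := by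
  intro P hP hx
  obtain ⟨s, hs, Q, hQ, hPQ⟩ := dp_ffin hP
  rw [hPQ] at hx ⊢
  exact h s hs Q hQ hx

end Pool.Agent.TPT
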