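import Pool.Agent.TPT.St

/-!
# TPT [OVL]: overlapping parts, and limits
-/

set_option autoImplicit false
set_option linter.unusedVariables false

namespace Pool.Agent.TPT

open FirstOrder.Language Set
open scoped FirstOrder
open Pool.Agent.MNO
open Pool.Agent.TPY

theorem OVL_h {δ x y : ℚ} (hδ : 0 < δ) (hx : 0 < x) (hxy : x < y) :
    δ * x / (δ + x) < δ * y / (δ + y) := by
  have h1 : 0 < δ + x := by linarith
  have h2 : 0 < δ + y := by linarith
  rw [div_lt_div_iff₀ h1 h2]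
  nlinarith [mul_pos hδ hδ, mul_pos hδ hx, mul_lt_mul_of_pos_left hxy (mul_pos hδ hδ)]

theorem OVL_tau {S : Set ℚ} (hS : S.OrdConnected) {s c : ℚ} (hs : s ∈ S) (hc : c ∈ S)
    (hsc : s < c) : ∃ τ : ℚ → ℚ, StrictMono τ ∧ (∀ j, j ∈ S → j < c → s < τ j ∧ τ j < c) ∧
      ∀ j, ¬ (j ∈ S ∧ j < c) → τ j = j := by
  classical
  obtain ⟨δ, hδ⟩ : ∃ δ, δ = c - s := ⟨_, rfl⟩
  have hδ0 : 0 < δ := by linarith
  obtain ⟨τ, hτ⟩ : ∃ τ : ℚ → ℚ, τ = fun j => if j ∈ S ∧ j < c then
    c - δ * (c - j) / (δ + (c - j)) else j := ⟨_, rfl⟩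
  have h1 : ∀ j, j ∈ S → j < c → τ j = c - δ * (c - j) / (δ + (c - j)) := by
    intro j hj hjc
    rw [hτ]
    simp only [hj, hjc, and_self, if_true]
  have h2 : ∀ j, ¬ (j ∈ S ∧ j < c) → τ j = j := by
    intro j hj
    rw [hτ]
    simp only [hj, if_false]
  have h3 : ∀ j, j ∈ S → j < c → s < τ j ∧ τ j < c := by
    intro j hj hjc
    rw [h1 j hj hjc]
    have h4 : 0 < c - j := by linarith
    have h5 : 0 < δ * (c - j) / (δ + (c - j)) := by positivity
    have h6 : δ * (c - j) / (δ + (c - j)) < δ := by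
      rw [div_lt_iff₀ (by linarith)]
      nlinarith [mul_pos hδ0 hδ0]
    constructor
    · linarith
    · linarith
  refine ⟨τ, ?_, h3, h2⟩
  intro i j hij
  by_cases hi : i ∈ S ∧ i < c
  · by_cases hj : j ∈ S ∧ j < c
    · rw [h1 i hi.1 hi.2, h1 j hj.1 hj.2]
      have := OVL_h hδ0 (x := c - j) (y := c - i) (by linarith [hj.2]) (by linarith)
      linarith
    · rw [h2 j hj]
      have h4 : c ≤ j := by
        by_contra h4
        exact hj ⟨hS.out hi.1 hc ⟨hij.le, (not_le.1 h4).le⟩, not_le.1 h4⟩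
      exact lt_of_lt_of_le (h3 i hi.1 hi.2).2 h4
  · rw [h2 i hi]
    by_cases hj : j ∈ S ∧ j < c
    · have h4 : i ∉ S := fun h => hi ⟨h, hij.trans hj.2⟩
      have h5 : i < s := by
        by_contra h5
        exact h4 (hS.out hs hj.1 ⟨not_lt.1 h5, hij.le⟩)
      exact h5.trans (h3 j hj.1 hj.2).1
    · rw [h2 j hj]
      exact hij

theorem OVL_one {L : FirstOrder.Language.{0, 0}} {U : Type} [L.Structure U] {α : Type} {C : Set U}
    {u : ℚ → α → U} (S : Set ℚ) (s c : ℚ) (hS : S.OrdConnected) (hs : s ∈ S) (hc : c ∈ S)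
    (hsc : s < c) (h1 : IndOn L C u (S ∩ Iio c)) (h2 : IndOn L C u (S ∩ Ioi s)) :
    IndOn L C u S := by
  obtain ⟨τ, hτ, hτ1, hτ2⟩ := OVL_tau hS hs hc hsc
  have hτS : ∀ j, j ∈ S → τ j ∈ S ∩ Ioi s := by
    intro j hj
    by_cases hjc : j < c
    · have h3 := hτ1 j hj hjc
      exact ⟨hS.out hs hc ⟨h3.1.le, h3.2.le⟩, h3.1⟩
    · have h3 := hτ2 j fun h => hjc h.2
      rw [h3]
      exact ⟨hj, lt_of_lt_of_le hsc (not_lt.1 hjc)⟩
  intro κ _ f g hf hg hfg
  have key : ∀ f : κ → ℚ, StrictMono f → Tq L C (cp u f) (cp u (fun k => τ (f k))) := by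
    intro f hf
    refine h1 κ f (fun k => τ (f k)) hf (fun a b hab => hτ (hf hab)) fun k => ?_
    by_cases hk : f k ∈ S ∧ f k < c
    · have h3 := hτ1 _ hk.1 hk.2
      exact Or.inr ⟨hk, (hτS _ hk.1).1, h3.2⟩
    · exact Or.inl (hτ2 _ hk).symm
  have hmid : Tq L C (cp u (fun k => τ (f k))) (cp u (fun k => τ (g k))) := by
    refine h2 κ _ _ (fun a b hab => hτ (hf hab)) (fun a b hab => hτ (hg hab)) fun k => ?_
    rcases hfg k with h3 | h3
    · exact Or.inl (by rw [h3])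
    · exact Or.inr ⟨hτS _ h3.1, hτS _ h3.2⟩
  exact tq_trans (key f hf) (tq_trans hmid (tq_symm (key g hg)))

/-- [OVL] overlapping parts, and limits -/
theorem thm_OVL (hINF : St_INF) (hINC : St_INC) : St_OVL := by
  intro L U _ α C u
  have hF := hINF L U α ℚ C u
  have hM := (hINC L U).1 α ℚ C C u
  refine ⟨OVL_one, ?_, ?_, ?_⟩
  · intro s h
    refine hF.1 (Iio s) fun n f g hf hg hfg => ?_
    have h1 : ∀ᶠ c in nhdsWithin s (Iio s), ∀ k, f k < s ∧ g k < s → f k < c ∧ g k < c := by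
      rw [Filter.eventually_all]
      intro k
      by_cases hk : f k < s ∧ g k < s
      · have h2 := Ioo_mem_nhdsLT (max_lt hk.1 hk.2)
        filter_upwards [h2] with c hc _
        exact ⟨lt_of_le_of_lt (le_max_left _ _) hc.1, lt_of_le_of_lt (le_max_right _ _) hc.1⟩
      · exact Filter.Eventually.of_forall fun c hc => absurd hc hk
    obtain ⟨c, h2, h3⟩ := (h1.and self_mem_nhdsWithin).exists
    refine h c h3 _ f g hf hg fun k => ?_
    rcases hfg k with h4 | h4
    · exact Or.inl h4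
    · exact Or.inr (h2 k h4)
  · intro s h
    refine hF.1 (Ioi s) fun n f g hf hg hfg => ?_
    have h1 : ∀ᶠ c in nhdsWithin s (Ioi s), ∀ k, s < f k ∧ s < g k → c < f k ∧ c < g k := by
      rw [Filter.eventually_all]
      intro k
      by_cases hk : s < f k ∧ s < g k
      · have h2 := Ioo_mem_nhdsGT (lt_min hk.1 hk.2)
        filter_upwards [h2] with c hc _
        exact ⟨lt_of_lt_of_le hc.2 (min_le_left _ _), lt_of_lt_of_le hc.2 (min_le_right _ _)⟩
      · exact Filter.Eventually.of_forall fun c hc => absurd hc hk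
    obtain ⟨c, h2, h3⟩ := (h1.and self_mem_nhdsWithin).exists
    refine h c h3 _ f g hf hg fun k => ?_
    rcases hfg k with h4 | h4
    · exact Or.inl h4
    · exact Or.inr (h2 k h4)
  · intro s p q hps hsq h1 h2 h3
    have h4 : IndOn L C u (Iio q) := by
      refine OVL_one (Iio q) p s ordConnected_Iio (hps.trans hsq) hsq hps
        (hM _ _ le_rfl inter_subset_right h1) (hM _ _ le_rfl ?_ h2)
      rintro x ⟨hx1, hx2⟩
      exact ⟨hx2, hx1⟩
    rw [hF.2.2]
    exact OVL_one univ s q ordConnected_univ (mem_univ _) (mem_univ _) hsq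
      (hM _ _ le_rfl inter_subset_right h4) (hM _ _ le_rfl inter_subset_right h3)

end Pool.Agent.TPT
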