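import Pool.Agent.TPY.Tq0
import Pool.Agent.TPY.Fr2
import Pool.Agent.TPY.ARR
import Pool.Agent.TPT.Base

/-!
# TPT: statements (helper58), with proofs in the docstrings: dp-minimality and TR (indiscernible triviality) in the
frame `Cz` (monadically NIP structures, without invariant types).

CONVENTIONS.  `Cz L U`: the frame (`TPY/Defs.lean`).  `Tq L C x y`: same type over `C`; lemmas `tq_refl`, `tq_symm`, `tq_trans`,
`tq_mono`, `tq_sub`, `tq_add`, `tq_fam`, `tq_ext'`, `dp_ffin` in `TPY/Tq0.lean`, `tq_fin` below (`Base.lean`); `sat_dp`, `dp_cnt` in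
`TPY/Fr1.lean`; `fe_num` in `TPY/Fr2.lean`.  ARR: theorem `Pool.Agent.TPY.arr` (`TPY/ARR.lean`): there are no one-sided arrays
(`OAr P s t N`) of arbitrary size.
Every module `XXX` is a file `Pool/Agent/TPT/XXX.lean`, namespace `Pool.Agent.TPT`, with a theorem
`thm_XXX (hAAA : St_AAA) .. : St_XXX`, where the hypotheses are the statements quoted in its proof.  All index types are in `Type`.
-/

set_option autoImplicit false
set_option linter.unusedVariables false

namespace Pool.Agent.TPT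

open FirstOrder.Language Set
open scoped FirstOrder
open Pool.Agent.MNO
open Pool.Agent.TPY

section

variable (L : FirstOrder.Language.{0, 0}) {U : Type} [L.Structure U]

/-- the terms `I (f k)`, `k : κ`, as one tuple -/
def cp {α ι κ : Type} (I : ι → α → U) (f : κ → ι) : κ × α → U := fun v => I (f v.1) v.2

/-- the elements of the terms of `I` -/
def ran {α ι : Type} (I : ι → α → U) : Set U := {x | ∃ j a, x = I j a}

/-- `I` is indiscernible over `C` -/
def Ind (C : Set U) {α ι : Type} [LinearOrder ι] (I : ι → α → U) : Prop :=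
  ∀ (κ : Type) [LinearOrder κ] (f g : κ → ι), StrictMono f → StrictMono g → Tq L C (cp I f) (cp I g)

/-- `I` is indiscernible on `S`, over `C` and all the terms outside `S` (for convex `S`: see CNV) -/
def IndOn (C : Set U) {α ι : Type} [LinearOrder ι] (I : ι → α → U) (S : Set ι) : Prop :=
  ∀ (κ : Type) [LinearOrder κ] (f g : κ → ι), StrictMono f → StrictMono g →
    (∀ k, f k = g k ∨ (f k ∈ S ∧ g k ∈ S)) → Tq L C (cp I f) (cp I g)

/-- `I`, `J` are mutually indiscernible over `C` -/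
def Mut (C : Set U) {α β ι κ : Type} [LinearOrder ι] [LinearOrder κ] (I : ι → α → U) (J : κ → β → U) : Prop :=
  Ind L (C ∪ ran J) I ∧ Ind L (C ∪ ran I) J

/-- `x`, `y` break `u` over `C` exactly at the place `s` -/
def Pl (C : Set U) {α : Type} (u : ℚ → α → U) (s : ℚ) (x y : U) : Prop :=
  IndOn L (insert x (insert y C)) u (Iio s) ∧ IndOn L (insert x (insert y C)) u (Ioi s) ∧
    ¬ Ind L (insert x (insert y C)) u

/-- the element `x` and the sequence `u` as one tuple -/
def xu {α : Type} (x : U) (u : ℚ → α → U) : Unit ⊕ (ℚ × α) → U := Sum.elim (fun _ => x) (cp u id)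

/-- the elements `x`, `y` and the sequence `u` as one tuple -/
def xyu {α : Type} (x y : U) (u : ℚ → α → U) : Unit ⊕ (Unit ⊕ (ℚ × α)) → U :=
  Sum.elim (fun _ => x) (xu y u)

/-- the sequence of the pairs `(e k, u k)` -/
def eu {α : Type} (e : ℚ → U) (u : ℚ → α → U) : ℚ → Unit ⊕ α → U := fun k => Sum.elim (fun _ => e k) (u k)

end

/-! ### Indiscernible sequences -/

/-- [INF] it is enough to look at finite increasing tuples.
PROOF.  Let `κ`, `f`, `g` be as in the definition of `IndOn`.  `tq_fin`: let `s ⊆ κ × α` be finite.  `K` := the finite set of the first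
coordinates of `s`; `e : Fin n → κ` strictly monotone with range `K` (`Finset.orderIsoOfFin`).  The hypothesis for `f ∘ e`,
`g ∘ e` and `tq_sub` (index map `s → Fin n × α`, `(k, a) ↦ (e⁻¹ k, a)`).  (2) is the case `S = univ`; (3) is trivial. -/
def St_INF : Prop :=
  ∀ (L : FirstOrder.Language.{0, 0}) (U : Type) [L.Structure U] (α ι : Type) [LinearOrder ι] (C : Set U)
    (I : ι → α → U),
    (∀ S : Set ι, (∀ (n : ℕ) (f g : Fin n → ι), StrictMono f → StrictMono g →
      (∀ k, f k = g k ∨ (f k ∈ S ∧ g k ∈ S)) → Tq L C (cp I f) (cp I g)) → IndOn L C I S) ∧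
    ((∀ (n : ℕ) (f g : Fin n → ι), StrictMono f → StrictMono g → Tq L C (cp I f) (cp I g)) → Ind L C I) ∧
    (Ind L C I ↔ IndOn L C I univ)

/-- [INC] calculus of indiscernible sequences.
PROOF.  (1) `tq_mono`; the condition for `S'` is stronger.  (2) the same maps composed with `s`.  (3) `tq_mono`.
(4) composition with `s`.  (5), (6) are (2), (4) for `s` and the inverse.  (7) `Tq L C` of the whole sequences, and `tq_sub`: the truth of
`P (cp u f)` is the one of `P (cp u' f)`; so `Tq L C (cp u f) (cp u g)` gives `Tq L C (cp u' f) (cp u' g)`: for `P` in `Dp L C` we have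
`P (cp u' f) ↔ P (cp u f) ↔ P (cp u g) ↔ P (cp u' g)`.  With the parameter tuple: `P` in `Dp L (C ∪ range c')` is `Q (·, c')`,
`Q` in `Dp L C` (`dp_fam`), and `Q (cp u' f, c') ↔ Q (cp u f, c)`.  (8) as (7), for all `κ`. -/
def St_INC : Prop :=
  ∀ (L : FirstOrder.Language.{0, 0}) (U : Type) [L.Structure U],
    (∀ (α ι : Type) [LinearOrder ι] (C C' : Set U) (I : ι → α → U) (S S' : Set ι), C' ⊆ C → S' ⊆ S →
      IndOn L C I S → IndOn L C' I S') ∧
    (∀ (α ι κ : Type) [LinearOrder ι] [LinearOrder κ] (C : Set U) (I : ι → α → U) (S : Set ι) (S' : Set κ)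
      (s : κ → ι), StrictMono s → (∀ k ∈ S', s k ∈ S) → IndOn L C I S → IndOn L C (fun k => I (s k)) S') ∧
    (∀ (α ι : Type) [LinearOrder ι] (C C' : Set U) (I : ι → α → U), C' ⊆ C → Ind L C I → Ind L C' I) ∧
    (∀ (α ι κ : Type) [LinearOrder ι] [LinearOrder κ] (C : Set U) (I : ι → α → U) (s : κ → ι), StrictMono s →
      Ind L C I → Ind L C (fun k => I (s k))) ∧
    (∀ (α : Type) (C : Set U) (u : ℚ → α → U) (σ : ℚ ≃o ℚ) (S : Set ℚ),
      IndOn L C (fun k => u (σ k)) S ↔ IndOn L C u (σ '' S)) ∧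
    (∀ (α : Type) (C : Set U) (u : ℚ → α → U) (σ : ℚ ≃o ℚ), Ind L C (fun k => u (σ k)) ↔ Ind L C u) ∧
    (∀ (α ι γ : Type) [LinearOrder ι] (C : Set U) (u u' : ι → α → U) (c c' : γ → U) (S : Set ι),
      Tq L C (Sum.elim (cp u id) c) (Sum.elim (cp u' id) c') → IndOn L (C ∪ range c) u S →
      IndOn L (C ∪ range c') u' S) ∧
    (∀ (α ι γ : Type) [LinearOrder ι] (C : Set U) (u u' : ι → α → U) (c c' : γ → U),
      Tq L C (Sum.elim (cp u id) c) (Sum.elim (cp u' id) c') → Ind L (C ∪ range c) u → Ind L (C ∪ range c') u')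

/-- [STI] increasing tuples of a sequence which is indiscernible over the finite set `C` have the same strong type over
`C`.
PROOF.  Let `E` be in `FE L C` (variables `Fin n × α`).  `fe_num`: every `N + 1` tuples contain two `E`-equivalent ones.  Choose strictly
monotone `h_0, .., h_N : Fin n → ι` with `f, g < h_0 < h_1 < ..` (all entries; `NoMaxOrder`).  `E (cp I h_i) (cp I h_j)` for
some `i < j`.  The maps `(f, h_0)` and `(h_i, h_j)` from `Fin n ⊕ₗ Fin n` (or `Fin (n + n)`) are strictly monotone, so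
`E (cp I f) (cp I h_0)` (`E` is definable over `C`); in the same way `E (cp I g) (cp I h_0)`. -/
def St_STI : Prop :=
  ∀ (L : FirstOrder.Language.{0, 0}) (U : Type) [L.Structure U] (α ι : Type) [Finite α] [LinearOrder ι]
    [NoMaxOrder ι] [Nonempty ι] (C : Set U), C.Finite → ∀ I : ι → α → U, Ind L C I →
    ∀ (n : ℕ) (f g : Fin n → ι), StrictMono f → StrictMono g → Sq L C (cp I f) (cp I g)

/-- [CNV] indiscernible on a convex set.
PROOF.  (⟸) `f`, `g : κ → ι` with `f k = g k ∨ (f k ∈ S ∧ g k ∈ S)`.  `T = {k | f k ∈ S} = {k | g k ∈ S}`.  The restrictions of `f`, `g`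
to `T` are strictly monotone maps into `S`, so the tuples `cp I f|T`, `cp I g|T` have the same type over `C` and the terms outside
`S`; the other terms `I (f k) = I (g k)`, `k ∉ T`, are outside `S`: `tq_add`, `tq_sub`.  (⟹) Let `f, g : κ → S` be strictly
monotone, `P` in `Dp L (C ∪ ..)`; `dp_fin`: `P (v) ↔ Q (v, c)` with `Q` in `Dp L C` and a finite tuple `c` whose entries are in terms
`I j`, `j ∈ J`, `J` a finite set disjoint from `S`.  Let `F = range f ∪ J` (a subset of `ι`, with the induced order) and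
`g' : F → ι`, `g' (f k) = g k`, `g' j = j` for `j ∈ J`.  It is strictly monotone because `S` is convex (an element of `J` is below all or
above all elements of `S`).  `IndOn` for `F ⊆ ι` and `g'`, `tq_sub`. -/
def St_CNV : Prop :=
  ∀ (L : FirstOrder.Language.{0, 0}) (U : Type) [L.Structure U] (α ι : Type) [LinearOrder ι] (C : Set U)
    (I : ι → α → U) (S : Set ι), S.OrdConnected →
    (IndOn L C I S ↔ Ind L (C ∪ {x | ∃ j ∉ S, ∃ a, x = I j a}) (fun k : S => I k))

/-- [TAL] the terms on the right of finitely many (or arbitrary many) terms.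
PROOF.  As CNV (⟹): `P (v) ↔ Q (v, c)`, `c` in the terms `I x`, `x ∈ X`; `F = X ∪ range (s ∘ f)` and `X ∪ range (s ∘ g)`.
(It is enough to do this for `X` finite, `dp_fin`.) -/
def St_TAL : Prop :=
  ∀ (L : FirstOrder.Language.{0, 0}) (U : Type) [L.Structure U] (α ι κ : Type) [LinearOrder ι] [LinearOrder κ]
    (C : Set U) (I : ι → α → U) (X : Set ι) (s : κ → ι), StrictMono s → (∀ x ∈ X, ∀ k, x < s k) →
    Ind L C I → Ind L (C ∪ {y | ∃ x ∈ X, ∃ a, y = I x a}) (fun k => I (s k))

/-- [EXT] extraction of an indiscernible sequence.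
PROOF.  `sat_dp` with the variables `ι × β` and the parameters `D` for the set `F` of the properties (i) `v ↦ P (v_g)` (`g : Fin n → ι`
strictly monotone, `v_g := fun w : Fin n × β => v (g w.1, w.2)`), where `P` in `Dp L D` holds for all `cp J f`, `f` strictly
monotone; (ii) `v ↦ P (v_g) → P (v_g')`, `P` in `Dp L D`, `g`, `g'` strictly monotone.  Finite subsets: they mention finitely many
pairs `(n, P)` and finitely many indices in `ι`, `K` say.  Ramsey's theorem (`HERN.thm_RAMN` in `Pool/Agent/HERN/RAMN.lean`, or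
`Pool/Agent/Helper18/EH/Ramsey.lean`), once for every `(n, P)`: there is a strictly monotone `φ : ℕ → ℕ` such that for each of
the pairs the truth value of `P (cp J (φ ∘ f))` does not depend on `f`.  Let `e : K → ℕ` be strictly monotone and
`v (k, b) = J (φ (e k)) b` for `k ∈ K` (arbitrary otherwise).  The result `v` gives `J' j b = v (j, b)`; `Ind` by INF. -/
def St_EXT : Prop :=
  ∀ (L : FirstOrder.Language.{0, 0}) (U : Type) [L.Structure U], Cz L U →
    ∀ (β ι : Type) [Countable β] [Countable ι] [LinearOrder ι] (D : Set U) (J : ℕ → β → U), D.Countable →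
    ∃ J' : ι → β → U, Ind L D J' ∧ ∀ (n : ℕ) (P : (Fin n × β → U) → Prop), Dp L D P →
      (∀ f : Fin n → ℕ, StrictMono f → P (cp J f)) → ∀ g : Fin n → ι, StrictMono g → P (cp J' g)

/-- [STR] stretching.
PROOF.  EXT over `C`: `J' : ι → β → U` with `Ind L C J'` and the properties of `J`.  As `J` is indiscernible over `C`, the tuples
`(J n)`, `n : ℕ`, and `(J' (s n))`, `n : ℕ`, have the same type over `C` (`tq_fin`, INF: a property in `Dp L C` which is true for one
`cp J f` is true for all, so for all `cp J' g`).  `tq_ext'`: `J''` with `Tq L C (cp J' s, cp J' id) (cp J id, cp J'' id)`.  So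
`J'' (s n) = J n` (the equations `J' (s n) b = J' (s n) b` between a coordinate of the first part and one of the second, `tq_eq`) and
`Ind L C J''` (`Tq L C (cp J' id) (cp J'' id)`, INC (8) with the empty tuple). -/
def St_STR : Prop :=
  ∀ (L : FirstOrder.Language.{0, 0}) (U : Type) [L.Structure U], Cz L U →
    ∀ (β ι : Type) [Countable β] [Countable ι] [LinearOrder ι] (C : Set U) (J : ℕ → β → U) (s : ℕ → ι),
    C.Countable → StrictMono s → Ind L C J → ∃ J' : ι → β → U, Ind L C J' ∧ ∀ n, J' (s n) = J n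

/-- [MUX] extraction of mutually indiscernible sequences.
PROOF.  Let `I^ = I ∘ s`, `J^ = J ∘ t`.  (1) EXT for `I^` over `D ∪ ran J^`: `I'`.  As `I^` is indiscernible over `C ∪ ran J^`
(INC (4), (3)), a property in `Dp L (C ∪ ran J^)` which holds for one increasing tuple of `I^` holds for all, so for all
increasing tuples of `I'`.  (2) EXT for `J^` over `D ∪ ran I'`: `J'`, indiscernible over `D ∪ ran I'`.  (3) `I'` is indiscernible
over `D ∪ ran J'`: let `P` be in `Dp L (D ∪ ran J')`, `P (cp I' f)`; `P (v) ↔ Q (v, cp J' h)` with `Q` in `Dp L D` and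
`h : Fin m → ℕ` strictly monotone (`dp_fin`; the finite set of indices, enumerated).  The property
`R (w) := Q (cp I' f, w) → Q (cp I' g, w)` is in `Dp L (D ∪ ran I')` and holds for all `cp J^ h'` (`I'` is indiscernible over
`D ∪ ran J^`), so it holds for `cp J' h`.  INF.  (4) `Tq L C (cp I^ id, cp J^ id) (cp I' id, cp J' id)`: by `tq_fin` for finite subsets of
`ℕ`: let `Q` be in `Dp L C`, `Q (cp I^ f, cp J^ h)`.  `J^` is indiscernible over `C ∪ ran I^`: `Q (cp I^ f, cp J^ h')` for all `h'`.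
By (1): `Q (cp I' f, cp J^ h')` for all `h'`.  This is a property of `cp J^ h'` in `Dp L (C ∪ ran I')`, so it holds for `cp J' h`. -/
def St_MUX : Prop :=
  ∀ (L : FirstOrder.Language.{0, 0}) (U : Type) [L.Structure U], Cz L U →
    ∀ (α β ι κ : Type) [Countable α] [Countable β] [LinearOrder ι] [LinearOrder κ] (C D : Set U) (I : ι → α → U)
      (J : κ → β → U) (s : ℕ → ι) (t : ℕ → κ), C ⊆ D → D.Countable → StrictMono s → StrictMono t → Mut L C I J →
    ∃ (I' : ℕ → α → U) (J' : ℕ → β → U), Mut L D I' J' ∧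
      Tq L C (Sum.elim (cp I s) (cp J t)) (Sum.elim (cp I' id) (cp J' id))

/-! ### dp-minimality -/

/-- [DPS] **dp-minimality**, strong form: one element does not break two mutually indiscernible sequences.
PROOF.  Suppose it breaks both.  INF, `dp_fin`, `dp_fam`: there are finite sets `X ⊆ ι`, `Y ⊆ κ`, enumerated by strictly monotone
`x : Fin n → ι`, `y : Fin m → κ`, and strictly monotone `f, g : Fin p → Fin n`, `f', g' : Fin q → Fin m` and `Q₁`, `Q₂` in `Dp L C` with
`Q₁ (cp I (x ∘ f), cp J y, z)`, not `Q₁ (cp I (x ∘ g), cp J y, z)`; `Q₂ (cp J (y ∘ f'), cp I x, z)`, not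
`Q₂ (cp J (y ∘ g'), cp I x, z)`.  Choose strictly monotone `s : ℕ → ι`, `t : ℕ → κ` with `s k > x i`, `t k > y j` for all `k`,
`i`, `j` (`NoMaxOrder`; `n`, `m` may be `0`: then add a point).  `C' = C ∪ I_X ∪ J_Y`; `I ∘ s`, `J ∘ t` are mutually indiscernible over `C'` (TAL, INC).  MUX over `C'` and
`D = C' ∪ {z}`: `I'`, `J'` mutually indiscernible over `D`, `Tq L C' (I ∘ s, J ∘ t) (I', J')`.  Let `A* k = I (x k)` for `k < n` and
`A* (n + k) = I' k`; `B* k = J (y k)` for `k < m`, `B* (m + k) = J' k`.  For all strictly monotone `s' : ℕ → ι`, `t' : ℕ → κ`: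
`Tq L C (A*, B*) (I ∘ s', J ∘ t')` [`(A*, B*)` and `(I ∘ (x, s), J ∘ (y, t))` have the same type over `C`; then `Mut L C I J`].  Fix
`s'`, `t'`, and let `a_k` be the block `I (s' (k n)), .., I (s' (k n + n - 1))`, `b_l` the block `J (t' (l m)), ..`.  For `i, j : ℕ`
`tq_ext'` gives `z_ij` with `Tq L C (A*, B*, z) (I ∘ s'(i n + ·), J ∘ t'(j m + ·), z_ij)`.
`Ψ (a, b, w) := (Q₁ (a_f, b, w) ↔ ¬ Q₁ (a_g, b, w)) ∧ (Q₂ (b_f', a, w) ↔ ¬ Q₂ (b_g', a, w))`.  `Ψ (a_i, b_j, z_ij)` because it holds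
for the blocks number `0` of `A*`, `B*` and `z`.  `Ψ (a_(i+k), b_j, z_ij)`, `k > 0`, is false: for the block number `k` of `A*` (inside
`I'`) the first part of `Ψ` is false, as `I'` is indiscernible over `D ∪ ran J'`, which contains `z` and the block `0` of `B*`.  In the same way
`Ψ (a_i, b_(j+l), z_ij)`, `l > 0`, is false (second part).  ARR. -/
def St_DPS : Prop :=
  ∀ (L : FirstOrder.Language.{0, 0}) (U : Type) [L.Structure U], Cz L U →
    ∀ (α β ι κ : Type) [Finite α] [Finite β] [LinearOrder ι] [LinearOrder κ] [Countable ι] [Countable κ]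
      [NoMaxOrder ι] [NoMaxOrder κ] [Nonempty ι] [Nonempty κ] (C : Set U) (I : ι → α → U) (J : κ → β → U) (z : U),
    C.Countable → Mut L C I J → Ind L (insert z C ∪ ran J) I ∨ Ind L (insert z C ∪ ran I) J

/-- [DPI] dp-minimality for two disjoint parts of one sequence.
PROOF.  If `S` or `T` is empty, `IndOn` is trivial (`f = g`).  Otherwise DPS for `I = u|S`, `J = u|T` and
`C' = C ∪ {x | ∃ j ∉ S ∪ T, ∃ a, x = u j a}`: `Mut L C' I J` is CNV (⟹) for `S` and for `T` (`C ∪` terms outside `S` = `C' ∪ ran J`).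
The conclusion is translated back by CNV (⟸).  (`NoMaxOrder S` from the hypothesis.) -/
def St_DPI : Prop :=
  ∀ (L : FirstOrder.Language.{0, 0}) (U : Type) [L.Structure U], Cz L U →
    ∀ (α : Type) [Finite α] (C : Set U) (u : ℚ → α → U) (S T : Set ℚ) (z : U), C.Countable → S.OrdConnected →
    T.OrdConnected → Disjoint S T → (∀ x ∈ S, ∃ y ∈ S, x < y) → (∀ x ∈ T, ∃ y ∈ T, x < y) → IndOn L C u S →
    IndOn L C u T → IndOn L (insert z C) u S ∨ IndOn L (insert z C) u T

/-! ### The place of a break -/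

/-- [OVL] overlapping parts, and limits.
PROOF.  (1) `f`, `g : κ → ℚ` as in `IndOn` for `S`.  Let `τ j = c - δ (c - j) / (δ + (c - j))` with `δ = c - s` for `j ∈ S`, `j < c`, and
`τ j = j` otherwise.  `τ` is strictly monotone, `τ j ∈ (s, c)` for `j ∈ S`, `j < c` (`S` is convex; `h t = δ t / (δ + t)` is strictly
increasing with values in `(0, δ)` for `t > 0`; an element of the complement of `S` which is `< c` is below all elements of `S`, so
below `s`).  `Tq L C (cp u f) (cp u (τ ∘ f))` by the hypothesis on `S ∩ Iio c`, the same for `g`, and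
`Tq L C (cp u (τ ∘ f)) (cp u (τ ∘ g))` by the hypothesis on `S ∩ Ioi s`.  (2), (3) INF: a finite increasing tuple has a largest
entry `< s`; choose `c < s` above these entries of `f` and `g`.  (4) by (1) twice: first `S' = Iio q`, from `Iio s` and `Ioo p q` (for
`S' ∩ Iio s` and `S' ∩ Ioi p`), then `univ` from `Iio q` and `Ioi s`. -/
def St_OVL : Prop :=
  ∀ (L : FirstOrder.Language.{0, 0}) (U : Type) [L.Structure U] (α : Type) (C : Set U) (u : ℚ → α → U),
    (∀ (S : Set ℚ) (s c : ℚ), S.OrdConnected → s ∈ S → c ∈ S → s < c → IndOn L C u (S ∩ Iio c) →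
      IndOn L C u (S ∩ Ioi s) → IndOn L C u S) ∧
    (∀ s : ℚ, (∀ c < s, IndOn L C u (Iio c)) → IndOn L C u (Iio s)) ∧
    (∀ s : ℚ, (∀ c > s, IndOn L C u (Ioi c)) → IndOn L C u (Ioi s)) ∧
    (∀ s p q : ℚ, p < s → s < q → IndOn L C u (Iio s) → IndOn L C u (Ioo p q) → IndOn L C u (Ioi s) → Ind L C u)

/-- [UNI] if `u` is indiscernible over `C` then one element breaks `u` at one place only.
PROOF.  DPI for `S = Iio c`, `T = Ioi c`; `IndOn L C u S` from `Ind L C u` (INC, INF). -/
def St_UNI : Prop :=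
  ∀ (L : FirstOrder.Language.{0, 0}) (U : Type) [L.Structure U], Cz L U →
    ∀ (α : Type) [Finite α] (C : Set U) (u : ℚ → α → U) (z : U), C.Countable → Ind L C u → ∀ c : ℚ,
    IndOn L (insert z C) u (Iio c) ∨ IndOn L (insert z C) u (Ioi c)

/-- [PLC] calculus of places.
PROOF.  (1) `insert_comm`.  (2) for `s < t`: OVL (1) for `S = univ`, from `Iio t` and `Ioi s`: `Ind`, contradiction.  (3) INC (7), (8)
with `c = (x, y)` (`insert x (insert y C) = C ∪ range ![x, y]`).  (4) INC (5), (6): `σ '' Iio s = Iio (σ s)`.  (5) INC (8) with one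
parameter. -/
def St_PLC : Prop :=
  ∀ (L : FirstOrder.Language.{0, 0}) (U : Type) [L.Structure U] (α : Type) (C : Set U),
    (∀ (u : ℚ → α → U) (s : ℚ) (x y : U), Pl L C u s x y → Pl L C u s y x) ∧
    (∀ (u : ℚ → α → U) (s t : ℚ) (x y : U), Pl L C u s x y → Pl L C u t x y → s = t) ∧
    (∀ (u u' : ℚ → α → U) (s : ℚ) (x y x' y' : U), Tq L C (xyu x y u) (xyu x' y' u') → Pl L C u s x y →
      Pl L C u' s x' y') ∧
    (∀ (u : ℚ → α → U) (σ : ℚ ≃o ℚ) (s : ℚ) (x y : U), Pl L C (fun k => u (σ k)) s x y ↔ Pl L C u (σ s) x y) ∧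
    (∀ (u u' : ℚ → α → U) (x x' : U), Tq L C (xu x u) (xu x' u') → Ind L (insert x C) u → Ind L (insert x' C) u')

/-- [RUL] **the rule**.
PROOF.  Write `L c`, `R c` for `IndOn L (insert x (insert y C)) u (Iio c)`, `.. (Ioi c)`.  UNI (over `insert y C`): `L c` or `R c`
for all `c`.  By symmetry (exchange `x` and `y`, PLC (1)) let `s < t`.
CLAIM 1.  There are no `S₁`, `S₂`, disjoint open intervals (or open half-lines), `s ∈ S₁`, `t ∈ S₂`, with
`IndOn L (insert x (insert y C)) u S₁` and `.. S₂`.  [DPI: `IndOn L (insert z (insert x (insert y C))) u S₁`, so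
`IndOn L (insert x (insert z C)) u S₁`, and with `Pl L C u s x z`, OVL (4) (a small `Ioo p q` in `S₁` around `s`):
`Ind L (insert x (insert z C)) u`, contradiction; or the same for `S₂`, `t`, `y`.]
`u` is not indiscernible over `insert x (insert y C)` (CLAIM 1 for `Iio m`, `Ioi m`, `s < m < t`).  Suppose that neither
`Pl L C u s x y` nor `Pl L C u t x y`.  (a) If not `L s`: by OVL (2) not `L c` for some `c < s`, so `R c`: CLAIM 1 for `Ioo c m`, `Ioi m`.
So `L s`, hence not `R s`, and by OVL (3) not `R c` for some `c`, `s < c < t` (`R c → R c'` for `c ≤ c'`), so `L c`.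
(b) If not `R t`: not `R c'` for some `c' > t`, so `L c'`: CLAIM 1 for `Iio m`, `Ioo m c'`.  So `R t`, hence not `L t`, and not `L c'` for some `c'`,
`s < c' < t`, so `R c'`.  If `c' < c`: OVL (1), `S = univ`: `Ind`, contradiction.  If `c ≤ c'`: CLAIM 1 for `Iio c`, `Ioi c'`. -/
def St_RUL : Prop :=
  ∀ (L : FirstOrder.Language.{0, 0}) (U : Type) [L.Structure U], Cz L U →
    ∀ (α : Type) [Finite α] (C : Set U) (u : ℚ → α → U) (x y z : U) (s t : ℚ), C.Countable →
    Ind L (insert x C) u → Ind L (insert y C) u → Pl L C u s x z → Pl L C u t y z → s ≠ t →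
    Pl L C u s x y ∨ Pl L C u t x y

/-- [BLX] blocks in `ℚ` with a given block number `0`.
PROOF.  `n = 0`: trivial.  Let `m = x 0`, `M = x (n - 1)`.  `(ℚ ∩ Ioi 0) ×ₗ Fin n` is a countable linear order, so it has an order
embedding into `ℚ ∩ Ioi M` (`Order.embedding_from_countable_to_dense`; `Ioi M` is densely ordered and nontrivial); in the same
way `(ℚ ∩ Iio 0) ×ₗ Fin n` into `Iio m`.  `θ 0 = x`. -/
def St_BLX : Prop :=
  ∀ (n : ℕ) (x : Fin n → ℚ), StrictMono x → ∃ θ : ℚ → Fin n → ℚ, θ 0 = x ∧ (∀ j, StrictMono (θ j)) ∧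
    ∀ j j' i i', j < j' → θ j i < θ j' i'

/-- [BLK] a break can be moved to one place of a sequence of blocks.
PROOF.  `u` is not indiscernible over `insert x (insert z C)`: INF: there are `f, g : Fin p → ℚ` strictly monotone and `P` in
`Dp L (insert x (insert z C))` with `P (cp u f)`, not `P (cp u g)`.  Let `x° : Fin n → ℚ` be a strictly monotone enumeration of the
finite set `range f ∪ range g` (`p > 0`, so `n > 0`), `f = x° ∘ f'`, `g = x° ∘ g'`, `M = x° (n-1)`, `m = x° 0`.  For `c > M` not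
`IndOn L (insert x (insert z C)) u (Iio c)`, so (UNI over `insert z C`) `IndOn .. u (Ioi c)`; OVL (3): `IndOn .. u (Ioi M)`.  In the
same way `IndOn .. u (Iio m)`.  BLX: `θ` for `x°`; `u' j (i, a) := u (θ j i) a`.  For strictly monotone `h : κ → ℚ` the map
`(k, i) ↦ θ (h k) i` from `κ ×ₗ Fin n` is strictly monotone, so `Ind L (insert x C) u'` and `Ind L (insert z C) u'` (`tq_sub`).
`IndOn .. u' (Ioi 0)`: for `j > 0` the entries `θ j i` are `> M`: from `IndOn .. u (Ioi M)`; in the same way `Iio 0`.  Not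
`Ind .. u'`: the property `P (w_f') ↔ P (w_g')` of blocks `w` is false for `u' 0` and true for `u' 1` (`IndOn .. u (Ioi M)`). -/
def St_BLK : Prop :=
  ∀ (L : FirstOrder.Language.{0, 0}) (U : Type) [L.Structure U], Cz L U →
    ∀ (α : Type) [Finite α] (C : Set U) (u : ℚ → α → U) (x z : U), C.Countable → Ind L (insert x C) u →
    Ind L (insert z C) u → ¬ Ind L (insert x (insert z C)) u →
    ∃ (n : ℕ) (u' : ℚ → Fin n × α → U), Ind L (insert x C) u' ∧ Ind L (insert z C) u' ∧ Pl L C u' 0 x z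

/-- [DSQ] a sequence of elements `e k` which break `u` (together with `z`) at the place `k`.
PROOF.  `u` and `u (· + k)` have the same type over `insert z C`, so `tq_ext'` gives `e° k` with
`Tq L (insert z C) (xu x u) (xu (e° k) (u (· + k)))`.  So (PLC (3), (4), (5), INC (6)) `Pl L C u k (e° k) z`,
`Ind L (insert (e° k) C) u`.  EXT over `insert z C` for the sequence `(e° k, u k)`, `k : ℕ`: `D' : ℚ → Unit ⊕ α → U`,
`e k = D' k (inl ())`, `u' k a = D' k (inr a)`.  All the properties are properties of finite increasing tuples of `(e° k, u k)`,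
which hold for ALL increasing tuples of indices:
(i) `Ind L (insert (e k) C) u'`: INF; let `f, g : Fin n → ℚ` be strictly monotone, `Q` in `Dp L C`; enumerate
`{k} ∪ range f ∪ range g` by a strictly monotone `d : Fin N → ℚ`, `k = d a`, `f = d ∘ f^`, `g = d ∘ g^`; the property
`Q (e (d a), cp u (d ∘ f^)) → Q (e (d a), cp u (d ∘ g^))` holds for all increasing `d : Fin N → ℕ` in `(e°, u)`.
(ii) `IndOn .. (Iio k)`, `(Ioi k)` over `e k`, `z`: in the same way.
(iii) not `Ind L (insert (e k) (insert z C)) u'`: there are `f, g : Fin n → ℚ`, `Q` in `Dp L (insert z C)` with `Q (x, cp u f)`, not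
`Q (x, cp u g)`.  Let `d : Fin N → ℚ` enumerate `{0} ∪ range f ∪ range g`, `d a = 0`, `f = d ∘ f^`, `g = d ∘ g^`.  For every
strictly monotone `d' : Fin N → ℚ`: `Q (e° (d' a), cp u (d' ∘ f^))`, not `Q (e° (d' a), cp u (d' ∘ g^))` [it is the truth value of
`Q (x, cp u (d' ∘ f^ - d' a))`, and `d' ∘ f^ - d' a` and `f` have the same position with respect to `0`: move first the
negative, then the positive entries, `Pl L C u 0 x z`]. -/
def St_DSQ : Prop :=
  ∀ (L : FirstOrder.Language.{0, 0}) (U : Type) [L.Structure U], Cz L U →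
    ∀ (α : Type) [Finite α] (C : Set U) (u : ℚ → α → U) (x z : U), C.Countable → Ind L (insert x C) u →
    Ind L (insert z C) u → Pl L C u 0 x z →
    ∃ (e : ℚ → U) (u' : ℚ → α → U), Ind L (insert z C) (eu e u') ∧ (∀ k, Ind L (insert (e k) C) u') ∧
      ∀ k, Pl L C u' k (e k) z

/-- [CSA] the mutually indiscernible case.
PROOF.  Suppose `u` is indiscernible over `C ∪ range e`.  As not `Ind L (insert (e 0) (insert z C)) u`, there are
`f, g : Fin p → ℚ`, `P` in `Dp L (insert z C)` with `P (e 0, cp u f)`, not `P (e 0, cp u g)`; let `x : Fin n → ℚ` be strictly monotone with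
`f = x ∘ f^`, `g = x ∘ g^`, and let `T : ℕ`, `T > 0`, be such that `2 |x i| < T` for all `i`.  `P (e, v) ↔ Q (e, v, z)`.
`Ψ (e, b, w) := (Q (e, b_f^, w) ↔ ¬ Q (e, b_g^, w))`.  Rows `e (k T)`, columns `b_l := (u (x i + l T))_i`.
`Ψ (e (k T), b_l, z) ↔ k = l` (`k, l : ℕ`): for `k = l` shift (`Ind L (insert z C) (eu e u)`); for `k ≠ l` all `x i + l T` are on the same side
of `k T`: `Pl L C u (k T) (e (k T)) z`.  For `i, j : ℕ`: `Tq L C (e, u) (e (· + i T), u (· + j T))` [`Ind L C (eu e u)` gives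
`(e (· + i T), u (· + i T))`, then `Ind L (C ∪ range e) u`], so (`tq_ext'`) `c_ij` with
`Tq L C (e, u, z) (e (· + i T), u (· + j T), c_ij)`: `Ψ (e ((i + k) T), b_(j+l), c_ij) ↔ k = l` for `k, l ≥ 0`.  ARR with `s = t = true`. -/
def St_CSA : Prop :=
  ∀ (L : FirstOrder.Language.{0, 0}) (U : Type) [L.Structure U], Cz L U →
    ∀ (α : Type) [Finite α] (C : Set U) (e : ℚ → U) (u : ℚ → α → U) (z : U), C.Countable →
    Ind L (insert z C) (eu e u) → (∀ k, Pl L C u k (e k) z) → ¬ Ind L (C ∪ range e) u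

/-- [DIS] parts of `u` without indices in `K`.
PROOF.  (1) Let `f, g : κ → ℚ` be strictly monotone with `f k = g k ∨ (f k ∈ S ∧ g k ∈ S)`, `P` in `Dp L (C ∪ e '' K)`; `dp_fin`: finitely
many elements `e k`, `k ∈ K₁`, `K₁ ⊆ K` finite, `P (v) ↔ Q (v, e|K₁)`.  Let `F = K₁ ∪ range f` (subset of `ℚ`), `g' : F → ℚ`, `g' (f k) = g k`,
`g' l = l` for `l ∈ K₁` (no conflict: if `f k ∈ K₁` then `f k ∉ S`, so `g k = f k`).  `g'` is strictly monotone (`S` is convex and disjoint
from `K`).  `Ind L C (eu e u)` for the inclusion `F → ℚ` and `g'`, `tq_sub`.  (2) CNV (⟹) for `eu e u` and `S` (`IndOn` from `Ind`), then INC (3),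
(4) with `ε : ℚ → S`. -/
def St_DIS : Prop :=
  ∀ (L : FirstOrder.Language.{0, 0}) (U : Type) [L.Structure U] (α : Type) (C : Set U) (e : ℚ → U)
    (u : ℚ → α → U) (S K : Set ℚ), Ind L C (eu e u) → S.OrdConnected → Disjoint S K →
    IndOn L (C ∪ e '' K) u S ∧
    ∀ ε : ℚ → ℚ, StrictMono ε → (∀ q, ε q ∈ S) → Ind L (C ∪ e '' K) (eu (fun q => e (ε q)) (fun q => u (ε q)))

/-- [CJK] conjugation by automorphisms of `ℚ`.
PROOF.  `Ind L C (eu e u)` for the maps `id`, `σ`: `Tq L C (cp (eu e u) id) (cp (eu e u) σ)`.  So (`tq_sub`)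
`Tq L C (cp u id, (e k)_(k ∈ K)) (cp (u ∘ σ) id, (e (σ k))_(k ∈ K))`.  INC (7), (8) with the parameter tuples `(e k)_(k ∈ K)`,
`(e (σ k))_(k ∈ K)`; then INC (5), (6). -/
def St_CJK : Prop :=
  ∀ (L : FirstOrder.Language.{0, 0}) (U : Type) [L.Structure U] (α : Type) (C : Set U) (e : ℚ → U)
    (u : ℚ → α → U), Ind L C (eu e u) → ∀ (σ : ℚ ≃o ℚ) (K S : Set ℚ),
    (IndOn L (C ∪ e '' K) u S → IndOn L (C ∪ e '' (σ '' K)) u (σ '' S)) ∧
    (Ind L (C ∪ e '' K) u → Ind L (C ∪ e '' (σ '' K)) u)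

/-- [PLK] the place of a minimal break.
PROOF.  Write `IN S` for `IndOn L (C ∪ e '' K) u S`.  `IN S` if `S` is convex and disjoint from `K` (DIS).  Fix `k₀ ∈ K`; UNI over
`C ∪ e '' (K \ {k₀})`, `z = e k₀`: `IN (Iio c)` or `IN (Ioi c)` for all `c`.  `K` is not empty (UNI was used; if `K` is empty then
`Ind L C u` by `Ind L C (eu e u)`, contradiction).  Let `k` be the largest element of `K` with `IN (Iio k)` (the smallest element of `K` has
this property by DIS).  If `k` is the largest element of `K`: `IN (Ioi k)` by DIS.  Otherwise let `k'` be the next element of `K`: not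
`IN (Iio k')`, so (OVL (2)) not `IN (Iio c)` for some `c < k'`, so `IN (Ioi c)`; if `c ≤ k` then `IN (Ioi k)` (INC (1)); if `k < c`: OVL (1)
for `S = Ioi k`, with `s := c`, `c := k'`, from `Ioi k ∩ Iio k' = Ioo k k'` (DIS) and `Ioi k ∩ Ioi c`. -/
def St_PLK : Prop :=
  ∀ (L : FirstOrder.Language.{0, 0}) (U : Type) [L.Structure U], Cz L U →
    ∀ (α : Type) [Finite α] (C : Set U) (e : ℚ → U) (u : ℚ → α → U) (K : Set ℚ), C.Countable → K.Finite →
    Ind L C (eu e u) → ¬ Ind L (C ∪ e '' K) u → (∀ k ∈ K, Ind L (C ∪ e '' (K \ {k})) u) →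
    ∃ k ∈ K, IndOn L (C ∪ e '' K) u (Iio k) ∧ IndOn L (C ∪ e '' K) u (Ioi k)

/-- [CSB] the other case: after adding finitely many `e k` to the base, two `e`'s break `u` always at the larger (or always
at the smaller) one.
PROOF.  There is a finite `K ⊆ ℚ` with not `Ind L (C ∪ e '' K) u` (`dp_fin`, INF).  Let `m` be the smallest number of elements of such a set.
HOM and CJK (two sets with the same number of elements are conjugate): for all `K` with `m` elements not `Ind L (C ∪ e '' K) u`, for all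
`K` with fewer elements `Ind L (C ∪ e '' K) u`.  `m ≥ 2` (`Ind L C u` from `Ind L C (eu e u)`, and the hypothesis).  PLK and CJK: there is
`r < m` such that for every `K` with `m` elements and its element `κ` number `r` (`r` elements of `K` are smaller):
`IndOn L (C ∪ e '' K) u (Iio κ)`, `.. (Ioi κ)`.  Let `ε q = 1/2 + (1/2) q / (1 + |q|)`: strictly monotone, with values in `(0, 1)`.
Let `r ≥ 1`: `K₀` := `r - 1` negative numbers and `m - 1 - r` numbers `> 1`.  `C' = C ∪ e '' K₀`, `e' = e ∘ ε`, `u' = u ∘ ε`.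
`Ind L C' (eu e' u')`: DIS (2) for `S = Ioo 0 1`.  `Ind L (insert (e' k) C') u'`: `K₀ ∪ {ε k}` has `m - 1` elements, INC (4).  Let `i < j`;
`K = K₀ ∪ {ε i, ε j}` has `m` elements, `κ = ε j` is the element number `r`.  `IndOn L (insert (e' i) (insert (e' j) C')) u' (Iio j)`,
`(Ioi j)`: INC (2) with `s = ε`.  Not `Ind .. u'`: let `f, g : Fin p → ℚ` be strictly monotone, `P` in `Dp L (C ∪ e '' K)`,
`P (cp u f)`, not `P (cp u g)` (INF).  `h q := ε (q - κ + j)` is strictly monotone, `h κ = κ`; `q < κ ↔ h q < κ`; so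
`Tq L (C ∪ e '' K) (cp u f) (cp u (h ∘ f))` (`IndOn .. (Iio κ)` and then `.. (Ioi κ)`: the intermediate tuple is `h (f k)` for `f k < κ`
and `f k` otherwise), the same for `g`: so `u'` is not indiscernible (`h ∘ f = ε ∘ (f - κ + j)`).  This is the first alternative.
If `r = 0`: `K₀` := `m - 2` numbers `> 1`; for `i < j` the element number `0` of `K₀ ∪ {ε i, ε j}` is `ε i`: second
alternative. -/
def St_CSB : Prop :=
  ∀ (L : FirstOrder.Language.{0, 0}) (U : Type) [L.Structure U], Cz L U →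
    ∀ (α : Type) [Finite α] (C : Set U) (e : ℚ → U) (u : ℚ → α → U), C.Countable →
    Ind L C (eu e u) → (∀ k, Ind L (insert (e k) C) u) → ¬ Ind L (C ∪ range e) u →
    ∃ (C' : Set U) (e' : ℚ → U) (u' : ℚ → α → U), C'.Countable ∧ Ind L C' (eu e' u') ∧
      (∀ k, Ind L (insert (e' k) C') u') ∧
      ((∀ k l, k < l → Pl L C' u' l (e' k) (e' l)) ∨ (∀ k l, k < l → Pl L C' u' k (e' k) (e' l)))

/-- [REV] reversing the order.
PROOF.  `e'' k = e' (-k)`, `u'' k = u' (-k)`.  For strictly monotone `f : κ → ℚ` the map `k ↦ - f k` is strictly monotone on the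
dual order of `κ`; `cp` does not depend on the order.  So `Ind`, `IndOn .. S` become `Ind`, `IndOn .. (-S)`. -/
def St_REV : Prop :=
  ∀ (L : FirstOrder.Language.{0, 0}) (U : Type) [L.Structure U] (α : Type) (C : Set U) (u : ℚ → α → U),
    (Ind L C u → Ind L C (fun k => u (-k))) ∧
    (∀ (s : ℚ) (x y : U), Pl L C u s x y → Pl L C (fun k => u (-k)) (-s) x y)

/-- [HOM] finite strictly monotone maps extend to order automorphisms of `ℚ`.
PROOF.  Induction on `n`.  `n = 0`: identity; `n = 1`: translation.  `σ` for the first `n` points, `n ≥ 1`, `c = y (n - 1)` the last of their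
images, `x' = σ (x n) > c`: compose with `j ↦ j` for `j ≤ c`, `j ↦ c + (j - c) (y n - c) / (x' - c)` for `j > c`. -/
def St_HOM : Prop :=
  ∀ (n : ℕ) (x y : Fin n → ℚ), StrictMono x → StrictMono y → ∃ σ : ℚ ≃o ℚ, ∀ i, σ (x i) = y i

/-! ### The game -/

section

variable (L : FirstOrder.Language.{0, 0}) {U : Type} [L.Structure U]

/-- the situation of CSB, with the break at the larger index -/
structure Gm (C : Set U) {α : Type} (e : ℚ → U) (u : ℚ → α → U) : Prop where
  cnt : C.Countable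
  ind : Ind L C (eu e u)
  one : ∀ k, Ind L (insert (e k) C) u
  two : ∀ k l, k < l → Pl L C u l (e k) (e l)

end

/-- [GM0] first facts.
PROOF.  (1) `Ind L C (eu e u)` and the translation by `l - k`: `Tq L C (xu (e k) u) (xu (e l) (u (· + l - k)))`, and
`Ind L (insert (e l) C) u`.  (2) let `σ j = j` for `j ≥ l`, `σ j = l - (l - j) (l - k') / (l - k)` for `j < l`: strictly monotone,
`σ k = k'`, `σ l = l`.  `Tq L C (xyu (e k) (e l) u) (xyu (e k') (e l) (u ∘ σ))`, and `u ∘ σ`, `u` have the same type over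
`e k'`, `e l`, `C` by `IndOn .. (Iio l)` (`two`).  (3) translation by `m`.  (4) `Ind L C (eu e u)` for `id` and `σ`. -/
def St_GM0 : Prop :=
  ∀ (L : FirstOrder.Language.{0, 0}) (U : Type) [L.Structure U] (α : Type) (C : Set U) (e : ℚ → U)
    (u : ℚ → α → U), Gm L C e u →
    (∀ k l, Tq L C (xu (e k) u) (xu (e l) u)) ∧
    (∀ k k' l, k < l → k' < l → Tq L C (xyu (e k) (e l) u) (xyu (e k') (e l) u)) ∧
    (∀ k l m : ℚ, Tq L C (xyu (e k) (e l) u) (xyu (e (k + m)) (e (l + m)) (fun j => u (j + m)))) ∧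
    (∀ σ : ℚ ≃o ℚ, Tq L C (cp (eu e u) id) (cp (eu e u) σ))

/-- [WIT] the formula which sees the break, with all its indices near the place.
PROOF.  As not `Ind .. u` over `e 0`, `e 1` (`two 0 1`): INF gives strictly monotone `f₀`, `g₀ : Fin p → ℚ` and `P` in
`Dp L (insert (e 0) (insert (e 1) C))` with `P (cp u f₀)`, not `P (cp u g₀)`.  Let `τ j = 1 + (1/4) (j - 1) / (1 + |j - 1|)`: strictly
monotone, `τ 1 = 1`, values in `(3/4, 5/4)`.  `P (cp u (τ ∘ f₀))`, not `P (cp u (τ ∘ g₀))` by `IndOn .. (Iio 1)` and `(Ioi 1)` (two steps: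
first the indices `< 1`, then those `> 1`).  Let `x : Fin n → ℚ` be a strictly monotone enumeration of the union of the ranges of
`τ ∘ f₀`, `τ ∘ g₀`, `τ ∘ f₀ = x ∘ f`, `τ ∘ g₀ = x ∘ g`; `P (v) ↔ Q (v, e 1, e 0)` with `Q` in `Dp L C` (`dp_fam`);
`Ψ (b, y, w) := (Q (b_f, y, w) ↔ ¬ Q (b_g, y, w))`. -/
def St_WIT : Prop :=
  ∀ (L : FirstOrder.Language.{0, 0}) (U : Type) [L.Structure U] (α : Type) (C : Set U) (e : ℚ → U)
    (u : ℚ → α → U), Gm L C e u →
    ∃ (n p : ℕ) (x : Fin n → ℚ) (f g : Fin p → Fin n) (Ψ : ((Fin n × α) ⊕ Bool → U) → Prop),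
      StrictMono x ∧ StrictMono f ∧ StrictMono g ∧ (∀ i, 3 / 4 < x i ∧ x i < 5 / 4) ∧ Dp L C Ψ ∧
      Ψ (Sum.elim (cp u x) (fun c => if c = true then e 1 else e 0)) ∧
      ∀ (b : Fin n × α → U) (y w : U),
        Tq L (insert y (insert w C)) (fun v : Fin p × α => b (f v.1, v.2)) (fun v => b (g v.1, v.2)) →
        ¬ Ψ (Sum.elim b (fun c => if c = true then y else w))

/-- [GMA] **(A)**.
PROOF.  `Pl L C u t (e i) w` (PLC (3), (1) from `Pl L C u t (e 0) (e t)`), `Ind L (insert w C) u` (PLC (5), from `e 0`), `Pl L C u k (e i) (e k)`.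
RUL (for `x = e k`, `y = w`, `z = e i`, places `k`, `t`): `Pl L C u k (e k) w` or `Pl L C u t (e k) w`.  Suppose the first.  For `l > k`:
RUL (`x = w`, `y = e l`, `z = e k`, places `k`, `l`): the place of `(w, e l)` is `k` or `l`; RUL (`x = w`, `y = e l`, `z = e i`, places `t`, `l`): it is
`t` or `l`; so `Pl L C u l (e l) w` (PLC (2), `k ≠ t`), for all `l ≥ k`.
ARRAY.  Let `N` be given.  For `a, b < N` let `σ : ℚ ≃o ℚ` with `σ 0 = 0`, `σ t = b + 1`, `σ i = N + 1 + a`, `σ k = N + 1 + a + 1/2` (HOM).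
`tq_ext'` (GM0 (4)): `w_ab` with `Tq L C (cp (eu e u) id, w) (cp (eu e u) σ, w_ab)`.  So
`Tq L C (xyu (e (N+1+a)) w_ab u) (xyu (e (b+1)) (e 0) u)` [the hypothesis on `w` says `Q (e i, w, u) ↔ Q (e t, e 0, u)` for `Q` in
`Dp L C`; transported: `Q (e (σ i), w_ab, u ∘ σ) ↔ Q (e (σ t), e 0, u ∘ σ)`; substitute `σ⁻¹`], and
`Pl L C u l (e l) w_ab` for all `l ≥ N + 1 + a + 1/2` (PLC (3), (4)).  WIT: rows `e (N+1+a)`, columns `b_c := cp u (x + c)`, codes `w_ab`,
`Ψ (block, row, code)`.  (i) `Ψ (b_b, e (N+1+a), w_ab) ↔ Ψ (b_b, e (b+1), e 0)`: true, by GM0 (3) with `m = b` and GM0 (2) (`e b`, `e 0` over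
`e (b+1)`; they are the second of the two).  (ii) column `c ≠ b`, `c < N`: `Ψ (b_c, e (b+1), e 0)` is false: all indices `x i + c` are on the
same side of `b + 1` (`two 0 (b+1)`, `IndOn`).  (iii) row `a' > a`: `Ψ (b_b, e (N+1+a'), w_ab)` is false: `x i + b < N + 1 + a'` and
`Pl L C u (N+1+a') (e (N+1+a')) w_ab`.  ARR with `s = true` (rows), any `t`. -/
def St_GMA : Prop :=
  ∀ (L : FirstOrder.Language.{0, 0}) (U : Type) [L.Structure U], Cz L U →
    ∀ (α : Type) [Finite α] (C : Set U) (e : ℚ → U) (u : ℚ → α → U), Gm L C e u →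
    ∀ t i k : ℚ, 0 < t → t < i → i < k → ∀ w : U, Tq L C (xyu (e i) w u) (xyu (e t) (e 0) u) →
    Pl L C u t (e k) w

/-- [GMB] **(B)**.
PROOF.  `Pl L C u s (e k) y`, `Ind L (insert y C) u` (PLC).  RUL (`x = e i`, `y`, `z = e k`, places `k`, `s`): `Pl L C u k (e i) y` or
`Pl L C u s (e i) y`.  Suppose the first.  For `h < i`: RUL (`x = e h`, `y`, `z = e k`, places `k`, `s`): the place of `(e h, y)` is `k` or
`s`; RUL (`x = e h`, `y`, `z = e i`, places `i`, `k`): it is `i` or `k`; so `Pl L C u k (e h) y` for all `h ≤ i`.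
ARRAY.  Rows `e (a + 1)`, columns `b_c := cp u (x + N + c)` (around `N + 1 + c`), `a, c < N`.  For `a, b < N` let `σ : ℚ ≃o ℚ` with
`σ i = a + 1/2`, `σ k = a + 1`, `σ s = N + 1 + b` (HOM); `y_ab` with `Tq L C (cp (eu e u) id, y) (cp (eu e u) σ, y_ab)`.  So
`Tq L C (xyu (e (a+1)) y_ab u) (xyu (e (a+1)) (e (N+1+b)) u)` and `Pl L C u (a+1) (e h) y_ab` for all `h ≤ a + 1/2`.
`Ψ (block, code, row)` of WIT.  (i) `Ψ (b_b, y_ab, e (a+1)) ↔ Ψ (b_b, e (N+1+b), e (a+1))`: true (GM0 (3) with `m = N + b`, GM0 (2)).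
(ii) `c ≠ b`: `Ψ (b_c, e (N+1+b), e (a+1))` is false (`two`).  (iii) row `a' < a`: `Ψ (b_b, y_ab, e (a'+1))` is false: all indices of
`b_b` are `> a + 1` and `Pl L C u (a+1) (e (a'+1)) y_ab`.  ARR with `s = false` (rows), any `t`. -/
def St_GMB : Prop :=
  ∀ (L : FirstOrder.Language.{0, 0}) (U : Type) [L.Structure U], Cz L U →
    ∀ (α : Type) [Finite α] (C : Set U) (e : ℚ → U) (u : ℚ → α → U), Gm L C e u →
    ∀ i k s : ℚ, i < k → k < s → ∀ y : U, Tq L C (xyu (e k) y u) (xyu (e k) (e s) u) → Pl L C u s (e i) y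

/-- [GMN] the situation `Gm` is impossible.
PROOF.  GM0 (1): `Tq L C (xu (e 1) u) (xu (e 10) u)`, so (`tq_ext'`) `w` with `Tq L C (xyu (e 10) w u) (xyu (e 1) (e 0) u)`.  GMA
(`t = 1`, `i = 10`, `k = 11`): `Pl L C u 1 (e 11) w`.  GM0 (2): `Tq L C (xyu (e 10) (e 11) u) (xyu (e 1) (e 11) u)`.  `tq_ext'`: `y₁` with
`Tq L C (e 10, w, u, e 11) (e 1, e 0, u, y₁)`.  So `Tq L C (xyu (e 1) y₁ u) (xyu (e 10) (e 11) u)`, so
`Tq L C (xyu (e 1) y₁ u) (xyu (e 1) (e 11) u)`; GMB (`i = 0`, `k = 1`, `s = 11`): `Pl L C u 11 (e 0) y₁`, and by transport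
`Pl L C u 11 w (e 11)` (PLC (3)).  PLC (1), (2): `1 = 11`. -/
def St_GMN : Prop :=
  ∀ (L : FirstOrder.Language.{0, 0}) (U : Type) [L.Structure U], Cz L U →
    ∀ (α : Type) [Finite α] (C : Set U) (e : ℚ → U) (u : ℚ → α → U), ¬ Gm L C e u

/-- [TR2] TR for two elements.
PROOF.  Suppose not.  BLK: a sequence (again called `u`) with `Pl L C u 0 x z`; DSQ: `e`, `u`.  CSA: not `Ind L (C ∪ range e) u`
(`Ind L C (eu e u)` from `Ind L (insert z C) (eu e u)`).  CSB: `C'`, `e'`, `u'`; in the first case `Gm L C' e' u'`: GMN.  In the second case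
REV: `e'' k = e' (-k)`, `u'' k = u' (-k)`: `Gm L C' e'' u''` [for `k < l`: `-l < -k`, `Pl L C' u' (-l) (e' (-l)) (e' (-k))`, so
`Pl L C' u'' l (e'' l) (e'' k)`, PLC (1)]: GMN. -/
def St_TR2 : Prop :=
  ∀ (L : FirstOrder.Language.{0, 0}) (U : Type) [L.Structure U], Cz L U →
    ∀ (α : Type) [Finite α] (C : Set U) (u : ℚ → α → U) (x z : U), C.Countable → Ind L (insert x C) u →
    Ind L (insert z C) u → Ind L (insert x (insert z C)) u

/-- [TRR] **TR** (indiscernible triviality).
PROOF.  `dp_fin`, INF: it is enough to treat finite `B`.  Induction on the number `m` of elements of `B` (for all countable `C`);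
`m ≤ 1` is the hypothesis.  `B = B' ∪ {x, z}`: by induction `Ind L (C ∪ B' ∪ {x}) u` and `Ind L (C ∪ B' ∪ {z}) u`; TR2 over `C ∪ B'`. -/
def St_TRR : Prop :=
  ∀ (L : FirstOrder.Language.{0, 0}) (U : Type) [L.Structure U], Cz L U →
    ∀ (α : Type) [Finite α] (C B : Set U) (u : ℚ → α → U), C.Countable → Ind L C u →
    (∀ b ∈ B, Ind L (insert b C) u) → Ind L (C ∪ B) u

end Pool.Agent.TPT
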