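import Pool.Agent.TPT.St
import Pool.Agent.TPY.StI

/-!
# TPT: `St_TRI` and `St_DPM` of `TPY/StI.lean` from `St_TRR` and `St_DPS`
-/

set_option autoImplicit false
set_option linter.unusedVariables false

namespace Pool.Agent.TPT

open FirstOrder.Language Set
open scoped FirstOrder
open Pool.Agent.MNO

variable {L : FirstOrder.Language.{0, 0}} {U : Type} [L.Structure U]

theorem idc_of_ind {A : Set U} {α : Type} {u : ℚ → α → U} (h : Ind L A u) : TPY.Idc L A u :=
  fun n i j hi hj => h (Fin n) i j hi hj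

theorem ind_of_idc (hINF : St_INF) {A : Set U} {α : Type} {u : ℚ → α → U} (h : TPY.Idc L A u) : Ind L A u :=
  (hINF L U α ℚ A u).2.1 fun n f g hf hg => h n f g hf hg

theorem tm_ran {α : Type} (u : ℚ → α → U) : TPY.Tm u univ = ran u := by
  ext x
  constructor
  · rintro ⟨q, -, k, rfl⟩
    exact ⟨q, k, rfl⟩
  · rintro ⟨q, k, rfl⟩
    exact ⟨q, mem_univ _, k, rfl⟩

theorem thm_TRI (hINF : St_INF) (hTRR : St_TRR) : TPY.St_TRI := by
  intro L U _ hC α γ _ _ F u c hF h0 h1
  refine idc_of_ind (hTRR L U hC α F (range c) u hF (ind_of_idc hINF h0) ?_)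
  rintro _ ⟨k, rfl⟩
  exact ind_of_idc hINF (h1 k)

theorem thm_DPM (hINF : St_INF) (hINC : St_INC) (hDPS : St_DPS) : TPY.St_DPM := by
  intro L U _ hC α β _ _ F u v y hF h
  have hm : Mut L F u v := by
    refine ⟨?_, ?_⟩
    · have h1 := ind_of_idc hINF h.1
      rwa [tm_ran] at h1
    · have h1 := ind_of_idc hINF h.2
      rwa [tm_ran] at h1
  rcases hDPS L U hC α β ℚ ℚ F u v y hF hm with h1 | h1
  · exact Or.inl (idc_of_ind ((hINC L U).2.2.1 α ℚ _ _ u subset_union_left h1))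
  · exact Or.inr (idc_of_ind ((hINC L U).2.2.1 β ℚ _ _ v subset_union_left h1))

end Pool.Agent.TPT
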